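import Pool.Agent.helper7.Fit.Indep

/-!
The estimate `|E : E₁| ≤ d²` on one homogeneous block.
-/

namespace Pool.Agent.helper7.Fit

open scoped commutatorElement
open Module Submodule

/-- The estimate on one block. -/
theorem block_index {A U E : Type*} [CommRing A] [AddCommGroup U] [Finite U] [Module A U]
    [Group E] [Finite E] [DistribMulAction E U]
    (hlin : ∀ (e : E) (a : A) (u : U), e • (a • u) = a • (e • u))
    (I : Ideal A) [hI : I.IsMaximal] (hne : ∃ u ∈ torsionBySet A U (I : Set A), u ≠ 0)
    (Q d : ℕ) (hQ : 2 ≤ Q) (hQc : Nat.card (A ⧸ I) = Q)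
    (hd : Nat.card (torsionBySet A U (I : Set A)) = Q ^ d)
    (hsc : ∀ e f : E, ∃ a : A, ∀ u : U, ⁅f, e⁆ • u = a • u) (E1 : Subgroup E)
    (hE1 : ∀ e : E, (∀ f : E, ∀ u ∈ torsionBySet A U (I : Set A), ⁅f, e⁆ • u = u) → e ∈ E1) :
    E1.index ≤ d ^ 2 := by
  classical
  let _ : Field (A ⧸ I) := Ideal.Quotient.field I
  have hfinL : Finite (A ⧸ I) := by
    apply Nat.finite_of_card_ne_zero
    omega
  have hmk : ∀ (a : A) (w : torsionBySet A U (I : Set A)),
      (Ideal.Quotient.mk I a) • w = a • w := fun a w => rfl
  have hmem : ∀ (e : E) (u : U), u ∈ torsionBySet A U (I : Set A) →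
      e • u ∈ torsionBySet A U (I : Set A) := by
    intro e u hu
    rw [mem_torsionBySet_iff] at hu ⊢
    intro a
    have h1 := hu a
    rw [← hlin, h1, smul_zero]
  let ρ : E →* (torsionBySet A U (I : Set A) →ₗ[A ⧸ I] torsionBySet A U (I : Set A)) :=
    { toFun := fun e =>
        { toFun := fun w => ⟨e • (w : U), hmem e w w.2⟩
          map_add' := by
            intro w w'
            apply Subtype.ext
            exact smul_add _ _ _
          map_smul' := by
            intro a w
            obtain ⟨a, rfl⟩ := Ideal.Quotient.mk_surjective a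
            apply Subtype.ext
            exact hlin e a w }
      map_one' := by
        apply LinearMap.ext
        intro w
        apply Subtype.ext
        exact one_smul E (w : U)
      map_mul' := by
        intro e f
        apply LinearMap.ext
        intro w
        apply Subtype.ext
        exact mul_smul e f (w : U) }
  have hρ : ∀ (e : E) (w : torsionBySet A U (I : Set A)), ((ρ e w : torsionBySet A U (I : Set A)) : U) = e • (w : U) :=
    fun e w => rfl
  have hfd : FiniteDimensional (A ⧸ I) (torsionBySet A U (I : Set A)) := by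
    have : Finite (torsionBySet A U (I : Set A)) := inferInstance
    infer_instance
  have hnt : Nontrivial (torsionBySet A U (I : Set A)) := by
    obtain ⟨u, hu, hu0⟩ := hne
    exact ⟨⟨⟨u, hu⟩, 0, fun h => hu0 (congrArg Subtype.val h)⟩⟩
  have hfr : finrank (A ⧸ I) (torsionBySet A U (I : Set A)) = d := by
    have := Fintype.ofFinite (A ⧸ I)
    have := Fintype.ofFinite (torsionBySet A U (I : Set A))
    have h1 := Module.card_eq_pow_finrank (K := A ⧸ I) (V := torsionBySet A U (I : Set A))
    rw [← Nat.card_eq_fintype_card, ← Nat.card_eq_fintype_card, hQc, hd] at h1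
    exact (Nat.pow_right_injective hQ h1).symm
  have hmain := index_le_finrank_sq ρ (by
    intro e f
    obtain ⟨a, ha⟩ := hsc e f
    refine ⟨Ideal.Quotient.mk I a, ?_⟩
    apply LinearMap.ext
    intro w
    apply Subtype.ext
    rw [hρ, LinearMap.smul_apply, Module.End.one_apply, hmk, ha]
    rfl) E1 (by
    intro e he
    apply hE1
    intro f u hu
    have h1 := congrArg (fun g : (torsionBySet A U (I : Set A) →ₗ[A ⧸ I]
      torsionBySet A U (I : Set A)) => ((g ⟨u, hu⟩ : torsionBySet A U (I : Set A)) : U)) (he f)
    exact h1)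
  rw [hfr] at hmain
  exact hmain

end Pool.Agent.helper7.Fit
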