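import Pool.Agent.helper7.Fit.Local

/-!
Blocks and squares.
-/

universe u v w

namespace Pool.Agent.helper7.Fit

lemma comm_of_squares {M : Type*} [Group M] (x a b : M) (h1 : x * x = 1)
    (h2 : (x * a) * (x * a) = 1) (h3 : (x * b) * (x * b) = 1)
    (h4 : (x * a * b) * (x * a * b) = 1) : a * b = b * a := by
  have e1 : x⁻¹ = x := inv_eq_of_mul_eq_one_left h1
  have e2 : x * a * x = a⁻¹ := by
    rw [eq_inv_iff_mul_eq_one, mul_assoc (x * a)]; exact h2
  have e3 : x * b * x = b⁻¹ := by
    rw [eq_inv_iff_mul_eq_one, mul_assoc (x * b)]; exact h3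
  have e4 : x * (a * b) * x = (a * b)⁻¹ := by
    rw [eq_inv_iff_mul_eq_one, mul_assoc (x * (a * b)), ← mul_assoc x a b]; exact h4
  have e5 : x * (a * b) * x = (x * a * x) * (x * b * x) := by
    calc x * (a * b) * x = x * a * (1) * b * x := by group
      _ = (x * a * x) * (x * b * x) := by rw [← h1]; group
  rw [e4, e2, e3, mul_inv_rev] at e5
  have e6 := congrArg (fun g => g⁻¹) e5
  simpa [mul_inv_rev] using e6

namespace BlockSystem

variable {X : Type v} {U : Type u} [Group X] [AddCommGroup U] [DistribMulAction X U]
  {ι : Type u} [Fintype ι] (BS : BlockSystem X U ι)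

open Classical in
lemma card_supp_add (u v : U) (i : ι) (hi : i ∉ BS.supp u) (hv : BS.π i v = v) :
    (BS.supp (u + v)).card = (BS.supp u).card + if v = 0 then 0 else 1 := by
  have hj : ∀ j, j ≠ i → BS.π j v = 0 := by
    intro j hj
    rw [← hv]
    exact BS.ortho j i v hj
  have hui : BS.π i u = 0 := by
    by_contra h
    exact hi ((BS.mem_supp u i).2 h)
  by_cases h0 : v = 0
  · rw [h0, add_zero, if_pos rfl, add_zero]
  · rw [if_neg h0]
    have h : BS.supp (u + v) = insert i (BS.supp u) := by
      ext j
      rw [Finset.mem_insert, mem_supp, mem_supp, map_add]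
      by_cases hji : j = i
      · subst hji
        rw [hui, zero_add, hv]
        simp [h0]
      · rw [hj j hji, add_zero]
        simp [hji]
    rw [h, Finset.card_insert_of_notMem hi]

open Classical in
lemma exists_supp (I : Finset ι) : ∃ u : U, BS.supp u = I := by
  choose a b _ ha0 _ ha _ using BS.large
  refine ⟨∑ i ∈ I, a i, ?_⟩
  ext j
  rw [mem_supp, map_sum]
  by_cases hj : j ∈ I
  · rw [Finset.sum_eq_single_of_mem j hj, ha]
    · simp [hj, ha0 j]
    · intro i _ hij
      rw [← ha i]
      exact BS.ortho j i _ hij.symm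
  · rw [Finset.sum_eq_zero]
    · simp [hj]
    · intro i hi
      rw [← ha i]
      apply BS.ortho
      rintro rfl
      exact hj hi

/-- If squares of elements of two consecutive support sizes are trivial, then everything
commutes. -/
theorem comm_of_blocks {M : Type w} [Group M] (π : M → U)
    (hπ : ∀ x y, π (x * y) = π x + π y) (hsurj : Function.Surjective π) (t : ℕ) (ht : 1 ≤ t)
    (htn : t + 1 ≤ Fintype.card ι)
    (hsq : ∀ x : M, ((BS.supp (π x)).card = t ∨ (BS.supp (π x)).card = t + 1) → x * x = 1) :
    ∀ a b : M, a * b = b * a := by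
  classical
  have hne : Nonempty ι := by
    rw [← Fintype.card_pos_iff]
    omega
  have hsum : ∀ x : M, ∀ i : ι, ∀ e : U, BS.π i e = e → ∀ y : M, BS.π i (π y) = π y →
      BS.π i (e + π y) = e + π y := by
    intro x i e he y hy
    rw [map_add, he, hy]
  have hdiff : ∀ (i j : ι), i ≠ j → ∀ a b : M, BS.π i (π a) = π a → BS.π j (π b) = π b →
      a * b = b * a := by
    intro i j hij a b ha hb
    obtain ⟨I, hI, hIcard⟩ : ∃ I ⊆ (Finset.univ.erase i).erase j, I.card = t - 1 := by
      apply Finset.exists_subset_card_eq
      rw [Finset.card_erase_of_mem (by simp [hij.symm]), Finset.card_erase_of_mem (by simp),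
        Finset.card_univ]
      omega
    obtain ⟨c0, hc0⟩ := BS.exists_supp I
    obtain ⟨c, hc⟩ := hsurj c0
    have hiI : i ∉ I := fun h => by simpa using hI h
    have hjI : j ∉ I := fun h => by simpa using hI h
    obtain ⟨e, he0, he, hea⟩ : ∃ e : U, e ≠ 0 ∧ BS.π i e = e ∧ e + π a ≠ 0 := by
      obtain ⟨a1, a2, h12, h1, h2, h3, h4⟩ := BS.large i
      by_cases h : a1 + π a = 0
      · refine ⟨a2, h2, h4, ?_⟩
        intro h'
        apply h12
        rw [eq_neg_of_add_eq_zero_left h, eq_neg_of_add_eq_zero_left h']
      · exact ⟨a1, h1, h3, h⟩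
    obtain ⟨e', he'⟩ := hsurj e
    have hjs : ∀ f : U, BS.π i f = f → j ∉ BS.supp (c0 + f) := by
      intro f hf
      rw [mem_supp, not_not, map_add]
      have h1 : BS.π j c0 = 0 := by
        by_contra h
        apply hjI
        rw [← hc0, mem_supp]
        exact h
      rw [h1, ← hf, BS.ortho j i _ hij.symm, add_zero]
    have hiS : i ∉ BS.supp c0 := by rw [hc0]; exact hiI
    have hx : (BS.supp (c0 + e)).card = t := by
      rw [BS.card_supp_add c0 e i hiS he, if_neg he0, hc0, hIcard]
      omega
    have hea' : BS.π i (e + π a) = e + π a := by rw [map_add, he, ha]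
    have hxa : (BS.supp (c0 + (e + π a))).card = t := by
      rw [BS.card_supp_add c0 _ i hiS hea', if_neg hea, hc0, hIcard]
      omega
    apply comm_of_squares (c * e') a b
    · apply hsq
      rw [hπ, hc, he']
      exact Or.inl hx
    · apply hsq
      rw [hπ, hπ, hc, he', add_assoc]
      exact Or.inl hxa
    · apply hsq
      rw [hπ, hπ, hc, he', BS.card_supp_add (c0 + e) (π b) j (hjs e he) hb, hx]
      split_ifs <;> simp
    · apply hsq
      rw [hπ, hπ, hπ, hc, he', add_assoc c0,
        BS.card_supp_add (c0 + (e + π a)) (π b) j (hjs _ hea') hb, hxa]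
      split_ifs <;> simp
  have hsame : ∀ (i : ι), ∀ a b : M, BS.π i (π a) = π a → BS.π i (π b) = π b →
      a * b = b * a := by
    intro i a b ha hb
    obtain ⟨I, hI, hIcard⟩ : ∃ I ⊆ Finset.univ.erase i, I.card = t := by
      apply Finset.exists_subset_card_eq
      rw [Finset.card_erase_of_mem (by simp), Finset.card_univ]
      omega
    obtain ⟨c0, hc0⟩ := BS.exists_supp I
    obtain ⟨c, hc⟩ := hsurj c0
    have hiI : i ∉ I := fun h => by simpa using hI h
    have hiS : i ∉ BS.supp c0 := by rw [hc0]; exact hiI
    have hx : (BS.supp c0).card = t := by rw [hc0, hIcard]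
    have hab : BS.π i (π a + π b) = π a + π b := by rw [map_add, ha, hb]
    apply comm_of_squares c a b
    · apply hsq
      rw [hc]
      exact Or.inl hx
    · apply hsq
      rw [hπ, hc, BS.card_supp_add c0 _ i hiS ha, hx]
      split_ifs <;> simp
    · apply hsq
      rw [hπ, hc, BS.card_supp_add c0 _ i hiS hb, hx]
      split_ifs <;> simp
    · apply hsq
      rw [hπ, hπ, hc, add_assoc, BS.card_supp_add c0 _ i hiS hab, hx]
      split_ifs <;> simp
  let S : Set M := {a | ∃ i, BS.π i (π a) = π a}
  have hScomm : ∀ a ∈ S, ∀ b ∈ S, a * b = b * a := by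
    rintro a ⟨i, hi⟩ b ⟨j, hj⟩
    by_cases hij : i = j
    · subst hij
      exact hsame i a b hi hj
    · exact hdiff i j hij a b hi hj
  have hgen : ∀ J : Finset ι, ∀ x : M, BS.supp (π x) ⊆ J → x ∈ Subgroup.closure S := by
    intro J
    induction J using Finset.induction_on with
    | empty =>
      intro x hx
      apply Subgroup.subset_closure
      obtain ⟨i⟩ := hne
      refine ⟨i, ?_⟩
      have h0 : π x = 0 := by
        rw [← BS.sum_eq (π x)]
        apply Finset.sum_eq_zero
        intro j _
        by_contra h
        have := hx ((BS.mem_supp _ j).2 h)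
        simp at this
      rw [h0, map_zero]
    | insert j J hj ih =>
      intro x hx
      obtain ⟨y, hy⟩ := hsurj (BS.π j (π x))
      have hidem : BS.π j (BS.π j (π x)) = BS.π j (π x) := by
        have h1 := congrArg (BS.π j) (BS.sum_eq (π x))
        rw [map_sum, Finset.sum_eq_single_of_mem j (Finset.mem_univ _)] at h1
        · exact h1
        · intro i _ hij
          exact BS.ortho j i _ hij.symm
      have hyS : y ∈ S := ⟨j, by rw [hy]; exact hidem⟩
      have h1 : y⁻¹ * x ∈ Subgroup.closure S := by
        apply ih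
        intro i hi
        have h2 : π y + π (y⁻¹ * x) = π x := by rw [← hπ, mul_inv_cancel_left]
        rw [mem_supp] at hi
        have h3 : BS.π i (π y) + BS.π i (π (y⁻¹ * x)) = BS.π i (π x) := by
          rw [← map_add, h2]
        by_cases hij : i = j
        · exfalso
          subst hij
          rw [hy, hidem] at h3
          exact hi (by simpa using h3)
        · have h4 : BS.π i (π y) = 0 := by rw [hy]; exact BS.ortho i j _ hij
          rw [h4, zero_add] at h3
          rw [h3] at hi
          have := hx ((BS.mem_supp _ i).2 hi)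
          rw [Finset.mem_insert] at this
          exact this.resolve_left hij
      have h5 : x = y * (y⁻¹ * x) := by group
      rw [h5]
      exact Subgroup.mul_mem _ (Subgroup.subset_closure hyS) h1
  have h1 : Subgroup.closure S ≤ Subgroup.centralizer S := by
    rw [Subgroup.closure_le]
    intro a ha
    rw [SetLike.mem_coe, Subgroup.mem_centralizer_iff]
    intro b hb
    exact hScomm b hb a ha
  have h2 : Subgroup.closure S ≤ Subgroup.centralizer (Subgroup.closure S : Set M) := by
    rw [Subgroup.closure_le]
    intro a ha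
    rw [SetLike.mem_coe, Subgroup.mem_centralizer_iff]
    intro b hb
    exact ((Subgroup.mem_centralizer_iff.1 (h1 hb)) a ha).symm
  intro a b
  have ha := hgen Finset.univ a (Finset.subset_univ _)
  have hb := hgen Finset.univ b (Finset.subset_univ _)
  exact (Subgroup.mem_centralizer_iff.1 (h2 hb)) a ha

end BlockSystem

end Pool.Agent.helper7.Fit
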