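import Pool.Agent.helper7.Fit.BlockComb

/-!
An abelian chief factor as a module.
-/

universe u

namespace Pool.Agent.helper7.Fit

open scoped commutatorElement

/-- An abelian chief factor as an irreducible module. -/
theorem exists_module {Γ : Type u} [Group Γ] [Finite Γ] (M N : Subgroup Γ) [hMn : M.Normal]
    [hNn : N.Normal] (hNM : N < M) (hcomm : ∀ x ∈ M, ∀ y ∈ M, ⁅x, y⁆ ∈ N)
    (hmax : ∀ K : Subgroup Γ, K.Normal → N ≤ K → K ≤ M → K = N ∨ K = M) :
    ∃ (U : Type u) (_ : AddCommGroup U) (_ : DistribMulAction Γ U) (π : M → U),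
      Function.Surjective π ∧ (∀ x y, π (x * y) = π x + π y) ∧
      (∀ x : M, π x = 0 ↔ (x : Γ) ∈ N) ∧
      (∀ (g : Γ) (x : M), π (MulAut.conjNormal g x) = g • π x) ∧ Finite U ∧ Nontrivial U ∧
      (∀ W : AddSubgroup U, (∀ x : Γ, ∀ w ∈ W, x • w ∈ W) → W = ⊥ ∨ W = ⊤) := by
  classical
  let Q := M ⧸ N.subgroupOf M
  have hmk : ∀ x y : M, (QuotientGroup.mk x : Q) = QuotientGroup.mk y ↔ (x : Γ)⁻¹ * y ∈ N := by
    intro x y
    rw [QuotientGroup.eq, Subgroup.mem_subgroupOf]
    rfl
  have hQcomm : ∀ a b : Q, a * b = b * a := by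
    intro a b
    obtain ⟨x, rfl⟩ := QuotientGroup.mk_surjective a
    obtain ⟨y, rfl⟩ := QuotientGroup.mk_surjective b
    rw [← QuotientGroup.mk_mul, ← QuotientGroup.mk_mul, hmk]
    have h := hcomm _ (M.inv_mem y.2) _ (M.inv_mem x.2)
    have h1 : ((x * y : M) : Γ)⁻¹ * ((y * x : M) : Γ) = ⁅(y : Γ)⁻¹, (x : Γ)⁻¹⁆ := by
      rw [commutatorElement_def]
      simp [mul_assoc]
    rw [h1]
    exact h
  let _ : CommGroup Q := { (inferInstance : Group Q) with mul_comm := hQcomm }
  have hconj : ∀ g : Γ, N.subgroupOf M ≤ (N.subgroupOf M).comap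
      (MulAut.conjNormal g : MulAut M).toMonoidHom := by
    intro g x hx
    rw [Subgroup.mem_subgroupOf] at hx
    rw [Subgroup.mem_comap, Subgroup.mem_subgroupOf]
    change ((MulAut.conjNormal g x : M) : Γ) ∈ N
    rw [MulAut.conjNormal_apply]
    exact hNn.conj_mem _ hx g
  let act : Γ → Q →* Q := fun g =>
    QuotientGroup.map _ _ (MulAut.conjNormal g : MulAut M).toMonoidHom (hconj g)
  have hact : ∀ g (x : M), act g (QuotientGroup.mk x) =
      QuotientGroup.mk (MulAut.conjNormal g x) := fun g x => rfl
  let _ : DistribMulAction Γ (Additive Q) :=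
    { smul := fun g u => Additive.ofMul (act g u.toMul)
      one_smul := by
        intro u
        obtain ⟨x, hx⟩ := QuotientGroup.mk_surjective u.toMul
        change Additive.ofMul (act 1 u.toMul) = u
        rw [← hx, hact, map_one]
        change Additive.ofMul (QuotientGroup.mk x : Q) = u
        rw [hx]
        rfl
      mul_smul := by
        intro g h u
        obtain ⟨x, hx⟩ := QuotientGroup.mk_surjective u.toMul
        change Additive.ofMul (act (g * h) u.toMul) = Additive.ofMul (act g (act h u.toMul))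
        rw [← hx, hact, hact, hact, map_mul]
        rfl
      smul_zero := by
        intro g
        change Additive.ofMul (act g 1) = 0
        rw [map_one]
        rfl
      smul_add := by
        intro g u v
        change Additive.ofMul (act g (u.toMul * v.toMul)) =
          Additive.ofMul (act g u.toMul) + Additive.ofMul (act g v.toMul)
        rw [map_mul]
        rfl }
  refine ⟨Additive Q, inferInstance, inferInstance, fun x => Additive.ofMul
    (QuotientGroup.mk x : Q), ?_, ?_, ?_, ?_, ?_, ?_, ?_⟩
  · intro u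
    obtain ⟨x, hx⟩ := QuotientGroup.mk_surjective u.toMul
    exact ⟨x, by change Additive.ofMul (QuotientGroup.mk x : Q) = u; rw [hx]; rfl⟩
  · intro x y
    rfl
  · intro x
    change (QuotientGroup.mk x : Q) = QuotientGroup.mk 1 ↔ _
    rw [eq_comm, hmk]
    simp
  · intro g x
    rfl
  · exact inferInstanceAs (Finite Q)
  · change Nontrivial Q
    rw [QuotientGroup.nontrivial_iff]
    intro h
    apply hNM.not_ge
    rw [Subgroup.subgroupOf_eq_top] at h
    exact h
  · intro W hW
    have hWmem : ∀ x : M, (Additive.ofMul (QuotientGroup.mk x : Q) ∈ W) ↔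
        x ∈ (AddSubgroup.toSubgroup' W).comap (QuotientGroup.mk' (N.subgroupOf M)) := by
      intro x
      rfl
    let K0 : Subgroup M := (AddSubgroup.toSubgroup' W).comap (QuotientGroup.mk' (N.subgroupOf M))
    let K : Subgroup Γ := K0.map M.subtype
    have hKmem : ∀ x : M, (x : Γ) ∈ K ↔ Additive.ofMul (QuotientGroup.mk x : Q) ∈ W := by
      intro x
      constructor
      · rintro ⟨y, hy, hyx⟩
        have : y = x := Subtype.ext hyx
        rw [← this]
        exact hy
      · intro h
        exact ⟨x, h, rfl⟩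
    have hKM : K ≤ M := by
      rintro _ ⟨y, _, rfl⟩
      exact y.2
    have hKn : K.Normal := by
      constructor
      rintro _ ⟨y, hy, rfl⟩ g
      have h1 := hW g (Additive.ofMul (QuotientGroup.mk y : Q)) hy
      have h2 : Additive.ofMul (QuotientGroup.mk (MulAut.conjNormal g y) : Q) ∈ W := h1
      rw [← hKmem, MulAut.conjNormal_apply] at h2
      exact h2
    have hNK : N ≤ K := by
      intro x hx
      have h1 := hKmem ⟨x, hNM.le hx⟩
      rw [h1]
      have h2 : (QuotientGroup.mk (⟨x, hNM.le hx⟩ : M) : Q) = QuotientGroup.mk 1 := by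
        rw [eq_comm, hmk]
        simpa using hx
      rw [h2]
      exact W.zero_mem
    rcases hmax K hKn hNK hKM with h | h
    · left
      rw [AddSubgroup.eq_bot_iff_forall]
      intro u hu
      obtain ⟨x, hx⟩ := QuotientGroup.mk_surjective u.toMul
      have h1 : Additive.ofMul (QuotientGroup.mk x : Q) ∈ W := by rw [hx]; exact hu
      rw [← hKmem, h] at h1
      have h2 : (QuotientGroup.mk x : Q) = QuotientGroup.mk 1 := by
        rw [eq_comm, hmk]
        simpa using h1
      change u.toMul = (1 : Q)
      rw [← hx, h2]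
      rfl
    · right
      rw [AddSubgroup.eq_top_iff']
      intro u
      obtain ⟨x, hx⟩ := QuotientGroup.mk_surjective u.toMul
      have h1 : Additive.ofMul (QuotientGroup.mk x : Q) ∈ W := by
        rw [← hKmem, h]
        exact x.2
      rw [hx] at h1
      exact h1

end Pool.Agent.helper7.Fit
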