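import Pool.Agent.helper7.Fit.Defs

/-!
Existence of an irreducible character lying over a linear character of a normal subgroup, and its
zeros.
-/

universe u

namespace Pool.Agent.helper7.Fit

open scoped MonoidAlgebra

theorem exists_irreducible {G : Type u} [Group G] [Finite G] (e : MonoidAlgebra ℂ G)
    (he : e ≠ 0) :
    ∃ (V : Type u) (_ : AddCommGroup V) (_ : Module ℂ V) (_ : FiniteDimensional ℂ V)
      (ρ : Representation ℂ G V), ρ.IsIrreducible ∧ ∃ w : V, w ≠ 0 ∧
        ∀ (g : G) (c : ℂ), MonoidAlgebra.single g (1 : ℂ) * e = c • e → ρ g w = c • w := by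
  classical
  obtain ⟨Q, hQ, heQ⟩ : ∃ Q : Submodule (MonoidAlgebra ℂ G) (MonoidAlgebra ℂ G),
      IsCoatom Q ∧ e ∉ Q := by
    have h := IsSemisimpleModule.jacobson_eq_bot (MonoidAlgebra ℂ G) (MonoidAlgebra ℂ G)
    by_contra hcon
    push Not at hcon
    apply he
    have h1 : e ∈ Module.jacobson (MonoidAlgebra ℂ G) (MonoidAlgebra ℂ G) := by
      rw [Module.jacobson, Submodule.mem_sInf]
      intro Q hQ
      exact hcon Q hQ
    rw [h] at h1
    exact (Submodule.mem_bot _).1 h1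
  have hS : IsSimpleModule (MonoidAlgebra ℂ G) ((MonoidAlgebra ℂ G) ⧸ Q) :=
    isSimpleModule_iff_isCoatom.2 hQ
  have hfin : Module.Finite ℂ (MonoidAlgebra ℂ G) := inferInstance
  have hfin2 : Module.Finite ℂ (RestrictScalars ℂ (MonoidAlgebra ℂ G) ((MonoidAlgebra ℂ G) ⧸ Q)) := by
    let : Module (MonoidAlgebra ℂ G)
      (RestrictScalars ℂ (MonoidAlgebra ℂ G) ((MonoidAlgebra ℂ G) ⧸ Q)) :=
      RestrictScalars.moduleOrig _ _ _
    have h1 : Module.Finite (MonoidAlgebra ℂ G)
      (RestrictScalars ℂ (MonoidAlgebra ℂ G) ((MonoidAlgebra ℂ G) ⧸ Q)) :=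
      inferInstanceAs (Module.Finite (MonoidAlgebra ℂ G) ((MonoidAlgebra ℂ G) ⧸ Q))
    exact Module.Finite.trans (MonoidAlgebra ℂ G) _
  have key : ∀ (g : G) (c : ℂ), MonoidAlgebra.single g (1 : ℂ) * e = c • e →
      Representation.ofModule (k := ℂ) (G := G) ((MonoidAlgebra ℂ G) ⧸ Q) g
        ((RestrictScalars.addEquiv ℂ (MonoidAlgebra ℂ G) _).symm (Submodule.Quotient.mk e)) =
      c • ((RestrictScalars.addEquiv ℂ (MonoidAlgebra ℂ G) _).symm
        (Submodule.Quotient.mk (p := Q) e)) := by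
    intro g c hgc
    have h1 := Representation.ofModule_asAlgebraHom_apply_apply (k := ℂ) (G := G)
      ((MonoidAlgebra ℂ G) ⧸ Q) (MonoidAlgebra.single g (1 : ℂ))
      ((RestrictScalars.addEquiv ℂ (MonoidAlgebra ℂ G) _).symm (Submodule.Quotient.mk e))
    rw [Representation.asAlgebraHom_single, one_smul] at h1
    rw [h1, AddEquiv.apply_symm_apply, ← Submodule.Quotient.mk_smul, smul_eq_mul, hgc]
    have h2 : c • e = (algebraMap ℂ (MonoidAlgebra ℂ G) c) • e := by
      rw [algebraMap_smul]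
    rw [h2, Submodule.Quotient.mk_smul]
    rfl
  refine ⟨RestrictScalars ℂ (MonoidAlgebra ℂ G) ((MonoidAlgebra ℂ G) ⧸ Q),
    instAddCommGroupRestrictScalars ℂ (MonoidAlgebra ℂ G) ((MonoidAlgebra ℂ G) ⧸ Q),
    RestrictScalars.module ℂ (MonoidAlgebra ℂ G) ((MonoidAlgebra ℂ G) ⧸ Q),
    hfin2, Representation.ofModule ((MonoidAlgebra ℂ G) ⧸ Q),
    (Representation.isSimpleModule_iff_irreducible_ofModule _).1 hS,
    (RestrictScalars.addEquiv ℂ (MonoidAlgebra ℂ G) _).symm (Submodule.Quotient.mk e), ?_, key⟩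
  intro h
  apply heQ
  have h1 := (AddEquiv.map_eq_zero_iff
    (RestrictScalars.addEquiv ℂ (MonoidAlgebra ℂ G) ((MonoidAlgebra ℂ G) ⧸ Q)).symm).1 h
  exact (Submodule.Quotient.mk_eq_zero Q).1 h1

/-- The action of `G` on the linear characters of a normal subgroup. -/
@[reducible]
def charAction {G : Type*} [Group G] (N : Subgroup G) [N.Normal] :
    MulDistribMulAction G (N →* ℂˣ) where
  smul g μ := μ.comp (MulAut.conjNormal g⁻¹).toMonoidHom
  one_smul μ := by
    apply MonoidHom.ext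
    intro n
    change μ (MulAut.conjNormal (1 : G)⁻¹ n) = μ n
    simp
  mul_smul g h μ := by
    apply MonoidHom.ext
    intro n
    change μ (MulAut.conjNormal (g * h)⁻¹ n) = μ (MulAut.conjNormal h⁻¹ (MulAut.conjNormal g⁻¹ n))
    rw [mul_inv_rev, map_mul]
    rfl
  smul_mul g μ ν := by
    apply MonoidHom.ext
    intro n
    rfl
  smul_one g := by
    apply MonoidHom.ext
    intro n
    rfl

attribute [local instance] charAction

lemma charAction_apply {G : Type*} [Group G] (N : Subgroup G) [N.Normal] (g : G) (μ : N →* ℂˣ)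
    (n : N) : (g • μ) n = μ (MulAut.conjNormal g⁻¹ n) := rfl

/-- The (isotypic) projection attached to a linear character of a subgroup. -/
noncomputable def proj {G V : Type*} [Group G] [AddCommGroup V] [Module ℂ V]
    (ρ : Representation ℂ G V) (N : Subgroup G) [Fintype N] (μ : N →* ℂˣ) : V →ₗ[ℂ] V :=
  (Fintype.card N : ℂ)⁻¹ • ∑ n : N, (((μ n)⁻¹ : ℂˣ) : ℂ) • ρ (n : G)

section

variable {G V : Type*} [Group G] [AddCommGroup V] [Module ℂ V]
    (ρ : Representation ℂ G V) (N : Subgroup G) [Fintype N]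

lemma rho_mul_proj (μ : N →* ℂˣ) (n : N) :
    ρ (n : G) * proj ρ N μ = ((μ n : ℂˣ) : ℂ) • proj ρ N μ := by
  unfold proj
  rw [mul_smul_comm, smul_comm]
  congr 1
  rw [Finset.mul_sum, Finset.smul_sum]
  refine Fintype.sum_equiv (Equiv.mulLeft n) _ _ ?_
  intro k
  simp only [Equiv.coe_mulLeft, mul_smul_comm, map_mul, Subgroup.coe_mul, smul_smul]
  congr 1
  rw [mul_inv, Units.val_mul, ← mul_assoc, ← Units.val_mul, mul_inv_cancel, Units.val_one, one_mul]

lemma sum_char (μ ν : N →* ℂˣ) :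
    ∑ n : N, (((ν n)⁻¹ : ℂˣ) : ℂ) * ((μ n : ℂˣ) : ℂ) =
      if μ = ν then (Fintype.card N : ℂ) else 0 := by
  classical
  split_ifs with h
  · subst h
    have : ∀ n : N, (((μ n)⁻¹ : ℂˣ) : ℂ) * ((μ n : ℂˣ) : ℂ) = 1 := by
      intro n
      rw [← Units.val_mul, inv_mul_cancel, Units.val_one]
    simp only [this]
    simp
  · let f : N →* ℂ := (Units.coeHom ℂ).comp (ν⁻¹ * μ)
    have hf : f ≠ 1 := by
      intro hf
      apply h
      apply MonoidHom.ext
      intro n
      have h1 : f n = 1 := by rw [hf]; rfl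
      have h2 : (((ν⁻¹ * μ) n : ℂˣ) : ℂ) = 1 := h1
      rw [Units.val_eq_one, MonoidHom.mul_apply, MonoidHom.inv_apply] at h2
      exact (inv_mul_eq_one.1 h2).symm
    have := sum_hom_units_eq_zero f hf
    rw [← this]
    apply Finset.sum_congr rfl
    intro n _
    change _ = (((ν⁻¹ * μ) n : ℂˣ) : ℂ)
    rw [MonoidHom.mul_apply, MonoidHom.inv_apply, Units.val_mul]

lemma proj_mul_proj (μ ν : N →* ℂˣ) :
    proj ρ N ν * proj ρ N μ = if μ = ν then proj ρ N μ else 0 := by
  classical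
  have h0 : (Fintype.card N : ℂ) ≠ 0 := by
    have : 0 < Fintype.card N := Fintype.card_pos
    exact_mod_cast this.ne'
  conv_lhs => rw [proj]
  rw [smul_mul_assoc, Finset.sum_mul]
  have h1 : ∀ n : N, ((((ν n)⁻¹ : ℂˣ) : ℂ) • ρ (n : G)) * proj ρ N μ =
      ((((ν n)⁻¹ : ℂˣ) : ℂ) * ((μ n : ℂˣ) : ℂ)) • proj ρ N μ := by
    intro n
    rw [smul_mul_assoc, rho_mul_proj, smul_smul]
  simp only [h1]
  rw [← Finset.sum_smul, sum_char, smul_smul]
  split_ifs with h
  · rw [inv_mul_cancel₀ h0, one_smul]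
  · simp

lemma proj_apply_weight (lam μ : N →* ℂˣ) (w : V)
    (hlam : ∀ n : N, ρ n w = ((lam n : ℂˣ) : ℂ) • w) :
    proj ρ N μ w = if lam = μ then w else 0 := by
  classical
  have h0 : (Fintype.card N : ℂ) ≠ 0 := by
    have : 0 < Fintype.card N := Fintype.card_pos
    exact_mod_cast this.ne'
  unfold proj
  rw [LinearMap.smul_apply, LinearMap.sum_apply]
  have h1 : ∀ n : N, ((((μ n)⁻¹ : ℂˣ) : ℂ) • ρ (n : G)) w =
      ((((μ n)⁻¹ : ℂˣ) : ℂ) * ((lam n : ℂˣ) : ℂ)) • w := by
    intro n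
    rw [LinearMap.smul_apply, hlam, smul_smul]
  simp only [h1]
  rw [← Finset.sum_smul, sum_char, smul_smul]
  split_ifs with h
  · rw [inv_mul_cancel₀ h0, one_smul]
  · simp

lemma rho_mul_proj_conj [N.Normal] (μ : N →* ℂˣ) (g : G) :
    ρ g * proj ρ N μ = proj ρ N (g • μ) * ρ g := by
  unfold proj
  rw [mul_smul_comm, smul_mul_assoc]
  congr 1
  rw [Finset.mul_sum, Finset.sum_mul]
  refine Fintype.sum_equiv (MulAut.conjNormal g).toEquiv _ _ ?_
  intro n
  rw [mul_smul_comm, smul_mul_assoc]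
  have h1 : (g • μ) ((MulAut.conjNormal g).toEquiv n) = μ n := by
    rw [charAction_apply]
    congr 1
    apply Subtype.ext
    simp
  rw [h1]
  congr 1
  rw [← map_mul, ← map_mul]
  congr 1
  simp [MulAut.conjNormal_apply, mul_assoc]

/-- **Zeros of characters lying over a linear character.** -/
theorem character_eq_zero [Finite G] [FiniteDimensional ℂ V] (hρ : ρ.IsIrreducible) [N.Normal]
    (lam : N →* ℂˣ) (w : V) (hw : w ≠ 0) (hlam : ∀ n : N, ρ n w = ((lam n : ℂˣ) : ℂ) • w)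
    (x : G) (hx : ∀ g : G, x • (g • lam) ≠ g • lam) : ρ.character x = 0 := by
  classical
  have := Fintype.ofFinite G
  let Ω : Finset (N →* ℂˣ) := Finset.univ.image (fun g : G => g • lam)
  have hΩmem : ∀ μ, μ ∈ Ω ↔ ∃ g : G, g • lam = μ := by
    intro μ
    simp [Ω]
  have hΩsmul : ∀ (g : G) μ, μ ∈ Ω → g • μ ∈ Ω := by
    intro g μ hμ
    obtain ⟨h, rfl⟩ := (hΩmem μ).1 hμ
    exact (hΩmem _).2 ⟨g * h, mul_smul _ _ _⟩
  let Q : V →ₗ[ℂ] V := ∑ μ ∈ Ω, proj ρ N μ
  have hcomm : ∀ g : G, ρ g * Q = Q * ρ g := by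
    intro g
    simp only [Q]
    rw [Finset.mul_sum, Finset.sum_mul]
    refine Finset.sum_bij (fun μ _ => g • μ) (fun μ hμ => hΩsmul g μ hμ) ?_ ?_ ?_
    · intro μ _ ν _ h
      have := congrArg (fun t => g⁻¹ • t) h
      simpa using this
    · intro μ hμ
      exact ⟨g⁻¹ • μ, hΩsmul _ μ hμ, by simp⟩
    · intro μ _
      exact rho_mul_proj_conj ρ N μ g
  have hQw : Q w = w := by
    simp only [Q, LinearMap.sum_apply, proj_apply_weight ρ N lam _ w hlam]
    rw [Finset.sum_ite_eq]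
    rw [if_pos ((hΩmem lam).2 ⟨1, one_smul _ _⟩)]
  have hQ : Q = 1 := by
    let W : Subrepresentation ρ :=
      { toSubmodule := LinearMap.ker (Q - 1)
        apply_mem_toSubmodule := by
          intro g v hv
          rw [LinearMap.mem_ker, LinearMap.sub_apply, Module.End.one_apply, sub_eq_zero] at hv ⊢
          have := congrArg (fun f : V →ₗ[ℂ] V => f v) (hcomm g)
          simp only [Module.End.mul_apply] at this
          rw [← this, hv] }
    have hW : W = ⊤ := by
      rcases hρ.eq_bot_or_eq_top W with h | h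
      · exfalso
        apply hw
        have hwW : w ∈ W.toSubmodule := by
          change w ∈ LinearMap.ker (Q - 1)
          rw [LinearMap.mem_ker, LinearMap.sub_apply, Module.End.one_apply, hQw, sub_self]
        rw [h] at hwW
        exact (Submodule.mem_bot ℂ).1 hwW
      · exact h
    apply LinearMap.ext
    intro v
    have hv : v ∈ W.toSubmodule := by rw [hW]; exact Submodule.mem_top
    change v ∈ LinearMap.ker (Q - 1) at hv
    rw [LinearMap.mem_ker, LinearMap.sub_apply, sub_eq_zero] at hv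
    exact hv
  have htr : ρ.character x = ∑ μ ∈ Ω, LinearMap.trace ℂ V (ρ x * proj ρ N μ) := by
    unfold Representation.character
    rw [← map_sum, ← Finset.mul_sum]
    change _ = LinearMap.trace ℂ V (ρ x * Q)
    rw [hQ, mul_one]
  rw [htr]
  apply Finset.sum_eq_zero
  intro μ hμ
  obtain ⟨g, rfl⟩ := (hΩmem μ).1 hμ
  have h1 : proj ρ N (g • lam) = proj ρ N (g • lam) * proj ρ N (g • lam) := by
    rw [proj_mul_proj, if_pos rfl]
  rw [h1, ← mul_assoc, LinearMap.trace_mul_comm, ← mul_assoc, mul_assoc, rho_mul_proj_conj,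
    ← mul_assoc, proj_mul_proj, if_neg (hx g), zero_mul, map_zero]

end

end Pool.Agent.helper7.Fit
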