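import Mathlib

/-!
Core group theoretic estimate: a normal nilpotent subgroup `P` of a finite group `G` is bounded in
terms of `|G : P C_G(P)|` and `m`, provided that for every abelian normal subgroup `A ≤ P` of `G`
there is a subgroup `T` with `T ∩ A = 1` that meets all but at most `m` conjugacy classes of `G`.
-/

open Subgroup
open scoped commutatorElement

namespace Pool.Agent.helper7.Fit

variable {G : Type*} [Group G]

/-- The set of conjugacy classes of `G` that have an element in `T`. -/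
def missing (T : Set G) : Set (ConjClasses G) := {c | ∀ t ∈ T, ConjClasses.mk t ≠ c}

/-- The series `A, [A,P], [A,P,P], …`. -/
def stepSeries (A P : Subgroup G) : ℕ → Subgroup G
  | 0 => A
  | n + 1 => ⁅stepSeries A P n, P⁆

lemma stepSeries_normal (A P : Subgroup G) [hA : A.Normal] [P.Normal] (n : ℕ) :
    (stepSeries A P n).Normal := by
  induction n with
  | zero => exact hA
  | succ n ih => exact Subgroup.commutator_normal (stepSeries A P n) P

/-- In a series: a normal subgroup `B < A ≤ P`, `P` nilpotent, can be enlarged. -/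
lemma exists_step (P : Subgroup G) [P.Normal] (hP : Group.IsNilpotent P) (A B : Subgroup G)
    [A.Normal] [B.Normal] (hAP : A ≤ P) (hBA : B ≤ A) (hne : B ≠ A) :
    ∃ B' : Subgroup G, B'.Normal ∧ B < B' ∧ B' ≤ A ∧
      ∀ x ∈ B', ∀ y ∈ P, y * x * y⁻¹ * x⁻¹ ∈ B := by
  classical
  obtain ⟨S, hS⟩ : ∃ S, S = stepSeries A P := ⟨_, rfl⟩
  have hS0 : S 0 = A := by rw [hS]; rfl
  have hS1 : ∀ n, S (n + 1) = ⁅S n, P⁆ := fun n => by rw [hS]; rfl
  have hSn : ∀ n, (S n).Normal := fun n => by rw [hS]; exact stepSeries_normal A P n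
  have hSA : ∀ n, S n ≤ A := by
    intro n
    induction n with
    | zero => rw [hS0]
    | succ n ih =>
      rw [hS1]
      have := hSn n
      exact (Subgroup.commutator_le_left (S n) P).trans ih
  have hSP : ∀ n, S n ≤ P.lowerCentralSeries n := by
    intro n
    induction n with
    | zero => rw [hS0]; exact hAP
    | succ n ih => rw [hS1]; exact Subgroup.commutator_mono ih le_rfl
  obtain ⟨n, hn⟩ := Subgroup.isNilpotent_iff_lowerCentralSeries P |>.1 hP
  have hex : ∃ n, S n ≤ B := ⟨n, (hSP n).trans (by rw [hn]; exact bot_le)⟩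
  set i := Nat.find hex with hi
  have hiB : S i ≤ B := Nat.find_spec hex
  have hi0 : i ≠ 0 := by
    intro h0
    rw [h0, hS0] at hiB
    exact hne (le_antisymm hBA hiB)
  obtain ⟨j, hj⟩ := Nat.exists_eq_succ_of_ne_zero hi0
  have hjB : ¬ S j ≤ B := by
    apply Nat.find_min hex
    omega
  have := hSn j
  refine ⟨B ⊔ S j, inferInstance, ?_, sup_le hBA (hSA j), ?_⟩
  · refine lt_of_le_of_ne le_sup_left ?_
    intro h
    apply hjB
    rw [h]
    exact le_sup_right
  · intro x hx y hy
    obtain ⟨b, hb, s, hs, rfl⟩ := Subgroup.mem_sup_of_normal_left.1 hx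
    have hsy : y * s * y⁻¹ * s⁻¹ ∈ B := by
      have h1 : ⁅s, y⁆ ∈ B := by
        apply hiB
        rw [hj, hS1]
        exact Subgroup.commutator_mem_commutator hs hy
      have h2 : y * s * y⁻¹ * s⁻¹ = ⁅s, y⁆⁻¹ := by
        rw [commutatorElement_def]; group
      rw [h2]
      exact B.inv_mem h1
    have e : y * (b * s) * y⁻¹ * (b * s)⁻¹ = (y * b * y⁻¹) * (y * s * y⁻¹ * s⁻¹) * b⁻¹ := by group
    rw [e]
    exact B.mul_mem (B.mul_mem (Subgroup.Normal.conj_mem inferInstance b hb y) hsy) (B.inv_mem hb)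

/-- A class estimate. -/
lemma carrier_ncard_le [Finite G] (P B : Subgroup G) [P.Normal] [B.Normal] (b : ℕ)
    (hb : (P ⊔ Subgroup.centralizer (P : Set G)).index ≤ b) (x : G) (hx : x ∈ P)
    (h : ∀ y ∈ P, y * x * y⁻¹ * x⁻¹ ∈ B) :
    Set.ncard (ConjClasses.mk x).carrier ≤ b * Nat.card B := by
  classical
  set D := P ⊔ Subgroup.centralizer (P : Set G) with hD
  have hsub : (ConjClasses.mk x).carrier ⊆
      Set.range (fun q : (G ⧸ D) × B => q.1.out * ((q.2 : G) * x) * (q.1.out)⁻¹) := by
    intro y hy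
    have hy' : IsConj x y := by
      rw [ConjClasses.mem_carrier_iff_mk_eq] at hy
      exact (ConjClasses.mk_eq_mk_iff_isConj.1 hy).symm
    obtain ⟨g, hg⟩ := isConj_iff.1 hy'
    set q : G ⧸ D := (g : G ⧸ D) with hq
    have hd : q.out⁻¹ * g ∈ D := by
      rw [← QuotientGroup.eq]
      simp [hq]
    obtain ⟨u, hu, c, hc, huc⟩ := Subgroup.mem_sup_of_normal_left.1 hd
    have hcx : c * x * c⁻¹ = x := by
      have := Subgroup.mem_centralizer_iff.1 hc x hx
      rw [← this]; group
    have hg' : g = q.out * (u * c) := by rw [huc]; group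
    refine ⟨(q, ⟨u * x * u⁻¹ * x⁻¹, h u hu⟩), ?_⟩
    simp only
    have e : u * x * u⁻¹ * x⁻¹ * x = u * (c * x * c⁻¹) * u⁻¹ := by rw [hcx]; group
    rw [e, ← hg]
    conv_rhs => rw [hg']
    group
  calc Set.ncard (ConjClasses.mk x).carrier
      ≤ Set.ncard (Set.range (fun q : (G ⧸ D) × B =>
          q.1.out * ((q.2 : G) * x) * (q.1.out)⁻¹)) := Set.ncard_le_ncard hsub (Set.toFinite _)
    _ ≤ Nat.card ((G ⧸ D) × B) := by
        rw [← Set.image_univ, ← Set.ncard_univ]
        exact Set.ncard_image_le (Set.toFinite _)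
    _ = D.index * Nat.card B := by rw [Nat.card_prod]; rfl
    _ ≤ b * Nat.card B := Nat.mul_le_mul_right _ hb

/-- Union bound over conjugacy classes. -/
lemma ncard_le_classes [Finite G] (Y : Set G) (s k : ℕ)
    (hs : ∀ x ∈ Y, (ConjClasses.mk x).carrier.ncard ≤ s)
    (hk : (ConjClasses.mk '' Y).ncard ≤ k) : Y.ncard ≤ k * s := by
  classical
  have hY : Y.Finite := Set.toFinite _
  have h := Finset.card_le_mul_card_image (f := (ConjClasses.mk : G → ConjClasses G))
    hY.toFinset s (by
      intro c hc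
      obtain ⟨x, hx, rfl⟩ := Finset.mem_image.1 hc
      rw [Set.Finite.mem_toFinset] at hx
      refine le_trans ?_ (hs x hx)
      rw [← Set.ncard_coe_finset]
      apply Set.ncard_le_ncard _ (Set.toFinite _)
      intro y hy
      simp only [Finset.coe_filter, Set.Finite.mem_toFinset, Set.mem_ofPred_eq] at hy
      rw [ConjClasses.mem_carrier_iff_mk_eq]
      exact hy.2)
  have h1 : hY.toFinset.card = Y.ncard := (Set.ncard_eq_toFinset_card Y hY).symm
  have h2 : (hY.toFinset.image (ConjClasses.mk : G → ConjClasses G)).card =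
      (ConjClasses.mk '' Y).ncard := by
    rw [← Set.ncard_coe_finset]
    congr 1
    ext c
    simp
  rw [h1, h2] at h
  calc Y.ncard ≤ s * (ConjClasses.mk '' Y).ncard := h
    _ ≤ s * k := Nat.mul_le_mul_left _ hk
    _ = k * s := Nat.mul_comm _ _

/-- First estimate: a normal subgroup `A ≤ P` that has few classes of `G` is small. -/
lemma card_le_of_classes [Finite G] (P : Subgroup G) [P.Normal] (hP : Group.IsNilpotent P)
    (b m : ℕ) (hb : (P ⊔ Subgroup.centralizer (P : Set G)).index ≤ b)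
    (A : Subgroup G) [A.Normal] (hAP : A ≤ P) :
    ∀ k ≤ m, ∀ B : Subgroup G, B.Normal → B ≤ A →
      (ConjClasses.mk '' {x : G | x ∈ A ∧ x ∉ B}).ncard ≤ k →
      Nat.card A ≤ (1 + b * m) ^ k * Nat.card B := by
  classical
  intro k
  induction k with
  | zero =>
    intro _ B hB hBA h
    have h0 : (ConjClasses.mk '' {x : G | x ∈ A ∧ x ∉ B}) = ∅ := by
      rw [← Set.ncard_eq_zero (Set.toFinite _)]; omega
    rw [Set.image_eq_empty] at h0
    have hAB : A ≤ B := by
      intro x hx
      by_contra hxB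
      have : x ∈ {x : G | x ∈ A ∧ x ∉ B} := ⟨hx, hxB⟩
      rw [h0] at this
      exact this
    simpa using Subgroup.card_le_of_le hAB
  | succ k ih =>
    intro hkm B hB hBA h
    by_cases hne : B = A
    · subst hne
      exact Nat.le_mul_of_pos_left _ (by positivity)
    obtain ⟨B', hB'n, hlt, hB'A, hB'⟩ := exists_step P hP A B hAP hBA hne
    obtain ⟨x0, hx0, hx0B⟩ := SetLike.exists_of_lt hlt
    have hcl : (ConjClasses.mk '' {x : G | x ∈ A ∧ x ∉ B'}).ncard ≤ k := by
      have hss : (ConjClasses.mk '' {x : G | x ∈ A ∧ x ∉ B'}) ⊂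
          (ConjClasses.mk '' {x : G | x ∈ A ∧ x ∉ B}) := by
        rw [Set.ssubset_iff_of_subset]
        · refine ⟨ConjClasses.mk x0, ⟨x0, ⟨hB'A hx0, hx0B⟩, rfl⟩, ?_⟩
          rintro ⟨y, ⟨hyA, hyB'⟩, hyx⟩
          apply hyB'
          have hc : IsConj x0 y := (ConjClasses.mk_eq_mk_iff_isConj.1 hyx).symm
          obtain ⟨g, rfl⟩ := isConj_iff.1 hc
          exact hB'n.conj_mem x0 hx0 g
        · apply Set.image_mono
          intro y hy
          exact ⟨hy.1, fun hyB => hy.2 (hlt.le hyB)⟩
      have := Set.ncard_lt_ncard hss (Set.toFinite _)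
      omega
    have h1 := ih (by omega) B' hB'n hB'A hcl
    have h2 : Nat.card B' ≤ (1 + b * m) * Nat.card B := by
      have hY : {x : G | x ∈ B' ∧ x ∉ B}.ncard ≤ m * (b * Nat.card B) := by
        apply ncard_le_classes
        · intro x hx
          exact carrier_ncard_le P B b hb x (hAP (hB'A hx.1)) (fun y hy => hB' x hx.1 y hy)
        · refine le_trans (Set.ncard_le_ncard ?_ (Set.toFinite _)) (h.trans hkm)
          apply Set.image_mono
          intro y hy
          exact ⟨hB'A hy.1, hy.2⟩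
      have hun : (B' : Set G) ⊆ (B : Set G) ∪ {x : G | x ∈ B' ∧ x ∉ B} := by
        intro x hx
        by_cases hxB : x ∈ B
        · exact Or.inl hxB
        · exact Or.inr ⟨hx, hxB⟩
      calc Nat.card B' = (B' : Set G).ncard := rfl
        _ ≤ ((B : Set G) ∪ {x : G | x ∈ B' ∧ x ∉ B}).ncard :=
            Set.ncard_le_ncard hun (Set.toFinite _)
        _ ≤ (B : Set G).ncard + {x : G | x ∈ B' ∧ x ∉ B}.ncard := Set.ncard_union_le _ _
        _ ≤ Nat.card B + m * (b * Nat.card B) := Nat.add_le_add le_rfl hY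
        _ = (1 + b * m) * Nat.card B := by ring
    calc Nat.card A ≤ (1 + b * m) ^ k * Nat.card B' := h1
      _ ≤ (1 + b * m) ^ k * ((1 + b * m) * Nat.card B) := Nat.mul_le_mul_left _ h2
      _ = (1 + b * m) ^ (k + 1) * Nat.card B := by ring

/-- The auxiliary numbers in the core estimate. -/
def KB (m b : ℕ) : ℕ := (1 + b * m) ^ m

/-- The auxiliary numbers in the core estimate. -/
def XB (m b : ℕ) : ℕ :=
  2 * m * (b * KB m b) + 2 * (b * KB m b) * (KB m b) ^ (2 * (b * KB m b))

/-- The bound of the core estimate. -/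
def CB (m b : ℕ) : ℕ := KB m b * (XB m b) ^ (XB m b)

/-- **Core estimate.** -/
theorem core [Finite G] (P : Subgroup G) [hPn : P.Normal] (hP : Group.IsNilpotent P)
    (b m : ℕ) (hb : (P ⊔ Subgroup.centralizer (P : Set G)).index ≤ b)
    (hT : ∀ A : Subgroup G, A.Normal → A ≤ P → (∀ x ∈ A, ∀ y ∈ A, x * y = y * x) →
      ∃ T : Subgroup G, (∀ x ∈ T, x ∈ A → x = 1) ∧ (missing (T : Set G)).ncard ≤ m) :
    Nat.card P ≤ CB m b := by
  classical
  -- a maximal abelian normal subgroup
  obtain ⟨A, hAmax⟩ : ∃ A, Maximal (· ∈ {A : Subgroup G | A.Normal ∧ A ≤ P ∧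
      ∀ x ∈ A, ∀ y ∈ A, x * y = y * x}) A := by
    apply Set.Finite.exists_maximal (Set.toFinite _)
    refine ⟨⊥, inferInstance, bot_le, ?_⟩
    intro x hx y hy
    rw [Subgroup.mem_bot.1 hx, Subgroup.mem_bot.1 hy]
  obtain ⟨hAn, hAP, hAab⟩ := hAmax.prop
  obtain ⟨T, hTA, hTm⟩ := hT A hAn hAP hAab
  set K := KB m b with hKdef
  -- size of A
  have hclassA : ∀ x : G, x ∈ A → x ≠ 1 → ConjClasses.mk x ∈ missing (T : Set G) := by
    intro x hx hx1 t ht htx
    have hc : IsConj x t := (ConjClasses.mk_eq_mk_iff_isConj.1 htx).symm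
    obtain ⟨g, hg⟩ := isConj_iff.1 hc
    have htA : t ∈ A := by rw [← hg]; exact hAn.conj_mem x hx g
    have ht1 : t = 1 := hTA t ht htA
    rw [ht1] at hg
    apply hx1
    have : x = g⁻¹ * (g * x * g⁻¹) * g := by group
    rw [this, hg]; group
  have hAK : Nat.card A ≤ K := by
    have h := card_le_of_classes P hP b m hb A hAP m le_rfl ⊥ inferInstance bot_le (by
      refine le_trans (Set.ncard_le_ncard ?_ (Set.toFinite _)) hTm
      rintro c ⟨x, ⟨hxA, hx1⟩, rfl⟩
      exact hclassA x hxA (fun h => hx1 (by rw [h]; exact Subgroup.one_mem _)))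
    simpa [KB, hKdef] using h
  -- the subgroup E
  let E : Subgroup G :=
    { carrier := {x | x ∈ P ∧ (∀ a ∈ A, x * a = a * x) ∧ ∀ y ∈ P, y * x * y⁻¹ * x⁻¹ ∈ A}
      one_mem' := by
        refine ⟨P.one_mem, fun a _ => by simp, fun y _ => by simp⟩
      mul_mem' := by
        rintro x x' ⟨h1, h2, h3⟩ ⟨h1', h2', h3'⟩
        refine ⟨P.mul_mem h1 h1', ?_, ?_⟩
        · intro a ha
          rw [mul_assoc, h2' a ha, ← mul_assoc, h2 a ha, mul_assoc]
        · intro y hy
          have e : y * (x * x') * y⁻¹ * (x * x')⁻¹ =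
              (y * x * y⁻¹ * x⁻¹) * (x * (y * x' * y⁻¹ * x'⁻¹) * x⁻¹) := by group
          rw [e]
          exact A.mul_mem (h3 y hy) (hAn.conj_mem _ (h3' y hy) x)
      inv_mem' := by
        rintro x ⟨h1, h2, h3⟩
        refine ⟨P.inv_mem h1, ?_, ?_⟩
        · intro a ha
          have := h2 a ha
          calc x⁻¹ * a = x⁻¹ * (a * x) * x⁻¹ := by group
            _ = x⁻¹ * (x * a) * x⁻¹ := by rw [this]
            _ = a * x⁻¹ := by group
        · intro y hy
          have e : y * x⁻¹ * y⁻¹ * x⁻¹⁻¹ =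
              x⁻¹ * (x * (y * x⁻¹ * y⁻¹)) * x := by group
          rw [e]
          have h4 : x * (y * x⁻¹ * y⁻¹) ∈ A := by
            have := A.inv_mem (h3 y hy)
            have e2 : (y * x * y⁻¹ * x⁻¹)⁻¹ = x * (y * x⁻¹ * y⁻¹) := by group
            rwa [e2] at this
          exact hAn.conj_mem' _ h4 x }
  have hEmem : ∀ x, x ∈ E ↔ x ∈ P ∧ (∀ a ∈ A, x * a = a * x) ∧
      ∀ y ∈ P, y * x * y⁻¹ * x⁻¹ ∈ A := fun x => Iff.rfl
  have hEn : E.Normal := by
    constructor
    rintro x ⟨h1, h2, h3⟩ g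
    refine ⟨hPn.conj_mem x h1 g, ?_, ?_⟩
    · intro a ha
      have ha' : g⁻¹ * a * g ∈ A := hAn.conj_mem' a ha g
      have h4 := h2 _ ha'
      calc g * x * g⁻¹ * a = g * (x * (g⁻¹ * a * g)) * g⁻¹ := by group
        _ = g * ((g⁻¹ * a * g) * x) * g⁻¹ := by rw [h4]
        _ = a * (g * x * g⁻¹) := by group
    · intro y hy
      have hy' : g⁻¹ * y * g ∈ P := hPn.conj_mem' y hy g
      have h5 := hAn.conj_mem _ (h3 _ hy') g
      have e : g * (g⁻¹ * y * g * x * (g⁻¹ * y * g)⁻¹ * x⁻¹) * g⁻¹ =
          y * (g * x * g⁻¹) * y⁻¹ * (g * x * g⁻¹)⁻¹ := by group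
      rwa [e] at h5
  have hAE : A ≤ E := by
    intro x hx
    refine ⟨hAP hx, fun a ha => hAab x hx a ha, fun y _ => ?_⟩
    exact A.mul_mem (hAn.conj_mem x hx y) (A.inv_mem hx)
  have hEP : E ≤ P := fun x hx => hx.1
  -- centre of E
  have hZ : ∀ z ∈ E, (∀ e ∈ E, z * e = e * z) → z ∈ A := by
    let Z : Subgroup G := E ⊓ Subgroup.centralizer (E : Set G)
    have hZn : Z.Normal := by
      have : (Subgroup.centralizer (E : Set G)).Normal := inferInstance
      infer_instance
    have hAZ : A ≤ Z := by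
      intro a ha
      refine ⟨hAE ha, ?_⟩
      apply Subgroup.mem_centralizer_iff.2
      intro e he
      exact he.2.1 a ha
    have hZab : ∀ x ∈ Z, ∀ y ∈ Z, x * y = y * x := by
      intro x hx y hy
      exact (Subgroup.mem_centralizer_iff.1 hy.2 x hx.1)
    have hZA : Z ≤ A := hAmax.le_of_ge (y := Z) ⟨hZn, inf_le_left.trans hEP, hZab⟩ hAZ
    intro z hz hze
    apply hZA
    refine ⟨hz, Subgroup.mem_centralizer_iff.2 fun e he => (hze e he).symm⟩
  -- centraliser of E in P
  have hC : ∀ z ∈ P, (∀ e ∈ E, z * e = e * z) → z ∈ A := by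
    let D : Subgroup G := P ⊓ Subgroup.centralizer (E : Set G)
    have hDn : D.Normal := by
      have : (Subgroup.centralizer (E : Set G)).Normal := inferInstance
      infer_instance
    have hAD : A ≤ D := by
      intro a ha
      refine ⟨hAP ha, ?_⟩
      apply Subgroup.mem_centralizer_iff.2
      intro e he
      exact he.2.1 a ha
    by_cases hne : A = D
    · intro z hz hze
      rw [hne]
      exact ⟨hz, Subgroup.mem_centralizer_iff.2 fun e he => (hze e he).symm⟩
    · exfalso
      obtain ⟨B', hB'n, hlt, hB'D, hB'⟩ := exists_step P hP D A inf_le_left hAD hne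
      obtain ⟨x0, hx0, hx0A⟩ := SetLike.exists_of_lt hlt
      apply hx0A
      have hx0D := hB'D hx0
      have hx0E : x0 ∈ E := by
        refine ⟨hx0D.1, ?_, fun y hy => hB' x0 hx0 y hy⟩
        intro a ha
        exact ((Subgroup.mem_centralizer_iff.1 hx0D.2) a (hAE ha)).symm
      apply hZ x0 hx0E
      intro e he
      exact ((Subgroup.mem_centralizer_iff.1 hx0D.2) e he).symm
  -- bound for E
  set s := b * K with hs
  have hcar : ∀ x ∈ E, (ConjClasses.mk x).carrier.ncard ≤ s := by
    intro x hx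
    exact (carrier_ncard_le P A b hb x hx.1 hx.2.2).trans (Nat.mul_le_mul_left _ hAK)
  set TE : Subgroup E := T.subgroupOf E with hTE
  have hcardTE : Nat.card TE * TE.index = Nat.card E := Subgroup.card_mul_index TE
  have hcover : Nat.card E ≤ m * s + Nat.card TE * s := by
    have h1 : {x : G | x ∈ E ∧ ConjClasses.mk x ∈ missing (T : Set G)}.ncard ≤ m * s := by
      apply ncard_le_classes
      · intro x hx
        exact hcar x hx.1
      · refine le_trans (Set.ncard_le_ncard ?_ (Set.toFinite _)) hTm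
        rintro c ⟨x, hx, rfl⟩
        exact hx.2
    have h2 : {x : G | x ∈ E ∧ ConjClasses.mk x ∉ missing (T : Set G)}.ncard ≤
        Nat.card TE * s := by
      apply ncard_le_classes
      · intro x hx
        exact hcar x hx.1
      · have hsub : ConjClasses.mk '' {x : G | x ∈ E ∧ ConjClasses.mk x ∉ missing (T : Set G)} ⊆
            (fun t : TE => ConjClasses.mk ((t : E) : G)) '' Set.univ := by
          rintro c ⟨x, ⟨hxE, hx⟩, rfl⟩
          simp only [missing, Set.mem_ofPred_eq, not_forall, not_not] at hx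
          obtain ⟨t, ht, htx⟩ := hx
          have hc : IsConj x t := (ConjClasses.mk_eq_mk_iff_isConj.1 htx).symm
          obtain ⟨g, hg⟩ := isConj_iff.1 hc
          have htE : t ∈ E := by rw [← hg]; exact hEn.conj_mem x hxE g
          exact ⟨⟨⟨t, htE⟩, ht⟩, trivial, htx⟩
        refine le_trans (Set.ncard_le_ncard hsub (Set.toFinite _)) ?_
        refine (Set.ncard_image_le (Set.toFinite _)).trans ?_
        rw [Set.ncard_univ]
    have hun : (E : Set G) ⊆ {x : G | x ∈ E ∧ ConjClasses.mk x ∈ missing (T : Set G)} ∪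
        {x : G | x ∈ E ∧ ConjClasses.mk x ∉ missing (T : Set G)} := by
      intro x hx
      by_cases h : ConjClasses.mk x ∈ missing (T : Set G)
      · exact Or.inl ⟨hx, h⟩
      · exact Or.inr ⟨hx, h⟩
    calc Nat.card E = (E : Set G).ncard := rfl
      _ ≤ _ := Set.ncard_le_ncard hun (Set.toFinite _)
      _ ≤ _ := Set.ncard_union_le _ _
      _ ≤ m * s + Nat.card TE * s := Nat.add_le_add h1 h2
  have hTEcard : Nat.card TE ≤ K ^ TE.index := by
    have hcomm : ∀ t ∈ T, t ∈ E → ∀ u ∈ T, u ∈ E → t * u = u * t := by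
      intro t ht htE u hu huE
      have h1 : u * t * u⁻¹ * t⁻¹ ∈ A := htE.2.2 u huE.1
      have h2 : u * t * u⁻¹ * t⁻¹ ∈ T :=
        T.mul_mem (T.mul_mem (T.mul_mem hu ht) (T.inv_mem hu)) (T.inv_mem ht)
      have h3 := hTA _ h2 h1
      calc t * u = 1 * (t * u) := by group
        _ = (u * t * u⁻¹ * t⁻¹) * (t * u) := by rw [h3]
        _ = u * t := by group
    let f : TE → ((E ⧸ TE) → A) := fun t q =>
      ⟨((t : E) : G) * ((q.out : E) : G) * ((t : E) : G)⁻¹ * ((q.out : E) : G)⁻¹,
        (q.out : E).2.2.2 _ (hEP (t : E).2)⟩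
    have hf : Function.Injective f := by
      intro t u htu
      have h1 : ∀ q : E ⧸ TE, (((u : E) : G)⁻¹ * ((t : E) : G)) * ((q.out : E) : G) =
          ((q.out : E) : G) * (((u : E) : G)⁻¹ * ((t : E) : G)) := by
        intro q
        have h2 := congrArg Subtype.val (congrFun htu q)
        simp only [f] at h2
        have h3 : ((t : E) : G) * ((q.out : E) : G) * ((t : E) : G)⁻¹ =
            ((u : E) : G) * ((q.out : E) : G) * ((u : E) : G)⁻¹ := mul_right_cancel h2
        calc (((u : E) : G)⁻¹ * ((t : E) : G)) * ((q.out : E) : G)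
            = ((u : E) : G)⁻¹ * (((t : E) : G) * ((q.out : E) : G) * ((t : E) : G)⁻¹) *
              ((t : E) : G) := by group
          _ = ((u : E) : G)⁻¹ * (((u : E) : G) * ((q.out : E) : G) * ((u : E) : G)⁻¹) *
              ((t : E) : G) := by rw [h3]
          _ = ((q.out : E) : G) * (((u : E) : G)⁻¹ * ((t : E) : G)) := by group
      set w : G := ((u : E) : G)⁻¹ * ((t : E) : G) with hw
      have hwT : w ∈ T := T.mul_mem (T.inv_mem u.2) t.2
      have hwE : w ∈ E := E.mul_mem (E.inv_mem (u : E).2) (t : E).2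
      have hwA : w ∈ A := by
        apply hZ w hwE
        intro e he
        set q : E ⧸ TE := ((⟨e, he⟩ : E) : E ⧸ TE) with hq
        have hqe : (q.out)⁻¹ * (⟨e, he⟩ : E) ∈ TE := by
          rw [← QuotientGroup.eq]
          simp [hq]
        set r : G := ((q.out : E) : G) with hr
        have hr' : r⁻¹ * e ∈ T := hqe
        have hr'' : r⁻¹ * e ∈ E := E.mul_mem (E.inv_mem (q.out : E).2) he
        have h5 := hcomm w hwT hwE _ hr' hr''
        have h6 := h1 q
        rw [← hr] at h6
        calc w * e = (w * r) * (r⁻¹ * e) := by group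
          _ = (r * w) * (r⁻¹ * e) := by rw [h6]
          _ = r * (w * (r⁻¹ * e)) := by group
          _ = r * ((r⁻¹ * e) * w) := by rw [h5]
          _ = e * w := by group
      have hw1 : w = 1 := hTA w hwT hwA
      apply Subtype.ext
      apply Subtype.ext
      have : ((t : E) : G) = ((u : E) : G) * w := by rw [hw]; group
      rw [this, hw1, mul_one]
    have h7 := Nat.card_le_card_of_injective f hf
    rw [Nat.card_fun] at h7
    calc Nat.card TE ≤ Nat.card A ^ Nat.card (E ⧸ TE) := h7
      _ = Nat.card A ^ TE.index := rfl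
      _ ≤ K ^ TE.index := Nat.pow_le_pow_left hAK _
  have hK1 : 1 ≤ K := Nat.card_pos.trans_le hAK
  have hEX : Nat.card E ≤ XB m b := by
    have hX : XB m b = 2 * m * s + 2 * s * K ^ (2 * s) := rfl
    rw [hX]
    by_cases hc : TE.index ≤ 2 * s
    · have h1 : Nat.card E ≤ K ^ (2 * s) * (2 * s) := by
        rw [← hcardTE]
        exact Nat.mul_le_mul (hTEcard.trans (Nat.pow_le_pow_right hK1 hc)) hc
      nlinarith [Nat.zero_le (2 * m * s)]
    · push Not at hc
      have h2 : Nat.card TE * (2 * s) ≤ Nat.card E := by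
        rw [← hcardTE]
        exact Nat.mul_le_mul_left _ hc.le
      have h3 : Nat.card E ≤ 2 * m * s := by nlinarith
      exact h3.trans (Nat.le_add_right _ _)
  -- conclusion
  let φ : P →* MulAut E := (MulAut.conjNormal (H := E)).comp P.subtype
  have hker : Nat.card φ.ker ≤ K := by
    refine le_trans ?_ hAK
    apply Nat.card_le_card_of_injective (fun x : φ.ker => (⟨((x : P) : G), by
      have hx : φ (x : P) = 1 := x.2
      apply hC _ (x : P).2
      intro e he
      have h1 := congrArg (fun ψ : MulAut E => ((ψ ⟨e, he⟩ : E) : G)) hx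
      simp only [φ, MonoidHom.comp_apply, Subgroup.coe_subtype, MulAut.conjNormal_apply,
        MulAut.one_apply] at h1
      calc ((x : P) : G) * e = (((x : P) : G) * e * ((x : P) : G)⁻¹) * ((x : P) : G) := by group
        _ = e * ((x : P) : G) := by rw [h1]⟩ : A))
    intro x y hxy
    apply Subtype.ext
    apply Subtype.ext
    exact congrArg (fun a : A => (a : G)) hxy
  have hidx : φ.ker.index ≤ XB m b ^ XB m b := by
    rw [Subgroup.index_ker]
    have h1 : Nat.card φ.range ≤ Nat.card (E → E) := by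
      apply Nat.card_le_card_of_injective (fun ψ : φ.range => fun e : E => (ψ : MulAut E) e)
      intro ψ χ h
      apply Subtype.ext
      apply MulEquiv.ext
      intro e
      exact congrFun h e
    rw [Nat.card_fun] at h1
    refine h1.trans ?_
    calc Nat.card E ^ Nat.card E ≤ (XB m b) ^ Nat.card E := Nat.pow_le_pow_left hEX _
      _ ≤ (XB m b) ^ (XB m b) :=
        Nat.pow_le_pow_right (Nat.card_pos.trans_le hEX) hEX
  calc Nat.card P = Nat.card φ.ker * φ.ker.index := (Subgroup.card_mul_index _).symm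
    _ ≤ K * (XB m b ^ XB m b) := Nat.mul_le_mul hker hidx
    _ = CB m b := rfl

end Pool.Agent.helper7.Fit
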