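import Pool.Agent.helper7.Fit.ChiefMod
import Pool.Agent.helper7.Fit.Core

/-!
The critical chief factor.
-/

universe u

namespace Pool.Agent.helper7.Fit

open scoped commutatorElement

/-- The critical chief factor. -/
theorem critical {Γ : Type u} [Group Γ] [Finite Γ] (p : ℕ) [hp : Fact p.Prime]
    (D P : Subgroup Γ) [hDn : D.Normal] [hPn : P.Normal] (hP : IsPGroup p P)
    (hex : ∃ g ∈ D, p.Coprime (orderOf g) ∧ ∃ x ∈ P, g * x ≠ x * g) :
    ∃ M N : Subgroup Γ, M.Normal ∧ N.Normal ∧ M ≤ P ∧ N < M ∧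
      (∀ a ∈ M, ∀ b ∈ M, ∀ c ∈ M, ⁅a, b⁆ * c = c * ⁅a, b⁆) ∧
      (∀ x ∈ N, ∀ y ∈ M, x * y = y * x) ∧
      (∀ x ∈ M, ∀ y ∈ M, ⁅x, y⁆ ∈ N) ∧
      (∀ K : Subgroup Γ, K.Normal → N ≤ K → K ≤ M → K = N ∨ K = M) ∧
      ¬ (∀ g ∈ D, ∀ x ∈ M, g * x * g⁻¹ * x⁻¹ ∈ N) := by
  classical
  obtain ⟨M, hM⟩ : ∃ M, Minimal (· ∈ {N : Subgroup Γ | N.Normal ∧ N ≤ P ∧
      ∃ g ∈ D, p.Coprime (orderOf g) ∧ ∃ x ∈ N, g * x ≠ x * g}) M :=
    Set.Finite.exists_minimal (Set.toFinite _) ⟨P, hPn, le_rfl, hex⟩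
  obtain ⟨hMn, hMP, g0, hg0, hcop0, x0, hx0, hne0⟩ := hM.prop
  have hprop : ∀ N : Subgroup Γ, N.Normal → N < M → ∀ g ∈ D, p.Coprime (orderOf g) →
      ∀ x ∈ N, g * x = x * g := by
    intro N hN hNM g hg hcop x hx
    by_contra hne
    exact hNM.not_ge (hM.le_of_le ⟨hN, hNM.le.trans hMP, g, hg, hcop, x, hx, hne⟩ hNM.le)
  let D0 : Subgroup Γ := Subgroup.closure {g | g ∈ D ∧ p.Coprime (orderOf g)}
  have hD0n : D0.Normal := by
    constructor
    intro n hn g
    have h1 : D0 ≤ D0.comap (MulAut.conj g).toMonoidHom := by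
      rw [Subgroup.closure_le]
      intro h hh
      apply Subgroup.subset_closure
      refine ⟨hDn.conj_mem h hh.1 g, ?_⟩
      have h2 : orderOf (MulAut.conj g h) = orderOf h := MulEquiv.orderOf_eq (MulAut.conj g) h
      change p.Coprime (orderOf (MulAut.conj g h))
      rw [h2]
      exact hh.2
    exact h1 hn
  have hD0D : D0 ≤ D := by
    rw [Subgroup.closure_le]
    exact fun g hg => hg.1
  have hDcent : ∀ N : Subgroup Γ, N.Normal → N < M → D0 ≤ Subgroup.centralizer (N : Set Γ) := by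
    intro N hN hNM
    rw [Subgroup.closure_le]
    intro g hg
    rw [SetLike.mem_coe, Subgroup.mem_centralizer_iff]
    intro x hx
    exact (hprop N hN hNM g hg.1 hg.2 x hx).symm
  -- M = [M, D0]
  have hMD : ⁅M, D0⁆ = M := by
    by_contra hne
    have hle : ⁅M, D0⁆ ≤ M := Subgroup.commutator_le_left M D0
    have hlt : ⁅M, D0⁆ < M := lt_of_le_of_ne hle hne
    apply hne0
    have hc : ⁅x0, g0⁆ ∈ ⁅M, D0⁆ :=
      Subgroup.commutator_mem_commutator hx0 (Subgroup.subset_closure ⟨hg0, hcop0⟩)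
    have hcg : Commute ⁅x0, g0⁆ g0 :=
      (hprop _ (Subgroup.commutator_normal M D0) hlt g0 hg0 hcop0 _ hc).symm
    have h1 : (⁅x0, g0⁆ * g0) ^ (orderOf g0) = 1 := by
      have h2 : ⁅x0, g0⁆ * g0 = x0 * g0 * x0⁻¹ := by rw [commutatorElement_def]; group
      rw [h2, conj_pow, pow_orderOf_eq_one, mul_one, mul_inv_cancel]
    rw [hcg.mul_pow, pow_orderOf_eq_one, mul_one] at h1
    have h2 : orderOf ⁅x0, g0⁆ ∣ orderOf g0 := orderOf_dvd_of_pow_eq_one h1
    obtain ⟨j, hj⟩ := (IsPGroup.iff_orderOf.1 hP) ⟨⁅x0, g0⁆, hMP (hle hc)⟩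
    rw [Subgroup.orderOf_mk] at hj
    have h3 : orderOf ⁅x0, g0⁆ = 1 := by
      apply Nat.eq_one_of_dvd_coprimes (Nat.Coprime.pow_left j hcop0) _ h2
      rw [hj]
    rw [orderOf_eq_one_iff, commutatorElement_eq_one_iff_mul_comm] at h3
    exact h3.symm
  -- proper normal subgroups are central in M
  have hcentral : ∀ N : Subgroup Γ, N.Normal → N < M → ∀ x ∈ N, ∀ y ∈ M, x * y = y * x := by
    intro N hN hNM x hx y hy
    have h1 : ⁅⁅M, D0⁆, N⁆ = ⊥ := by
      apply Subgroup.commutator_commutator_eq_bot_of_rotate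
      · have h2 : ⁅D0, N⁆ = ⊥ := by
          rw [Subgroup.commutator_eq_bot_iff_le_centralizer]
          exact hDcent N hN hNM
        rw [h2, Subgroup.commutator_bot_left]
      · have h2 : ⁅N, M⁆ ≤ N := Subgroup.commutator_le_left N M
        rw [Subgroup.commutator_comm, Subgroup.commutator_eq_bot_iff_le_centralizer]
        exact (hDcent N hN hNM).trans (Subgroup.centralizer_le h2)
    rw [hMD, Subgroup.commutator_eq_bot_iff_le_centralizer] at h1
    exact (Subgroup.mem_centralizer_iff.1 (h1 hy) x hx)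
  -- the derived subgroup is proper
  have hMP' : IsPGroup p M := hP.to_le hMP
  have hMnil : Group.IsNilpotent M := hMP'.isNilpotent
  have hMsolv : Group.IsSolvable M := inferInstance
  have hlt : ⁅M, M⁆ < M := by
    apply lt_of_le_of_ne (Subgroup.commutator_le_left M M)
    intro h
    obtain ⟨k, hk⟩ := exists_dser_eq_bot M
    have h1 : ∀ k, dser M k = M := by
      intro k
      induction k with
      | zero => rfl
      | succ k ih => rw [dser_succ, ih, h]
    rw [h1 k] at hk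
    rw [hk, Subgroup.mem_bot] at hx0
    apply hne0
    rw [hx0, mul_one, one_mul]
  obtain ⟨N, hN⟩ : ∃ N, Maximal (· ∈ {K : Subgroup Γ | K.Normal ∧ ⁅M, M⁆ ≤ K ∧ K < M}) N :=
    Set.Finite.exists_maximal (Set.toFinite _)
      ⟨⁅M, M⁆, Subgroup.commutator_normal M M, le_rfl, hlt⟩
  refine ⟨M, N, hMn, hN.prop.1, hMP, hN.prop.2.2, ?_, ?_, ?_, ?_, ?_⟩
  · intro a ha b hb c hc
    exact hcentral _ (Subgroup.commutator_normal M M) hlt _
      (Subgroup.commutator_mem_commutator ha hb) c hc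
  · exact hcentral N hN.prop.1 hN.prop.2.2
  · intro x hx y hy
    exact hN.prop.2.1 (Subgroup.commutator_mem_commutator hx hy)
  · intro K hK hNK hKM
    by_cases h : K = M
    · exact Or.inr h
    · left
      exact (hN.eq_of_le ⟨hK, hN.prop.2.1.trans hNK, lt_of_le_of_ne hKM h⟩ hNK).symm
  · intro h
    apply hN.prop.2.2.not_ge
    rw [← hMD, Subgroup.commutator_comm, Subgroup.commutator_le]
    intro g hg x hx
    rw [commutatorElement_def]
    exact h g (hD0D hg) x hx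

end Pool.Agent.helper7.Fit
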