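import Pool.Agent.helper7.Fit.Fitting

/-!
Derived series of a subgroup inside the ambient group, and counting lemmas.
-/

universe u

namespace Pool.Agent.helper7.Fit

open scoped commutatorElement

variable {G : Type*} [Group G]

/-- The derived series of a subgroup, as subgroups of the ambient group. -/
def dser (Y : Subgroup G) : ℕ → Subgroup G
  | 0 => Y
  | k + 1 => ⁅dser Y k, dser Y k⁆

lemma dser_zero (Y : Subgroup G) : dser Y 0 = Y := rfl

lemma dser_succ (Y : Subgroup G) (k : ℕ) : dser Y (k + 1) = ⁅dser Y k, dser Y k⁆ := rfl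

lemma dser_normal (Y : Subgroup G) [hY : Y.Normal] (k : ℕ) : (dser Y k).Normal := by
  induction k with
  | zero => exact hY
  | succ k ih => exact Subgroup.commutator_normal _ _

lemma dser_mono {Y Z : Subgroup G} (h : Y ≤ Z) (k : ℕ) : dser Y k ≤ dser Z k := by
  induction k with
  | zero => exact h
  | succ k ih => exact Subgroup.commutator_mono ih ih

lemma dser_le (Y : Subgroup G) (k : ℕ) : dser Y k ≤ Y := by
  induction k with
  | zero => exact le_rfl
  | succ k ih =>
    rw [dser_succ, Subgroup.commutator_le]
    intro a ha b hb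
    exact Y.mul_mem (Y.mul_mem (Y.mul_mem (ih ha) (ih hb)) (Y.inv_mem (ih ha)))
      (Y.inv_mem (ih hb))

lemma dser_add (Y : Subgroup G) (j k : ℕ) : dser Y (j + k) = dser (dser Y j) k := by
  induction k with
  | zero => rfl
  | succ k ih => rw [← add_assoc, dser_succ, dser_succ, ih]

lemma dser_antitone (Y : Subgroup G) {j k : ℕ} (h : j ≤ k) : dser Y k ≤ dser Y j := by
  obtain ⟨i, rfl⟩ := Nat.exists_eq_add_of_le h
  rw [dser_add]
  exact dser_le _ _

lemma map_dser {H : Type*} [Group H] (f : G →* H) (Y : Subgroup G) (k : ℕ) :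
    (dser Y k).map f = dser (Y.map f) k := by
  induction k with
  | zero => rfl
  | succ k ih => rw [dser_succ, dser_succ, Subgroup.map_commutator, ih]

lemma dser_eq_map (Y : Subgroup G) (k : ℕ) : dser Y k = (derivedSeries Y k).map Y.subtype := by
  induction k with
  | zero =>
    rw [dser_zero, derivedSeries_zero, ← MonoidHom.range_eq_map, Subgroup.range_subtype]
  | succ k ih => rw [dser_succ, derivedSeries_succ, Subgroup.map_commutator, ih]

lemma exists_dser_eq_bot (Y : Subgroup G) [hY : Group.IsSolvable Y] : ∃ k, dser Y k = ⊥ := by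
  obtain ⟨k, hk⟩ := hY.solvable
  exact ⟨k, by rw [dser_eq_map, hk, Subgroup.map_bot]⟩

/-- A finite solvable group of order at most `k` has trivial `k`-th derived subgroup. -/
lemma derivedSeries_eq_bot_of_card_le (H : Type*) [Group H] [Finite H] [Group.IsSolvable H] (k : ℕ)
    (hk : Nat.card H ≤ k) : derivedSeries H k = ⊥ := by
  by_contra hne
  have hanti : ∀ i ≤ k, derivedSeries H i ≠ ⊥ := by
    intro i hi h
    apply hne
    rw [eq_bot_iff, ← h]
    exact derivedSeries_antitone H hi
  have hcard : ∀ i ≤ k, Nat.card (derivedSeries H i) + i ≤ Nat.card H := by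
    intro i
    induction i with
    | zero => intro _; simp
    | succ i ih =>
      intro hi
      have h1 := ih (by omega)
      have h2 : derivedSeries H (i + 1) < derivedSeries H i := by
        rw [derivedSeries_succ]
        exact Group.IsSolvable.commutator_lt_of_ne_bot (hanti i (by omega))
      have h3 : Nat.card (derivedSeries H (i + 1)) < Nat.card (derivedSeries H i) := by
        have := Set.ncard_lt_ncard (s := (derivedSeries H (i + 1) : Set H))
          (t := (derivedSeries H i : Set H)) h2 (Set.toFinite _)
        exact this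
      omega
  have h1 := hcard k le_rfl
  have h2 : 0 < Nat.card (derivedSeries H k) := Nat.card_pos
  omega

lemma dser_eq_bot_of_card_le (Y : Subgroup G) [Finite Y] [Group.IsSolvable Y] (k : ℕ)
    (hk : Nat.card Y ≤ k) : dser Y k = ⊥ := by
  rw [dser_eq_map, derivedSeries_eq_bot_of_card_le Y k hk, Subgroup.map_bot]

/-- A solvable subgroup lies in a normal subgroup of index at most `k` after `k` steps. -/
lemma dser_le_of_index_le [Finite G] (Y : Subgroup G) [Group.IsSolvable Y] (N : Subgroup G) [N.Normal]
    (k : ℕ) (hk : N.index ≤ k) : dser Y k ≤ N := by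
  have h1 : dser (Y.map (QuotientGroup.mk' N)) k = ⊥ := by
    have : Group.IsSolvable (Y.map (QuotientGroup.mk' N)) :=
      Group.isSolvable_of_surjective ((QuotientGroup.mk' N).subgroupMap_surjective Y)
    apply dser_eq_bot_of_card_le
    refine le_trans ?_ hk
    exact Subgroup.card_le_card_group _
  rw [← map_dser] at h1
  intro x hx
  have h2 : QuotientGroup.mk' N x ∈ (dser Y k).map (QuotientGroup.mk' N) :=
    Subgroup.mem_map_of_mem _ hx
  rw [h1, Subgroup.mem_bot] at h2
  exact (QuotientGroup.eq_one_iff x).1 h2

/-- If every normal subgroup `Y₁ ≤ Y` of `G` with `[Y₁,Y₁] ≤ B` lies in `B`, then `Y ≤ B`. -/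
lemma le_of_solvable (Y B : Subgroup G) [Y.Normal] [Group.IsSolvable Y]
    (h : ∀ Y1 : Subgroup G, Y1.Normal → Y1 ≤ Y → ⁅Y1, Y1⁆ ≤ B → Y1 ≤ B) : Y ≤ B := by
  classical
  obtain ⟨k, hk⟩ := exists_dser_eq_bot Y
  have hex : ∃ k, dser Y k ≤ B := ⟨k, by rw [hk]; exact bot_le⟩
  set i := Nat.find hex with hi
  have hiB : dser Y i ≤ B := Nat.find_spec hex
  by_cases hi0 : i = 0
  · rw [hi0] at hiB
    exact hiB
  · exfalso
    obtain ⟨j, hj⟩ := Nat.exists_eq_succ_of_ne_zero hi0
    have hjB : ¬ dser Y j ≤ B := by
      apply Nat.find_min hex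
      omega
    apply hjB
    apply h (dser Y j) (dser_normal Y j) (dser_le Y j)
    rw [← dser_succ]
    rw [hj] at hiB
    exact hiB

/-- Counting: a function that separates cosets. -/
lemma card_le_of_separates {S : Type*} [Finite G] [Finite S] (C D : Subgroup G) (hDC : D ≤ C)
    (f : C → S) (hf : ∀ c c' : C, f c = f c' → (c : G)⁻¹ * c' ∈ D) :
    Nat.card C ≤ Nat.card D * Nat.card S := by
  classical
  have h1 : Nat.card C = Nat.card (D.subgroupOf C) * (D.subgroupOf C).index :=
    (Subgroup.card_mul_index _).symm
  have h2 : Nat.card (D.subgroupOf C) = Nat.card D :=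
    Nat.card_congr (Subgroup.subgroupOfEquivOfLe hDC).toEquiv
  have h3 : (D.subgroupOf C).index ≤ Nat.card S := by
    apply Nat.card_le_card_of_injective (fun q : C ⧸ D.subgroupOf C => f q.out)
    intro q q' hqq
    have h4 := hf _ _ hqq
    rw [← QuotientGroup.out_eq' q, ← QuotientGroup.out_eq' q']
    rw [QuotientGroup.eq]
    exact h4
  rw [h1, h2]
  exact Nat.mul_le_mul_left _ h3

/-- Generators modulo a subgroup. -/
lemma exists_generators [Finite G] : ∀ (n : ℕ) (B : Subgroup G), B.index ≤ n →
    ∃ S : Finset G, Subgroup.closure (S : Set G) ⊔ B = ⊤ ∧ 2 ^ S.card ≤ B.index := by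
  classical
  intro n
  induction n with
  | zero =>
    intro B hB
    have : B.index ≠ 0 := Subgroup.index_ne_zero_of_finite
    omega
  | succ n ih =>
    intro B hB
    by_cases hBt : B = ⊤
    · refine ⟨∅, by simp [hBt], ?_⟩
      rw [hBt]
      simp
    · obtain ⟨e, he⟩ : ∃ e : G, e ∉ B := by
        by_contra h
        push Not at h
        exact hBt ((Subgroup.eq_top_iff' B).2 h)
      set B' := B ⊔ Subgroup.closure {e} with hB'
      have hlt : B < B' := by
        refine lt_of_le_of_ne le_sup_left ?_
        intro h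
        apply he
        rw [h]
        exact (le_sup_right : Subgroup.closure {e} ≤ B') (Subgroup.subset_closure rfl)
      have hidx : 2 * B'.index ≤ B.index := by
        have h1 : B.relIndex B' * B'.index = B.index := Subgroup.relIndex_mul_index hlt.le
        have h2 : B.relIndex B' ≠ 1 := by
          intro h
          rw [Subgroup.relIndex_eq_one] at h
          exact absurd (le_antisymm hlt.le h) hlt.ne
        have h3 : B.relIndex B' ≠ 0 := by
          intro h
          rw [h, zero_mul] at h1
          exact Subgroup.index_ne_zero_of_finite h1.symm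
        have h4 : 2 ≤ B.relIndex B' := by omega
        rw [← h1]
        exact Nat.mul_le_mul_right _ h4
      have hB'0 : B'.index ≠ 0 := Subgroup.index_ne_zero_of_finite
      obtain ⟨S, hS1, hS2⟩ := ih B' (by omega)
      refine ⟨insert e S, ?_, ?_⟩
      · rw [eq_top_iff, ← hS1]
        apply sup_le
        · refine le_trans ?_ le_sup_left
          apply Subgroup.closure_mono
          intro x hx
          exact Finset.mem_coe.2 (Finset.mem_insert_of_mem (Finset.mem_coe.1 hx))
        · apply sup_le le_sup_right
          refine le_trans ?_ le_sup_left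
          apply Subgroup.closure_mono
          intro x hx
          rw [Set.mem_singleton_iff] at hx
          rw [hx]
          exact Finset.mem_coe.2 (Finset.mem_insert_self _ _)
      · calc 2 ^ (insert e S).card ≤ 2 ^ (S.card + 1) :=
            Nat.pow_le_pow_right (by norm_num) (Finset.card_insert_le _ _)
          _ = 2 * 2 ^ S.card := by rw [pow_succ, mul_comm]
          _ ≤ 2 * B'.index := Nat.mul_le_mul_left _ hS2
          _ ≤ B.index := hidx

end Pool.Agent.helper7.Fit
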