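import Mathlib

/-!
Definitions for the problem on zeros in rows of character tables and the Fitting subgroup.
-/

universe u

namespace Pool.Agent.helper7.Fit

/-- The conjugacy classes of `G` on which the character of the representation `ρ` vanishes. -/
def zeroClasses {G V : Type*} [Group G] [AddCommGroup V] [Module ℂ V]
    (ρ : Representation ℂ G V) : Set (ConjClasses G) :=
  {c | ∀ g : G, ConjClasses.mk g = c → ρ.character g = 0}

/-- `m(G)`: the largest number of zero entries in a row of the character table of `G`, i.e. the
largest number of conjugacy classes on which an irreducible complex character of `G` vanishes. -/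
noncomputable def maxZeros (G : Type u) [Group G] : ℕ :=
  sSup {k : ℕ | ∃ (V : Type u) (_ : AddCommGroup V) (_ : Module ℂ V) (_ : FiniteDimensional ℂ V)
    (ρ : Representation ℂ G V), ρ.IsIrreducible ∧ k = (zeroClasses ρ).ncard}

/-- The Fitting subgroup: the subgroup generated by all normal nilpotent subgroups (for finite `G`
it is the largest normal nilpotent subgroup of `G`). -/
def fitting (G : Type*) [Group G] : Subgroup G :=
  sSup {N : Subgroup G | N.Normal ∧ Group.IsNilpotent N}

instance fitting_normal (G : Type*) [Group G] : (fitting G).Normal := by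
  unfold fitting
  constructor
  intro n hn g
  have h : (sSup {N : Subgroup G | N.Normal ∧ Group.IsNilpotent N}) ≤
      (sSup {N : Subgroup G | N.Normal ∧ Group.IsNilpotent N}).comap (MulAut.conj g).toMonoidHom := by
    apply sSup_le
    intro N hN x hx
    rw [Subgroup.mem_comap]
    have hx' : g * x * g⁻¹ ∈ N := hN.1.conj_mem x hx g
    exact (le_sSup hN : N ≤ _) hx'
  exact h hn

/-- The Fitting series, `F₀ = 1` and `F_{i+1}/F_i = F(G/F_i)`, together with the normality of its
terms. -/
def fittingSeriesAux (G : Type*) [Group G] : ℕ → {N : Subgroup G // N.Normal}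
  | 0 => ⟨⊥, inferInstance⟩
  | i + 1 =>
    letI := (fittingSeriesAux G i).2
    ⟨(fitting (G ⧸ (fittingSeriesAux G i).1)).comap
      (QuotientGroup.mk' (fittingSeriesAux G i).1), inferInstance⟩

/-- The `i`-th term `F_i(G)` of the Fitting series. -/
def fittingSeries (G : Type*) [Group G] (i : ℕ) : Subgroup G := (fittingSeriesAux G i).1

instance fittingSeries_normal (G : Type*) [Group G] (i : ℕ) : (fittingSeries G i).Normal :=
  (fittingSeriesAux G i).2

theorem fittingSeries_zero (G : Type*) [Group G] : fittingSeries G 0 = ⊥ := rfl

theorem fittingSeries_succ (G : Type*) [Group G] (i : ℕ) :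
    fittingSeries G (i + 1) = (fitting (G ⧸ fittingSeries G i)).comap
      (QuotientGroup.mk' (fittingSeries G i)) := rfl

end Pool.Agent.helper7.Fit
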