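import Pool.Agent.helper7.Fit.DSer

/-!
Group theoretic part of the estimate for solvable linear groups with few orbits.
-/

universe u

namespace Pool.Agent.helper7.Fit

open scoped commutatorElement Nat

/-- The subgroup `E` attached to a maximal abelian normal subgroup `A` of a normal nilpotent
subgroup `P`. -/
theorem exists_E {G : Type*} [Group G] (P : Subgroup G) [hPn : P.Normal]
    (hP : Group.IsNilpotent P) (A : Subgroup G)
    (hAmax : Maximal (· ∈ {A : Subgroup G | A.Normal ∧ A ≤ P ∧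
      ∀ x ∈ A, ∀ y ∈ A, x * y = y * x}) A) :
    ∃ E : Subgroup G, E.Normal ∧ A ≤ E ∧ E ≤ P ∧ (∀ x ∈ E, ∀ a ∈ A, x * a = a * x) ∧
      (∀ x ∈ E, ∀ y ∈ P, y * x * y⁻¹ * x⁻¹ ∈ A) ∧
      (∀ z ∈ E, (∀ e ∈ E, z * e = e * z) → z ∈ A) ∧
      (∀ z ∈ P, (∀ e ∈ E, z * e = e * z) → z ∈ A) := by
  classical
  obtain ⟨hAn, hAP, hAab⟩ := hAmax.prop
  -- the subgroup E
  let E : Subgroup G :=
    { carrier := {x | x ∈ P ∧ (∀ a ∈ A, x * a = a * x) ∧ ∀ y ∈ P, y * x * y⁻¹ * x⁻¹ ∈ A}
      one_mem' := by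
        refine ⟨P.one_mem, fun a _ => by simp, fun y _ => by simp⟩
      mul_mem' := by
        rintro x x' ⟨h1, h2, h3⟩ ⟨h1', h2', h3'⟩
        refine ⟨P.mul_mem h1 h1', ?_, ?_⟩
        · intro a ha
          rw [mul_assoc, h2' a ha, ← mul_assoc, h2 a ha, mul_assoc]
        · intro y hy
          have e : y * (x * x') * y⁻¹ * (x * x')⁻¹ =
              (y * x * y⁻¹ * x⁻¹) * (x * (y * x' * y⁻¹ * x'⁻¹) * x⁻¹) := by group
          rw [e]
          exact A.mul_mem (h3 y hy) (hAn.conj_mem _ (h3' y hy) x)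
      inv_mem' := by
        rintro x ⟨h1, h2, h3⟩
        refine ⟨P.inv_mem h1, ?_, ?_⟩
        · intro a ha
          have := h2 a ha
          calc x⁻¹ * a = x⁻¹ * (a * x) * x⁻¹ := by group
            _ = x⁻¹ * (x * a) * x⁻¹ := by rw [this]
            _ = a * x⁻¹ := by group
        · intro y hy
          have e : y * x⁻¹ * y⁻¹ * x⁻¹⁻¹ =
              x⁻¹ * (x * (y * x⁻¹ * y⁻¹)) * x := by group
          rw [e]
          have h4 : x * (y * x⁻¹ * y⁻¹) ∈ A := by
            have := A.inv_mem (h3 y hy)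
            have e2 : (y * x * y⁻¹ * x⁻¹)⁻¹ = x * (y * x⁻¹ * y⁻¹) := by group
            rwa [e2] at this
          exact hAn.conj_mem' _ h4 x }
  have hEmem : ∀ x, x ∈ E ↔ x ∈ P ∧ (∀ a ∈ A, x * a = a * x) ∧
      ∀ y ∈ P, y * x * y⁻¹ * x⁻¹ ∈ A := fun x => Iff.rfl
  have hEn : E.Normal := by
    constructor
    rintro x ⟨h1, h2, h3⟩ g
    refine ⟨hPn.conj_mem x h1 g, ?_, ?_⟩
    · intro a ha
      have ha' : g⁻¹ * a * g ∈ A := hAn.conj_mem' a ha g
      have h4 := h2 _ ha'
      calc g * x * g⁻¹ * a = g * (x * (g⁻¹ * a * g)) * g⁻¹ := by group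
        _ = g * ((g⁻¹ * a * g) * x) * g⁻¹ := by rw [h4]
        _ = a * (g * x * g⁻¹) := by group
    · intro y hy
      have hy' : g⁻¹ * y * g ∈ P := hPn.conj_mem' y hy g
      have h5 := hAn.conj_mem _ (h3 _ hy') g
      have e : g * (g⁻¹ * y * g * x * (g⁻¹ * y * g)⁻¹ * x⁻¹) * g⁻¹ =
          y * (g * x * g⁻¹) * y⁻¹ * (g * x * g⁻¹)⁻¹ := by group
      rwa [e] at h5
  have hAE : A ≤ E := by
    intro x hx
    refine ⟨hAP hx, fun a ha => hAab x hx a ha, fun y _ => ?_⟩
    exact A.mul_mem (hAn.conj_mem x hx y) (A.inv_mem hx)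
  have hEP : E ≤ P := fun x hx => hx.1
  -- centre of E
  have hZ : ∀ z ∈ E, (∀ e ∈ E, z * e = e * z) → z ∈ A := by
    let Z : Subgroup G := E ⊓ Subgroup.centralizer (E : Set G)
    have hZn : Z.Normal := by
      have : (Subgroup.centralizer (E : Set G)).Normal := inferInstance
      infer_instance
    have hAZ : A ≤ Z := by
      intro a ha
      refine ⟨hAE ha, ?_⟩
      apply Subgroup.mem_centralizer_iff.2
      intro e he
      exact he.2.1 a ha
    have hZab : ∀ x ∈ Z, ∀ y ∈ Z, x * y = y * x := by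
      intro x hx y hy
      exact (Subgroup.mem_centralizer_iff.1 hy.2 x hx.1)
    have hZA : Z ≤ A := hAmax.le_of_ge (y := Z) ⟨hZn, inf_le_left.trans hEP, hZab⟩ hAZ
    intro z hz hze
    apply hZA
    refine ⟨hz, Subgroup.mem_centralizer_iff.2 fun e he => (hze e he).symm⟩
  -- centraliser of E in P
  have hC : ∀ z ∈ P, (∀ e ∈ E, z * e = e * z) → z ∈ A := by
    let D : Subgroup G := P ⊓ Subgroup.centralizer (E : Set G)
    have hDn : D.Normal := by
      have : (Subgroup.centralizer (E : Set G)).Normal := inferInstance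
      infer_instance
    have hAD : A ≤ D := by
      intro a ha
      refine ⟨hAP ha, ?_⟩
      apply Subgroup.mem_centralizer_iff.2
      intro e he
      exact he.2.1 a ha
    by_cases hne : A = D
    · intro z hz hze
      rw [hne]
      exact ⟨hz, Subgroup.mem_centralizer_iff.2 fun e he => (hze e he).symm⟩
    · exfalso
      obtain ⟨B', hB'n, hlt, hB'D, hB'⟩ := exists_step P hP D A inf_le_left hAD hne
      obtain ⟨x0, hx0, hx0A⟩ := SetLike.exists_of_lt hlt
      apply hx0A
      have hx0D := hB'D hx0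
      have hx0E : x0 ∈ E := by
        refine ⟨hx0D.1, ?_, fun y hy => hB' x0 hx0 y hy⟩
        intro a ha
        exact ((Subgroup.mem_centralizer_iff.1 hx0D.2) a (hAE ha)).symm
      apply hZ x0 hx0E
      intro e he
      exact ((Subgroup.mem_centralizer_iff.1 hx0D.2) e he).symm
  exact ⟨E, hEn, hAE, hEP, fun x hx => hx.2.1, fun x hx => hx.2.2, hZ, hC⟩

/-- **Group theoretic part.** -/
theorem group_part {X : Type u} [Group X] [Finite X] (R : Subgroup X) [hRn : R.Normal]
    [hRs : Group.IsSolvable R] (B : Subgroup X)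
    (hBmax : Maximal (· ∈ {A : Subgroup X | A.Normal ∧ A ≤ R ∧
      ∀ x ∈ A, ∀ y ∈ A, x * y = y * x}) B)
    (n Q d : ℕ) (X0 : Subgroup X) [X0.Normal] (hX0 : X0.index ≤ n !)
    (hcomm : ∀ x ∈ X0, ∀ y ∈ X0, ⁅x, y⁆ ∈ Subgroup.centralizer (B : Set X))
    (hlog : ∀ R0 : Subgroup X, R0 ≤ X0 →
      Nat.card R0 ≤ Nat.card (R0 ⊓ Subgroup.centralizer (B : Set X) : Subgroup X) *
        (Nat.log 2 Q) ^ n)
    (hBQ : Nat.card B ≤ Q ^ n)
    (hBw : ∀ w ≥ 1, {b : X | b ∈ B ∧ b ^ w = 1}.ncard ≤ w ^ n)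
    (hE : ∀ E : Subgroup X, B ≤ E → E ≤ Subgroup.centralizer (B : Set X) →
      (∀ e ∈ E, ∀ f ∈ E, ⁅e, f⁆ ∈ B) → (∀ e ∈ E, (∀ f ∈ E, e * f = f * e) → e ∈ B) →
      Nat.card E ≤ Nat.card B * (d ^ 2) ^ n) :
    (d = 1 → dser R (n ! + 2) = ⊥) ∧
    (∃ w g : ℕ, 2 ^ g ≤ w ∧ w ≤ (d ^ 2) ^ n ∧
      Nat.card R ≤ n ! * ((Nat.log 2 Q) ^ n * (Q ^ n * w ^ ((n + 1) * g)))) := by
  classical
  obtain ⟨hBn, hBR, hBab⟩ := hBmax.prop
  have hCBn : (Subgroup.centralizer (B : Set X)).Normal := inferInstance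
  set C : Subgroup X := R ⊓ Subgroup.centralizer (B : Set X) with hCdef
  have hCn : C.Normal := inferInstance
  have hBC : B ≤ C := fun b hb =>
    ⟨hBR hb, Subgroup.mem_centralizer_iff.2 fun b' hb' => hBab b' hb' b hb⟩
  have hcentral : ∀ c ∈ C, ∀ b ∈ B, c * b = b * c := by
    intro c hc b hb
    exact (Subgroup.mem_centralizer_iff.1 hc.2 b hb).symm
  -- a nilpotent normal subgroup
  set N : Subgroup X := fitting X ⊓ C with hNdef
  have hNn : N.Normal := inferInstance
  have hNnil : Group.IsNilpotent N := by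
    have h1 : Group.IsNilpotent (fitting X) := fitting_nilpotent X
    have h2 : Group.IsNilpotent (N.subgroupOf (fitting X)) := inferInstance
    exact (Group.isNilpotent_congr (Subgroup.subgroupOfEquivOfLe
      (inf_le_left : N ≤ fitting X))).1 h2
  have habnil : ∀ A : Subgroup X, (∀ x ∈ A, ∀ y ∈ A, x * y = y * x) → Group.IsNilpotent A := by
    intro A hA
    have : IsMulCommutative A := ⟨⟨fun x y => Subtype.ext (hA x x.2 y y.2)⟩⟩
    rw [Subgroup.isNilpotent_iff_lowerCentralSeries]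
    refine ⟨1, ?_⟩
    rw [Subgroup.lowerCentralSeries_succ, Subgroup.lowerCentralSeries_zero, eq_bot_iff,
      Subgroup.commutator_le]
    intro x hx y hy
    rw [Subgroup.mem_bot, commutatorElement_eq_one_iff_mul_comm]
    exact hA x hx y hy
  have hBN : B ≤ N := le_inf (le_fitting B hBn (habnil B hBab)) hBC
  have hBmaxN : Maximal (· ∈ {A : Subgroup X | A.Normal ∧ A ≤ N ∧
      ∀ x ∈ A, ∀ y ∈ A, x * y = y * x}) B := by
    refine ⟨⟨hBn, hBN, hBab⟩, ?_⟩
    rintro A ⟨hAn, hAN, hAab⟩ hBA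
    exact hBmax.le_of_ge (y := A) ⟨hAn, (hAN.trans inf_le_right).trans inf_le_left, hAab⟩ hBA
  obtain ⟨E, hEn, hBE, hEN, hEc, hEcomm, hEZ, hEC⟩ := exists_E N hNnil B hBmaxN
  have hEleC : E ≤ C := hEN.trans inf_le_right
  have hEC2 : E ≤ Subgroup.centralizer (B : Set X) := hEleC.trans inf_le_right
  have hEE : ∀ e ∈ E, ∀ f ∈ E, ⁅e, f⁆ ∈ B := by
    intro e he f hf
    exact hEcomm f hf e (hEN he)
  -- the centraliser of E in C is B
  have hCCE : C ⊓ Subgroup.centralizer (E : Set X) ≤ B := by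
    have hn1 : (Subgroup.centralizer (E : Set X)).Normal := inferInstance
    have hn2 : (C ⊓ Subgroup.centralizer (E : Set X)).Normal := inferInstance
    have hs : Group.IsSolvable (C ⊓ Subgroup.centralizer (E : Set X) : Subgroup X) := by
      have h1 : C ⊓ Subgroup.centralizer (E : Set X) ≤ R := inf_le_left.trans inf_le_left
      exact Group.isSolvable_of_isSolvable_injective (f := Subgroup.inclusion h1)
        (Subgroup.inclusion_injective h1)
    apply le_of_solvable
    intro Y1 hY1n hY1 hY1B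
    have hY1C : Y1 ≤ C := hY1.trans inf_le_left
    have hY1nil : Group.IsNilpotent Y1 := by
      rw [Subgroup.isNilpotent_iff_lowerCentralSeries]
      refine ⟨2, ?_⟩
      rw [Subgroup.lowerCentralSeries_succ, Subgroup.lowerCentralSeries_succ,
        Subgroup.lowerCentralSeries_zero, eq_bot_iff, Subgroup.commutator_le]
      intro b hb y hy
      rw [Subgroup.mem_bot, commutatorElement_eq_one_iff_mul_comm]
      exact (hcentral y (hY1C hy) b (hY1B hb)).symm
    have hY1N : Y1 ≤ N := le_inf (le_fitting Y1 hY1n hY1nil) hY1C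
    intro y hy
    apply hEC y (hY1N hy)
    intro e he
    exact (Subgroup.mem_centralizer_iff.1 (hY1 hy).2 e he).symm
  have hcardE := hE E hBE hEC2 hEE hEZ
  have hRs2 : Group.IsSolvable R := hRs
  -- the index
  set w := (B.subgroupOf E).index with hw
  have hwE : Nat.card B * w = Nat.card E := by
    rw [hw, ← Nat.card_congr (Subgroup.subgroupOfEquivOfLe hBE).toEquiv]
    exact Subgroup.card_mul_index _
  have hwd : w ≤ (d ^ 2) ^ n := by
    have h1 : Nat.card B * w ≤ Nat.card B * (d ^ 2) ^ n := by rw [hwE]; exact hcardE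
    exact Nat.le_of_mul_le_mul_left h1 Nat.card_pos
  have hw1 : 1 ≤ w := Nat.one_le_iff_ne_zero.2 Subgroup.index_ne_zero_of_finite
  refine ⟨?_, ?_⟩
  · intro hd1
    have hEB : E = B := by
      symm
      apply Subgroup.eq_of_le_of_card_ge hBE
      rw [hd1] at hcardE
      simpa using hcardE
    have hCB : C ≤ B := by
      refine le_trans ?_ hCCE
      rw [hEB]
      exact le_inf le_rfl inf_le_right
    have h1 : dser R (n !) ≤ X0 := dser_le_of_index_le R X0 _ hX0
    have h2 : dser R (n ! + 1) ≤ B := by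
      refine le_trans ?_ hCB
      refine le_inf (dser_le _ _) ?_
      rw [dser_succ, Subgroup.commutator_le]
      intro x hx y hy
      exact hcomm x (h1 hx) y (h1 hy)
    rw [eq_bot_iff, show n ! + 2 = (n ! + 1) + 1 from rfl, dser_succ, Subgroup.commutator_le]
    intro x hx y hy
    rw [Subgroup.mem_bot, commutatorElement_eq_one_iff_mul_comm]
    exact hBab x (h2 hx) y (h2 hy)
  · obtain ⟨S, hS1, hS2⟩ := exists_generators w (B.subgroupOf E) le_rfl
    refine ⟨w, S.card, hS2, hwd, ?_⟩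
    -- elements of C acting trivially on E/B
    let C1 : Subgroup X :=
      { carrier := {c | c ∈ C ∧ ∀ e ∈ E, c * e * c⁻¹ * e⁻¹ ∈ B}
        one_mem' := ⟨C.one_mem, fun e _ => by simp⟩
        mul_mem' := by
          rintro x y ⟨h1, h2⟩ ⟨h3, h4⟩
          refine ⟨C.mul_mem h1 h3, fun e he => ?_⟩
          have e1 : x * y * e * (x * y)⁻¹ * e⁻¹ =
              (x * (y * e * y⁻¹ * e⁻¹) * x⁻¹) * (x * e * x⁻¹ * e⁻¹) := by group
          rw [e1]
          exact B.mul_mem (hBn.conj_mem _ (h4 e he) x) (h2 e he)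
        inv_mem' := by
          rintro x ⟨h1, h2⟩
          refine ⟨C.inv_mem h1, fun e he => ?_⟩
          have e1 : x⁻¹ * e * x⁻¹⁻¹ * e⁻¹ = x⁻¹ * (x * e * x⁻¹ * e⁻¹)⁻¹ * x := by group
          rw [e1]
          exact hBn.conj_mem' _ (B.inv_mem (h2 e he)) x }
    have hC1 : ∀ x, x ∈ C1 ↔ x ∈ C ∧ ∀ e ∈ E, x * e * x⁻¹ * e⁻¹ ∈ B := fun x => Iff.rfl
    have hC1C : C1 ≤ C := fun x hx => hx.1
    have hBC1 : B ≤ C1 := by
      intro b hb
      refine ⟨hBC hb, fun e he => ?_⟩
      have e1 : b * e * b⁻¹ * e⁻¹ = b * (e * b⁻¹ * e⁻¹) := by group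
      rw [e1]
      exact B.mul_mem hb (hBn.conj_mem _ (B.inv_mem hb) e)
    -- generation principle
    have hgen : ∀ (D : Subgroup X), (∀ s ∈ S, (s : X) ∈ D) → B ≤ D → E ≤ D := by
      intro D hSD hBD e he
      have h1 : (⊤ : Subgroup E) ≤ D.subgroupOf E := by
        rw [← hS1]
        apply sup_le
        · rw [Subgroup.closure_le]
          intro s hs
          exact hSD s (Finset.mem_coe.1 hs)
        · intro b hb
          exact hBD hb
      exact h1 (Subgroup.mem_top (⟨e, he⟩ : E))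
    -- first count
    have hcount1 : Nat.card C ≤ Nat.card C1 * Nat.card (S → (E ⧸ B.subgroupOf E)) := by
      apply card_le_of_separates C C1 hC1C
        (fun (c : C) (s : {x : E // x ∈ S}) => ((⟨(c : X) * ((s : E) : X) * (c : X)⁻¹,
          hEn.conj_mem _ (s : E).2 c⟩ : E) : E ⧸ B.subgroupOf E))
      intro c c' hcc
      have hx : ∀ s ∈ S, ((c : X)⁻¹ * c') * (s : X) * ((c : X)⁻¹ * c')⁻¹ * (s : X)⁻¹ ∈ B := by
        intro s hs
        have h1 := congrFun hcc ⟨s, hs⟩
        simp only at h1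
        rw [QuotientGroup.eq] at h1
        have h2 : ((c : X) * (s : X) * (c : X)⁻¹)⁻¹ * ((c' : X) * (s : X) * (c' : X)⁻¹) ∈ B := h1
        have h3 := hBn.conj_mem' _ h2 (c : X)
        have h4 := hBn.conj_mem _ h3 (s : X)
        have e1 : (s : X) * ((c : X)⁻¹ * (((c : X) * (s : X) * (c : X)⁻¹)⁻¹ *
            ((c' : X) * (s : X) * (c' : X)⁻¹)) * (c : X)) * (s : X)⁻¹ =
            ((c : X)⁻¹ * c') * (s : X) * ((c : X)⁻¹ * c')⁻¹ * (s : X)⁻¹ := by group
        rwa [e1] at h4
      refine ⟨C.mul_mem (C.inv_mem c.2) c'.2, ?_⟩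
      set x : X := (c : X)⁻¹ * c' with hxdef
      have hxC : x ∈ C := C.mul_mem (C.inv_mem c.2) c'.2
      let D : Subgroup X := (Subgroup.centralizer {QuotientGroup.mk' B x}).comap
        (QuotientGroup.mk' B)
      have hD : ∀ y, y ∈ D ↔ x * y * x⁻¹ * y⁻¹ ∈ B := by
        intro y
        have h1 : y ∈ D ↔ QuotientGroup.mk' B x * QuotientGroup.mk' B y =
            QuotientGroup.mk' B y * QuotientGroup.mk' B x := by
          change QuotientGroup.mk' B y ∈ Subgroup.centralizer {QuotientGroup.mk' B x} ↔ _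
          rw [Subgroup.mem_centralizer_iff]
          simp
        rw [h1, ← map_mul, ← map_mul]
        constructor
        · intro h
          have h2 : QuotientGroup.mk' B (x * y * x⁻¹ * y⁻¹) = 1 := by
            have e1 : x * y * x⁻¹ * y⁻¹ = (x * y) * (y * x)⁻¹ := by group
            rw [e1, map_mul, map_inv, h, mul_inv_cancel]
          exact (QuotientGroup.eq_one_iff _).1 h2
        · intro h
          have h2 : QuotientGroup.mk' B (x * y * x⁻¹ * y⁻¹) = 1 :=
            (QuotientGroup.eq_one_iff _).2 h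
          have e1 : x * y = (x * y * x⁻¹ * y⁻¹) * (y * x) := by group
          rw [e1, map_mul, h2, one_mul]
      have hED : E ≤ D := by
        apply hgen D
        · intro s hs
          exact (hD s).2 (hx s hs)
        · intro b hb
          rw [hD]
          have e1 : x * b * x⁻¹ * b⁻¹ = (x * b * x⁻¹) * b⁻¹ := rfl
          rw [e1]
          exact B.mul_mem (hBn.conj_mem b hb x) (B.inv_mem hb)
      intro e he
      exact (hD e).1 (hED he)
    -- second count
    have hwB : ∀ x ∈ C1, ∀ e ∈ E, (x * e * x⁻¹ * e⁻¹) ^ w = 1 := by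
      intro x hx e he
      have hb := ((hC1 x).1 hx).2 e he
      set b := x * e * x⁻¹ * e⁻¹ with hbdef
      have hbe : Commute b e := by
        exact (hEc e he b hb).symm
      have h1 : x * e * x⁻¹ = b * e := by rw [hbdef]; group
      have h2 : x * e ^ w * x⁻¹ = b ^ w * e ^ w := by
        rw [← hbe.mul_pow, ← h1, conj_pow]
      have h3 : e ^ w ∈ B := by
        have h4 : (⟨e, he⟩ : E) ^ w ∈ B.subgroupOf E := by
          have hn : (B.subgroupOf E).Normal := inferInstance
          rw [hw]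
          exact Subgroup.pow_index_mem _ _
        exact h4
      have h5 : x * e ^ w * x⁻¹ = e ^ w := by
        rw [hcentral x (hC1C hx) _ h3]; group
      rw [h5] at h2
      exact (mul_eq_right.1 h2.symm)
    have hcount2 : Nat.card C1 ≤ Nat.card B *
        Nat.card (S → {b : X | b ∈ B ∧ b ^ w = 1}) := by
      apply card_le_of_separates C1 B hBC1
        (fun (c : C1) (s : {x : E // x ∈ S}) => (⟨(c : X) * ((s : E) : X) * (c : X)⁻¹ * ((s : E) : X)⁻¹,
          ((hC1 c).1 c.2).2 _ (s : E).2, hwB c c.2 _ (s : E).2⟩ : {b : X | b ∈ B ∧ b ^ w = 1}))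
      intro c c' hcc
      apply hCCE
      refine ⟨C.mul_mem (C.inv_mem (hC1C c.2)) (hC1C c'.2), ?_⟩
      set x : X := (c : X)⁻¹ * c' with hxdef
      have hxC : x ∈ C := C.mul_mem (C.inv_mem (hC1C c.2)) (hC1C c'.2)
      have hED : E ≤ Subgroup.centralizer {x} := by
        apply hgen
        · intro s hs
          have h1 := congrArg (fun t : {b : X | b ∈ B ∧ b ^ w = 1} => (t : X))
            (congrFun hcc ⟨s, hs⟩)
          simp only at h1
          have h2 : (c : X) * (s : X) * (c : X)⁻¹ = (c' : X) * (s : X) * (c' : X)⁻¹ :=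
            mul_right_cancel h1
          rw [Subgroup.mem_centralizer_iff]
          intro y hy
          rw [Set.mem_singleton_iff] at hy
          rw [hy, hxdef]
          calc (c : X)⁻¹ * c' * (s : X) = (c : X)⁻¹ * ((c' : X) * (s : X) * (c' : X)⁻¹) * c' := by
                group
            _ = (c : X)⁻¹ * ((c : X) * (s : X) * (c : X)⁻¹) * c' := by rw [h2]
            _ = (s : X) * ((c : X)⁻¹ * c') := by group
        · intro b hb
          rw [Subgroup.mem_centralizer_iff]
          intro y hy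
          rw [Set.mem_singleton_iff] at hy
          rw [hy]
          exact hcentral x hxC b hb
      apply Subgroup.mem_centralizer_iff.2
      intro e he
      exact ((Subgroup.mem_centralizer_iff.1 (hED he)) x rfl).symm
    have hcardfun1 : Nat.card (S → (E ⧸ B.subgroupOf E)) = w ^ S.card := by
      rw [Nat.card_fun]
      congr 1
      simp
    have hcardfun2 : Nat.card (S → {b : X | b ∈ B ∧ b ^ w = 1}) ≤ (w ^ n) ^ S.card := by
      rw [Nat.card_fun]
      have h1 : Nat.card S = S.card := by simp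
      rw [h1]
      exact Nat.pow_le_pow_left (hBw w hw1) _
    have hcardC : Nat.card C ≤ Q ^ n * w ^ ((n + 1) * S.card) := by
      calc Nat.card C ≤ Nat.card C1 * Nat.card (S → (E ⧸ B.subgroupOf E)) := hcount1
        _ ≤ (Nat.card B * (w ^ n) ^ S.card) * w ^ S.card := by
            rw [hcardfun1]
            exact Nat.mul_le_mul_right _ (hcount2.trans (Nat.mul_le_mul_left _ hcardfun2))
        _ ≤ (Q ^ n * (w ^ n) ^ S.card) * w ^ S.card :=
            Nat.mul_le_mul_right _ (Nat.mul_le_mul_right _ hBQ)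
        _ = Q ^ n * w ^ ((n + 1) * S.card) := by
            rw [mul_assoc, ← pow_mul, ← pow_add]
            congr 2
            ring
    -- conclusion
    have hR0 : Nat.card R ≤ n ! * Nat.card (R ⊓ X0 : Subgroup X) := by
      have h1 : (R ⊓ X0).relIndex R ≤ n ! := by
        rw [Subgroup.inf_relIndex_left]
        refine le_trans ?_ hX0
        exact Nat.le_of_dvd (Nat.pos_of_ne_zero Subgroup.index_ne_zero_of_finite)
          (Subgroup.relIndex_dvd_index_of_normal _ _)
      have h2 : Nat.card (R ⊓ X0 : Subgroup X) * (R ⊓ X0).relIndex R = Nat.card R := by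
        have := Subgroup.relIndex_mul_relIndex ⊥ (R ⊓ X0) R bot_le inf_le_left
        rwa [Subgroup.relIndex_bot_left, Subgroup.relIndex_bot_left] at this
      rw [← h2, mul_comm]
      exact Nat.mul_le_mul_right _ h1
    have hR1 := hlog (R ⊓ X0) inf_le_right
    have hR2 : Nat.card ((R ⊓ X0) ⊓ Subgroup.centralizer (B : Set X) : Subgroup X) ≤
        Nat.card C := by
      apply Subgroup.card_le_of_le
      exact le_inf (inf_le_left.trans inf_le_left) inf_le_right
    calc Nat.card R ≤ n ! * Nat.card (R ⊓ X0 : Subgroup X) := hR0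
      _ ≤ n ! * (Nat.card C * (Nat.log 2 Q) ^ n) :=
          Nat.mul_le_mul_left _ (hR1.trans (Nat.mul_le_mul_right _ hR2))
      _ ≤ n ! * ((Q ^ n * w ^ ((n + 1) * S.card)) * (Nat.log 2 Q) ^ n) :=
          Nat.mul_le_mul_left _ (Nat.mul_le_mul_right _ hcardC)
      _ = n ! * ((Nat.log 2 Q) ^ n * (Q ^ n * w ^ ((n + 1) * S.card))) := by
          rw [mul_comm (Q ^ n * w ^ ((n + 1) * S.card))]

end Pool.Agent.helper7.Fit
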