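import Pool.Agent.helper7.Fit.RingInst
import Pool.Agent.helper7.Fit.GroupPart

/-!
Irreducible linear groups with few orbits relative to a solvable normal subgroup.
-/

universe u v

namespace Pool.Agent.helper7.Fit

open scoped commutatorElement Nat
open Module Submodule

/-- Squares of logarithms are small. -/
theorem clog_sq_le (C : ℕ) : ∃ K : ℕ, ∀ x : ℕ, C * (Nat.clog 2 x) ^ 2 ≤ x + K := by
  have h1 := tendsto_pow_const_div_const_pow_of_one_lt 2 (r := (2 : ℝ)) (by norm_num)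
  have h2 : ∀ᶠ n : ℕ in Filter.atTop, (n : ℝ) ^ 2 / 2 ^ n < 1 / (2 * (C + 1)) :=
    h1.eventually (gt_mem_nhds (by positivity))
  obtain ⟨N, hN⟩ := Filter.eventually_atTop.1 h2
  refine ⟨C * N ^ 2, ?_⟩
  intro x
  set D := Nat.clog 2 x with hD
  rcases Nat.lt_or_ge D N with h | h
  · have : D ^ 2 ≤ N ^ 2 := Nat.pow_le_pow_left h.le 2
    have := Nat.mul_le_mul_left C this
    omega
  · have h3 := hN D h
    have hpos : (0 : ℝ) < 2 ^ D := by positivity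
    rw [div_lt_div_iff₀ hpos (by positivity)] at h3
    have h4 : (D ^ 2 * (2 * (C + 1)) : ℕ) < 2 ^ D := by
      have : ((D ^ 2 * (2 * (C + 1)) : ℕ) : ℝ) < ((2 ^ D : ℕ) : ℝ) := by
        push_cast
        linarith
      exact_mod_cast this
    have h5 : 2 ^ D ≤ 2 * x ∨ D = 0 := by
      by_cases hD0 : D = 0
      · exact Or.inr hD0
      · left
        have hx : 1 < x := by
          by_contra hcon
          apply hD0
          rw [hD]
          exact Nat.clog_of_right_le_one (by omega) 2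
        have h6 : 2 ^ (Nat.clog 2 x).pred < x := Nat.pow_pred_clog_lt_self (by norm_num) hx
        rw [← hD] at h6
        obtain ⟨D', hD'⟩ := Nat.exists_eq_succ_of_ne_zero hD0
        rw [hD'] at h6 ⊢
        rw [Nat.pred_succ] at h6
        rw [pow_succ]
        omega
    rcases h5 with h5 | h5
    · nlinarith
    · rw [h5]
      simp

/-- The numerical lemma. -/
theorem numeric (c n0 : ℕ) : ∃ N0 : ℕ, ∀ n Q d g w : ℕ, 1 ≤ n → n ≤ n0 → 2 ≤ Q → 2 ≤ d →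
    2 ^ g ≤ w → w ≤ (d ^ 2) ^ n →
    (Q ^ d) ^ n ≤ c * (n ! * ((Nat.log 2 Q) ^ n * (Q ^ n * w ^ ((n + 1) * g)))) →
    (Q ^ d) ^ n ≤ N0 := by
  obtain ⟨K1, hK1⟩ := clog_sq_le 4
  obtain ⟨K2, hK2⟩ := clog_sq_le (4 * (4 * n0 * (n0 + 1)))
  set M := 4 * (c * n0 !) + K1 + K2 + 2 with hM
  refine ⟨((2 ^ (M + 1)) ^ M) ^ n0, ?_⟩
  intro n Q d g w hn hn0 hQ hd hgw hwd hmain
  obtain ⟨d', rfl⟩ : ∃ d', d = d' + 1 := ⟨d - 1, by omega⟩
  set q := Nat.log 2 Q with hq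
  have hq1 : 1 ≤ q := Nat.log_pos (by norm_num) hQ
  have hqQ : 2 ^ q ≤ Q := Nat.pow_log_le_self 2 (by omega)
  have hQq : Q < 2 ^ (q + 1) := Nat.lt_pow_succ_log_self (by norm_num) Q
  set D := Nat.clog 2 (d' + 1) with hD
  have hdD : d' + 1 ≤ 2 ^ D := Nat.le_pow_clog (by norm_num) _
  set q' := Nat.clog 2 q with hq'
  have hqq' : q ≤ 2 ^ q' := Nat.le_pow_clog (by norm_num) _
  have hwD : w ≤ 2 ^ (2 * D * n) := by
    refine hwd.trans ?_
    rw [pow_mul, mul_comm 2 D, pow_mul]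
    exact Nat.pow_le_pow_left (Nat.pow_le_pow_left hdD 2) n
  have hg : g ≤ 2 * D * n := by
    exact (Nat.pow_le_pow_iff_right (by norm_num)).1 (hgw.trans hwD)
  have hwg : w ^ ((n + 1) * g) ≤ 2 ^ (n * (4 * D ^ 2 * (n * (n + 1)))) := by
    calc w ^ ((n + 1) * g) ≤ (2 ^ (2 * D * n)) ^ ((n + 1) * g) :=
          Nat.pow_le_pow_left hwD _
      _ = 2 ^ ((2 * D * n) * ((n + 1) * g)) := by rw [← pow_mul]
      _ ≤ 2 ^ (n * (4 * D ^ 2 * (n * (n + 1)))) := by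
          apply Nat.pow_le_pow_right (by norm_num)
          calc (2 * D * n) * ((n + 1) * g) ≤ (2 * D * n) * ((n + 1) * (2 * D * n)) :=
                Nat.mul_le_mul_left _ (Nat.mul_le_mul_left _ hg)
            _ = _ := by ring
  have hcn : c * n ! ≤ 2 ^ (c * n0 !) := by
    calc c * n ! ≤ c * n0 ! := Nat.mul_le_mul_left _ (Nat.factorial_le hn0)
      _ ≤ 2 ^ (c * n0 !) := Nat.lt_two_pow_self.le
  have h1 : (Q ^ d') ^ n * Q ^ n ≤ (c * n ! * (q ^ n * w ^ ((n + 1) * g))) * Q ^ n := by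
    calc (Q ^ d') ^ n * Q ^ n = (Q ^ (d' + 1)) ^ n := by rw [pow_succ, mul_pow]
      _ ≤ _ := hmain
      _ = _ := by ring
  have h2 : (Q ^ d') ^ n ≤ c * n ! * (q ^ n * w ^ ((n + 1) * g)) :=
    Nat.le_of_mul_le_mul_right h1 (by positivity)
  have h3 : 2 ^ (q * d' * n) ≤ 2 ^ (c * n0 ! + (q' * n + n * (4 * D ^ 2 * (n * (n + 1))))) := by
    calc 2 ^ (q * d' * n) = ((2 ^ q) ^ d') ^ n := by rw [pow_mul, pow_mul]
      _ ≤ (Q ^ d') ^ n := Nat.pow_le_pow_left (Nat.pow_le_pow_left hqQ _) _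
      _ ≤ _ := h2
      _ ≤ 2 ^ (c * n0 !) * ((2 ^ q') ^ n * 2 ^ (n * (4 * D ^ 2 * (n * (n + 1))))) :=
          Nat.mul_le_mul hcn (Nat.mul_le_mul (Nat.pow_le_pow_left hqq' _) hwg)
      _ = _ := by rw [← pow_mul, ← pow_add, ← pow_add]
  have h4 : q * d' * n ≤ c * n0 ! + (q' * n + n * (4 * D ^ 2 * (n * (n + 1)))) :=
    (Nat.pow_le_pow_iff_right (by norm_num)).1 h3
  have h5 : n * (q * d') ≤ n * (c * n0 ! + q' + 4 * D ^ 2 * (n0 * (n0 + 1))) := by
    have h6 : n * (n + 1) ≤ n0 * (n0 + 1) := Nat.mul_le_mul hn0 (by omega)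
    have h7 : c * n0 ! ≤ n * (c * n0 !) := Nat.le_mul_of_pos_left _ hn
    have h8 : n * (4 * D ^ 2 * (n * (n + 1))) ≤ n * (4 * D ^ 2 * (n0 * (n0 + 1))) :=
      Nat.mul_le_mul_left _ (Nat.mul_le_mul_left _ h6)
    nlinarith
  have h6 : q * d' ≤ c * n0 ! + q' + 4 * D ^ 2 * (n0 * (n0 + 1)) :=
    Nat.le_of_mul_le_mul_left h5 hn
  have hd'1 : 1 ≤ d' := by omega
  have h7 : q + d' ≤ 2 * (q * d') := by nlinarith
  have h8 := hK1 q
  have h9 := hK2 (d' + 1)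
  rw [← hq'] at h8
  rw [← hD] at h9
  have h10 : q' ≤ q' ^ 2 := Nat.le_self_pow (by norm_num) _
  have h11 : q + (d' + 1) ≤ M := by
    have : 4 * (4 * n0 * (n0 + 1)) * D ^ 2 = 4 * (4 * D ^ 2 * (n0 * (n0 + 1))) := by ring
    omega
  have h12 : Q ≤ 2 ^ (M + 1) := hQq.le.trans (Nat.pow_le_pow_right (by norm_num) (by omega))
  calc (Q ^ (d' + 1)) ^ n ≤ ((2 ^ (M + 1)) ^ (d' + 1)) ^ n :=
        Nat.pow_le_pow_left (Nat.pow_le_pow_left h12 _) _
    _ ≤ ((2 ^ (M + 1)) ^ M) ^ n :=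
        Nat.pow_le_pow_left (Nat.pow_le_pow_right (by positivity) (by omega)) _
    _ ≤ ((2 ^ (M + 1)) ^ M) ^ n0 := Nat.pow_le_pow_right (by positivity) hn0

/-- Irreducible linear groups with few orbits. -/
theorem few_orbits (c n0 : ℕ) (hn0 : 1 ≤ n0) : ∃ ℓ : ℕ,
    ∀ (U : Type u) (X : Type v) [AddCommGroup U] [Finite U]
    [Nontrivial U] [Group X] [Finite X] [DistribMulAction X U]
    (_hfaith : ∀ x : X, (∀ u : U, x • u = u) → x = 1)
    (_hirr : ∀ W : AddSubgroup U, (∀ x : X, ∀ w ∈ W, x • w ∈ W) → W = ⊥ ∨ W = ⊤)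
    (_hblocks : ∀ (ι : Type u) [Fintype ι], BlockSystem X U ι → Fintype.card ι ≤ n0)
    (R : Subgroup X) [R.Normal] [Group.IsSolvable R] (_hR : Nat.card U ≤ c * Nat.card R),
    dser R ℓ = ⊥ := by
  obtain ⟨N0, hN0⟩ := numeric c n0
  refine ⟨max (n0 ! + 2) (N0 ^ N0), ?_⟩
  intro U X _ _ _ _ _ _ hfaith hirr hblocks R _ _ hR
  classical
  obtain ⟨B, hBmax⟩ : ∃ B, Maximal (· ∈ {A : Subgroup X | A.Normal ∧ A ≤ R ∧
      ∀ x ∈ A, ∀ y ∈ A, x * y = y * x}) B := by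
    apply Set.Finite.exists_maximal (Set.toFinite _)
    refine ⟨⊥, inferInstance, bot_le, ?_⟩
    intro x hx y hy
    rw [Subgroup.mem_bot] at hx hy
    rw [hx, hy]
  have hBn := hBmax.prop.1
  obtain ⟨n, Q, d, X0, hn1, hnn0, hQ, hd, hU, hX0n, hX0, hcomm, hlog, hBQ, hBw, hE⟩ :=
    ring_part hfaith hirr n0 hn0 hblocks B hBmax.prop.2.2
  obtain ⟨h1, w, g, hgw, hwd, hRc⟩ := group_part R B hBmax n Q d X0 hX0 hcomm hlog hBQ hBw hE
  by_cases hd1 : d = 1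
  · rw [eq_bot_iff, ← h1 hd1]
    apply dser_antitone
    have : n ! ≤ n0 ! := Nat.factorial_le hnn0
    omega
  · have h2 : (Q ^ d) ^ n ≤ N0 := by
      apply hN0 n Q d g w hn1 hnn0 hQ (by omega) hgw hwd
      rw [← hU]
      exact hR.trans (Nat.mul_le_mul_left c hRc)
    rw [← hU] at h2
    have h3 : Nat.card R ≤ N0 ^ N0 := by
      have h4 : Nat.card R ≤ Nat.card (U → U) := by
        apply Nat.card_le_card_of_injective (fun (r : R) (u : U) => (r : X) • u)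
        intro r s hrs
        apply Subtype.ext
        rw [← inv_mul_eq_one]
        apply hfaith
        intro u
        rw [mul_smul, inv_smul_eq_iff]
        exact (congrFun hrs u).symm
      rw [Nat.card_fun] at h4
      refine h4.trans ?_
      have : 1 ≤ Nat.card U := Nat.card_pos
      calc Nat.card U ^ Nat.card U ≤ N0 ^ Nat.card U := Nat.pow_le_pow_left h2 _
        _ ≤ N0 ^ N0 := Nat.pow_le_pow_right (by omega) h2
    apply dser_eq_bot_of_card_le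
    exact h3.trans (le_max_right _ _)

end Pool.Agent.helper7.Fit
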