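import Pool.Agent.helper7.Fit.Defs
import Pool.Agent.helper7.Fit.Core

/-!
Basic facts on the Fitting subgroup and the Fitting series.
-/

universe u

namespace Pool.Agent.helper7.Fit

open scoped commutatorElement

/-- A finite group generated by two normal nilpotent subgroups is nilpotent. -/
theorem nilpotent_of_sup (n : ℕ) : ∀ (G : Type u) [Group G] [Finite G], Nat.card G ≤ n →
    ∀ (M N : Subgroup G), M.Normal → N.Normal → Group.IsNilpotent M → Group.IsNilpotent N →
      M ⊔ N = ⊤ → Group.IsNilpotent G := by
  classical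
  induction n with
  | zero =>
    intro G _ _ h
    have : 0 < Nat.card G := Nat.card_pos
    omega
  | succ n ih =>
    intro G _ _ hcard M N hM hN hMn hNn hsup
    by_cases hbot : M = ⊥
    · rw [hbot, bot_sup_eq] at hsup
      rw [← Group.isNilpotent_top, ← hsup]
      exact hNn
    have hZ : Subgroup.center G ≠ ⊥ := by
      obtain ⟨B, hBn, hBlt, hBM, hB⟩ := exists_step M hMn M ⊥ le_rfl bot_le (Ne.symm hbot)
      have hBcomm : ∀ x ∈ B, ∀ y ∈ M, y * x = x * y := by
        intro x hx y hy
        have h1 : y * x * y⁻¹ * x⁻¹ = 1 := Subgroup.mem_bot.1 (hB x hx y hy)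
        calc y * x = (y * x * y⁻¹ * x⁻¹) * (x * y) := by group
          _ = x * y := by rw [h1, one_mul]
      have hcen : ∀ x : G, (∀ y ∈ M, y * x = x * y) → (∀ y ∈ N, y * x = x * y) →
          x ∈ Subgroup.center G := by
        intro x h1 h2
        rw [Subgroup.mem_center_iff]
        intro g
        have hg : g ∈ M ⊔ N := by rw [hsup]; exact Subgroup.mem_top g
        obtain ⟨y, hy, z, hz, rfl⟩ := Subgroup.mem_sup_of_normal_left.1 hg
        rw [mul_assoc, h2 z hz, ← mul_assoc, h1 y hy, mul_assoc]
      by_cases hBN : B ⊓ N = ⊥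
      · intro hc
        obtain ⟨x, hx, hx1⟩ := SetLike.exists_of_lt hBlt
        apply hx1
        rw [← hc]
        apply hcen x (fun y hy => hBcomm x hx y hy)
        intro y hy
        have h1 : y * x * y⁻¹ * x⁻¹ ∈ B ⊓ N := by
          refine ⟨B.mul_mem (hBn.conj_mem x hx y) (B.inv_mem hx), ?_⟩
          have : y * x * y⁻¹ * x⁻¹ = y * (x * y⁻¹ * x⁻¹) := by group
          rw [this]
          exact N.mul_mem hy (hN.conj_mem _ (N.inv_mem hy) x)
        rw [hBN] at h1
        have h2 := Subgroup.mem_bot.1 h1
        calc y * x = (y * x * y⁻¹ * x⁻¹) * (x * y) := by group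
          _ = x * y := by rw [h2, one_mul]
      · have hn : (B ⊓ N).Normal := inferInstance
        obtain ⟨B', hBn', hBlt', hBM', hB'⟩ := exists_step N hNn (B ⊓ N) ⊥ inf_le_right bot_le
          (Ne.symm hBN)
        intro hc
        obtain ⟨x, hx, hx1⟩ := SetLike.exists_of_lt hBlt'
        apply hx1
        rw [← hc]
        apply hcen x (fun y hy => hBcomm x (hBM' hx).1 y hy)
        intro y hy
        have h2 : y * x * y⁻¹ * x⁻¹ = 1 := Subgroup.mem_bot.1 (hB' x hx y hy)
        calc y * x = (y * x * y⁻¹ * x⁻¹) * (x * y) := by group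
          _ = x * y := by rw [h2, one_mul]
    have hlt : Nat.card (G ⧸ Subgroup.center G) < Nat.card G := by
      rw [Subgroup.card_eq_card_quotient_mul_card_subgroup (Subgroup.center G)]
      apply lt_mul_of_one_lt_right Nat.card_pos
      exact (Subgroup.one_lt_card_iff_ne_bot _).mpr hZ
    have hmap : ∀ K : Subgroup G, Group.IsNilpotent K →
        Group.IsNilpotent (K.map (QuotientGroup.mk' (Subgroup.center G))) := by
      intro K hK
      exact Group.nilpotent_of_surjective
        ((QuotientGroup.mk' (Subgroup.center G)).subgroupMap K)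
        ((QuotientGroup.mk' (Subgroup.center G)).subgroupMap_surjective K)
    have hq : Group.IsNilpotent (G ⧸ Subgroup.center G) := by
      apply ih (G ⧸ Subgroup.center G) (by omega)
        (M.map (QuotientGroup.mk' (Subgroup.center G)))
        (N.map (QuotientGroup.mk' (Subgroup.center G)))
        (hM.map _ (QuotientGroup.mk'_surjective _)) (hN.map _ (QuotientGroup.mk'_surjective _))
        (hmap M hMn) (hmap N hNn)
      rw [← Subgroup.map_sup, hsup, ← MonoidHom.range_eq_map]
      exact MonoidHom.range_eq_top.2 (QuotientGroup.mk'_surjective _)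
    exact Group.of_quotient_center_nilpotent hq

/-- The product of two normal nilpotent subgroups is nilpotent. -/
theorem sup_nilpotent {G : Type u} [Group G] [Finite G] (M N : Subgroup G) (hM : M.Normal)
    (hN : N.Normal) (hMn : Group.IsNilpotent M) (hNn : Group.IsNilpotent N) :
    Group.IsNilpotent (M ⊔ N : Subgroup G) := by
  have h1 : M ≤ M ⊔ N := le_sup_left
  have h2 : N ≤ M ⊔ N := le_sup_right
  apply nilpotent_of_sup (Nat.card (M ⊔ N : Subgroup G)) (M ⊔ N : Subgroup G) le_rfl
    (M.subgroupOf (M ⊔ N)) (N.subgroupOf (M ⊔ N)) inferInstance inferInstance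
  · exact (Group.isNilpotent_congr (Subgroup.subgroupOfEquivOfLe h1)).2 hMn
  · exact (Group.isNilpotent_congr (Subgroup.subgroupOfEquivOfLe h2)).2 hNn
  · rw [← Subgroup.subgroupOf_sup h1 h2, Subgroup.subgroupOf_self]

/-- The Fitting subgroup of a finite group is nilpotent. -/
theorem fitting_nilpotent (G : Type u) [Group G] [Finite G] : Group.IsNilpotent (fitting G) := by
  classical
  obtain ⟨M, hM⟩ : ∃ M, Maximal (· ∈ {N : Subgroup G | N.Normal ∧ Group.IsNilpotent N}) M := by
    apply Set.Finite.exists_maximal (Set.toFinite _)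
    exact ⟨⊥, inferInstance, inferInstance⟩
  have h : fitting G = M := by
    apply le_antisymm
    · apply sSup_le
      intro N hN
      have h1 : M ⊔ N ≤ M := by
        apply hM.le_of_ge _ le_sup_left
        have := hM.prop.1
        have := hN.1
        exact ⟨inferInstance, sup_nilpotent M N hM.prop.1 hN.1 hM.prop.2 hN.2⟩
      exact le_sup_right.trans h1
    · exact le_sSup hM.prop
  rw [h]
  exact hM.prop.2

theorem le_fitting {G : Type u} [Group G] (N : Subgroup G) (hN : N.Normal)
    (hNn : Group.IsNilpotent N) : N ≤ fitting G := le_sSup ⟨hN, hNn⟩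

lemma fitting_le_comap_equiv {X Y : Type*} [Group X] [Group Y] (e : X ≃* Y) :
    fitting X ≤ (fitting Y).comap e.toMonoidHom := by
  apply sSup_le
  rintro N ⟨hN, hNn⟩
  rw [← Subgroup.map_le_iff_le_comap]
  refine le_sSup ⟨hN.map _ e.surjective, ?_⟩
  exact Group.nilpotent_of_surjective (e.toMonoidHom.subgroupMap N)
    (e.toMonoidHom.subgroupMap_surjective N)

lemma comap_fitting_equiv {X Y : Type*} [Group X] [Group Y] (e : X ≃* Y) :
    (fitting Y).comap e.toMonoidHom = fitting X := by
  apply le_antisymm _ (fitting_le_comap_equiv e)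
  intro x hx
  have h1 := fitting_le_comap_equiv e.symm hx
  rw [Subgroup.mem_comap] at h1
  simpa using h1

/-- Compatibility of the Fitting subgroup with quotients given by surjections. -/
lemma comap_fitting {G X : Type*} [Group G] [Group X] (f : G →* X) (hf : Function.Surjective f)
    (N : Subgroup G) [N.Normal] (hN : N = f.ker) :
    (fitting (G ⧸ N)).comap (QuotientGroup.mk' N) = (fitting X).comap f := by
  subst hN
  rw [← comap_fitting_equiv (QuotientGroup.quotientKerEquivOfSurjective f hf),
    Subgroup.comap_comap]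
  congr 1

theorem fittingSeries_one (G : Type*) [Group G] : fittingSeries G 1 = fitting G := by
  rw [fittingSeries_succ]
  rw [comap_fitting (MonoidHom.id G) Function.surjective_id (fittingSeries G 0) (by
    rw [fittingSeries_zero]
    exact ((MonoidHom.ker_eq_bot_iff _).2 Function.injective_id).symm)]
  rfl

/-- `F_{k+1}(G)` is the preimage of `F_k(G/F(G))`. -/
theorem fittingSeries_succ' (G : Type*) [Group G] (k : ℕ) :
    fittingSeries G (k + 1) =
      (fittingSeries (G ⧸ fitting G) k).comap (QuotientGroup.mk' (fitting G)) := by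
  induction k with
  | zero =>
    rw [fittingSeries_one, fittingSeries_zero]
    ext x
    rw [Subgroup.mem_comap, Subgroup.mem_bot]
    exact (QuotientGroup.eq_one_iff x).symm
  | succ k ih =>
    rw [fittingSeries_succ G (k + 1), fittingSeries_succ (G ⧸ fitting G) k, Subgroup.comap_comap]
    apply comap_fitting
    · exact (QuotientGroup.mk'_surjective _).comp (QuotientGroup.mk'_surjective _)
    · rw [ih]
      ext x
      rw [Subgroup.mem_comap, MonoidHom.mem_ker, MonoidHom.comp_apply]
      exact (QuotientGroup.eq_one_iff _).symm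

theorem index_fittingSeries_succ (G : Type*) [Group G] (k : ℕ) :
    (fittingSeries G (k + 1)).index = (fittingSeries (G ⧸ fitting G) k).index := by
  rw [fittingSeries_succ', Subgroup.index_comap_of_surjective _ (QuotientGroup.mk'_surjective _)]

end Pool.Agent.helper7.Fit
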