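import Mathlib

/-!
Linear independence of the operators of a group of class two, and automorphisms of finite fields.
-/

namespace Pool.Agent.helper7.Fit

open scoped commutatorElement
open Module

theorem index_le_finrank_sq {L W E : Type*} [Field L] [AddCommGroup W] [Module L W]
    [FiniteDimensional L W] [Nontrivial W] [Group E] [Finite E] (ρ : E →* (W →ₗ[L] W))
    (hscalar : ∀ e f : E, ∃ c : L, ρ ⁅f, e⁆ = c • (1 : W →ₗ[L] W))
    (E1 : Subgroup E) (hE1 : ∀ e : E, (∀ f : E, ρ ⁅f, e⁆ = 1) → e ∈ E1) :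
    E1.index ≤ (finrank L W) ^ 2 := by
  classical
  have hinj : ∀ c c' : L, c • (1 : W →ₗ[L] W) = c' • (1 : W →ₗ[L] W) → c = c' := by
    intro c c' h
    obtain ⟨w, hw⟩ := exists_ne (0 : W)
    have h1 := congrArg (fun f : W →ₗ[L] W => f w) h
    simp only [LinearMap.smul_apply, Module.End.one_apply] at h1
    exact smul_left_injective L hw h1
  choose χ hχ using hscalar
  have hconj : ∀ e f : E, ρ f * ρ e = χ e f • (ρ e * ρ f) := by
    intro e f
    have h1 : f * e = ⁅f, e⁆ * (e * f) := by rw [commutatorElement_def]; group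
    rw [← map_mul, h1, map_mul, hχ, smul_one_mul, map_mul]
  have hone : ∀ e, χ e 1 = 1 := by
    intro e
    apply hinj
    rw [← hχ, commutatorElement_one_left, map_one, one_smul]
  have hmul : ∀ e f f', χ e (f * f') = χ e f * χ e f' := by
    intro e f f'
    apply hinj
    rw [← hχ]
    have h1 : ⁅f * f', e⁆ = f * ⁅f', e⁆ * f⁻¹ * ⁅f, e⁆ := by
      simp only [commutatorElement_def]; group
    rw [h1, map_mul, map_mul, map_mul, hχ, hχ]
    simp only [mul_smul_comm, smul_mul_assoc, mul_one, ← map_mul, mul_inv_cancel, map_one,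
      smul_smul]
  let X : E → (E →* L) := fun e =>
    { toFun := χ e
      map_one' := hone e
      map_mul' := hmul e }
  have hXinj : Function.Injective (fun q : E ⧸ E1 => X q.out) := by
    intro q q' hqq
    have h1 : ∀ f, χ q.out f = χ q'.out f := fun f => DFunLike.congr_fun hqq f
    have h2 : (q.out)⁻¹ * q'.out ∈ E1 := by
      apply hE1
      intro f
      have hc := hconj q.out f
      have hc' := hconj q'.out f
      -- ρ f ρ(e⁻¹ e') = ρ(e⁻¹ e') ρ f
      have hchi : χ q.out f ≠ 0 := by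
        intro h0
        rw [h0, zero_smul, ← map_mul] at hc
        have h3 : ρ (f * q.out) * ρ (f * q.out)⁻¹ = 1 := by
          rw [← map_mul, mul_inv_cancel, map_one]
        rw [hc, zero_mul] at h3
        exact zero_ne_one h3
      have h4 : ρ (q.out)⁻¹ * ρ f * ρ q.out = χ q.out f • ρ f := by
        rw [mul_assoc, hc, mul_smul_comm, ← mul_assoc, ← map_mul, inv_mul_cancel, map_one,
          one_mul]
      have h5 : ρ f * ρ (q.out)⁻¹ = (χ q.out f)⁻¹ • (ρ (q.out)⁻¹ * ρ f) := by
        have h6 : ρ (q.out)⁻¹ * ρ f = χ q.out f • (ρ f * ρ (q.out)⁻¹) := by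
          calc ρ (q.out)⁻¹ * ρ f = ρ (q.out)⁻¹ * ρ f * (ρ q.out * ρ (q.out)⁻¹) := by
                rw [← map_mul ρ q.out, mul_inv_cancel, map_one, mul_one]
            _ = (ρ (q.out)⁻¹ * ρ f * ρ q.out) * ρ (q.out)⁻¹ := by rw [mul_assoc, mul_assoc,
                mul_assoc]
            _ = χ q.out f • (ρ f * ρ (q.out)⁻¹) := by rw [h4, smul_mul_assoc]
        rw [h6, smul_smul, inv_mul_cancel₀ hchi, one_smul]
      have h7 : ρ f * ρ ((q.out)⁻¹ * q'.out) = ρ ((q.out)⁻¹ * q'.out) * ρ f := by
        rw [map_mul, ← mul_assoc, h5, smul_mul_assoc, mul_assoc, hc', ← h1 f, mul_smul_comm,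
          smul_smul, inv_mul_cancel₀ hchi, one_smul, mul_assoc]
      rw [commutatorElement_def, map_mul, map_mul, map_mul, h7, mul_assoc (ρ _) (ρ f),
        ← map_mul ρ f, mul_inv_cancel, map_one, mul_one, ← map_mul, mul_inv_cancel, map_one]
    rw [← QuotientGroup.out_eq' q, ← QuotientGroup.out_eq' q', QuotientGroup.eq]
    exact h2
  have : Fintype (E ⧸ E1) := Fintype.ofFinite _
  have hli : LinearIndependent L (fun q : E ⧸ E1 => ρ q.out) := by
    rw [Fintype.linearIndependent_iff]
    intro k hk q0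
    have h1 : ∀ f : E, ∑ q : E ⧸ E1, (k q * χ q.out f) • ρ q.out = 0 := by
      intro f
      have h2 : ρ f * (∑ q : E ⧸ E1, k q • ρ q.out) * ρ f⁻¹ = 0 := by rw [hk]; simp
      rw [Finset.mul_sum, Finset.sum_mul] at h2
      rw [← h2]
      apply Finset.sum_congr rfl
      intro q _
      rw [mul_smul_comm, smul_mul_assoc, hconj, smul_mul_assoc, mul_assoc (ρ q.out),
        ← map_mul ρ f, mul_inv_cancel, map_one, mul_one, smul_smul]
    have hne : ρ q0.out ≠ 0 := by
      intro h0
      have h3 : ρ q0.out * ρ (q0.out)⁻¹ = 1 := by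
        rw [← map_mul, mul_inv_cancel, map_one]
      rw [h0, zero_mul] at h3
      exact zero_ne_one h3
    obtain ⟨φ, hφ⟩ : ∃ φ : Dual L (W →ₗ[L] W), φ (ρ q0.out) ≠ 0 := by
      by_contra hcon
      push Not at hcon
      exact hne ((Module.forall_dual_apply_eq_zero_iff L _).1 hcon)
    have hded := (linearIndependent_monoidHom E L).comp (fun q : E ⧸ E1 => X q.out) hXinj
    rw [Fintype.linearIndependent_iff] at hded
    have h4 := hded (fun q => k q * φ (ρ q.out)) (by
      funext f
      have h5 := congrArg φ (h1 f)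
      rw [map_sum, map_zero] at h5
      rw [Finset.sum_apply, Pi.zero_apply, ← h5]
      apply Finset.sum_congr rfl
      intro q _
      simp only [Pi.smul_apply, smul_eq_mul, map_smul, Function.comp_apply]
      change k q * φ (ρ q.out) * χ q.out f = k q * χ q.out f * φ (ρ q.out)
      ring) q0
    exact (mul_eq_zero.1 h4).resolve_right hφ
  have hcard := hli.fintype_card_le_finrank
  rw [Module.finrank_linearMap, ← pow_two] at hcard
  calc E1.index = Nat.card (E ⧸ E1) := rfl
    _ = Fintype.card (E ⧸ E1) := Nat.card_eq_fintype_card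
    _ ≤ (finrank L W) ^ 2 := hcard

/-- The automorphism group of a finite field is abelian, of order at most `log₂ |L|`. -/
theorem ringAut_finite_field (L : Type*) [Field L] [Finite L] :
    (∀ σ τ : L ≃+* L, ∀ a : L, σ (τ a) = τ (σ a)) ∧ Finite (L ≃+* L) ∧
      Nat.card (L ≃+* L) ≤ Nat.log 2 (Nat.card L) := by
  classical
  obtain ⟨p, hp⟩ := CharP.exists L
  have hpp : Fact p.Prime := by
    have := Fintype.ofFinite L
    exact ⟨(CharP.char_is_prime_or_zero L p).resolve_right (CharP.char_ne_zero_of_finite L p)⟩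
  let _ : Algebra (ZMod p) L := ZMod.algebra L p
  let Φ : (L ≃+* L) → (L ≃ₐ[ZMod p] L) := fun σ =>
    { σ with
      commutes' := by
        intro r
        have : (σ : L →+* L).comp (algebraMap (ZMod p) L) = algebraMap (ZMod p) L :=
          Subsingleton.elim _ _
        exact RingHom.congr_fun this r }
  have hΦ : ∀ σ a, Φ σ a = σ a := fun σ a => rfl
  have hΦinj : Function.Injective Φ := by
    intro σ τ h
    apply RingEquiv.ext
    intro a
    rw [← hΦ, ← hΦ, h]
  have hfin : Finite (L ≃ₐ[ZMod p] L) := inferInstance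
  have hcomm : ∀ σ τ : (L ≃ₐ[ZMod p] L), σ * τ = τ * σ := by
    intro σ τ
    obtain ⟨i, rfl⟩ := (FiniteField.bijective_frobeniusAlgEquivOfAlgebraic_pow (ZMod p) L).2 σ
    obtain ⟨j, rfl⟩ := (FiniteField.bijective_frobeniusAlgEquivOfAlgebraic_pow (ZMod p) L).2 τ
    exact (Commute.pow_pow_self _ _ _).eq
  refine ⟨?_, Finite.of_injective Φ hΦinj, ?_⟩
  · intro σ τ a
    have := congrArg (fun f : (L ≃ₐ[ZMod p] L) => f a) (hcomm (Φ σ) (Φ τ))
    exact this
  · have h1 : Nat.card (L ≃+* L) ≤ Nat.card (L ≃ₐ[ZMod p] L) :=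
      Nat.card_le_card_of_injective Φ hΦinj
    have h2 : Nat.card (L ≃ₐ[ZMod p] L) = finrank (ZMod p) L := by
      rw [← Nat.card_fin (finrank (ZMod p) L)]
      exact (Nat.card_congr (Equiv.ofBijective _
        (FiniteField.bijective_frobeniusAlgEquivOfAlgebraic_pow (ZMod p) L))).symm
    have h3 : Nat.card L = p ^ finrank (ZMod p) L := by
      have := Fintype.ofFinite L
      rw [Nat.card_eq_fintype_card, Module.card_eq_pow_finrank (K := ZMod p), ZMod.card]
    rw [h3]
    refine (h1.trans_eq h2).trans ?_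
    apply Nat.le_log_of_pow_le (by norm_num)
    exact Nat.pow_le_pow_left hpp.out.two_le _

end Pool.Agent.helper7.Fit
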