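import Pool.Agent.helper7.Fit.Regular
import Pool.Agent.helper7.Fit.Fitting

/-!
The interface between the Fitting subgroup, characters, and the core estimate.
-/

universe u

namespace Pool.Agent.helper7.Fit

open scoped commutatorElement

attribute [local instance] charAction

/-- The `p'`-part of the Fitting subgroup. -/
theorem exists_pprime_fitting (G : Type u) [Group G] [Finite G] (p : ℕ) [Fact p.Prime] :
    ∃ H : Subgroup G, H.Normal ∧ H ≤ fitting G ∧ Group.IsNilpotent H ∧ p.Coprime (Nat.card H) ∧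
      (∃ k : ℕ, ∀ x ∈ fitting G, x ^ (p ^ k) ∈ H) ∧
      (∀ x ∈ fitting G, ∃ y z : G, x = y * z ∧ z ∈ H ∧ ∀ h ∈ H, y * h = h * y) := by
  obtain ⟨H, hH1, hH2, ⟨k, hk⟩, hH4⟩ := exists_pprime_part (fitting G) (fitting_nilpotent G) p
  have hnil : Group.IsNilpotent (fitting G) := fitting_nilpotent G
  refine ⟨H.map (fitting G).subtype, inferInstance, ?_, ?_, ?_, ⟨k, ?_⟩, ?_⟩
  · rintro x ⟨y, _, rfl⟩
    exact y.2
  · exact Group.nilpotent_of_surjective ((fitting G).subtype.subgroupMap H)
      ((fitting G).subtype.subgroupMap_surjective H)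
  · rw [Subgroup.card_map_of_injective (Subgroup.subtype_injective _)]
    exact hH2
  · intro x hx
    exact ⟨⟨x, hx⟩ ^ (p ^ k), hk _, rfl⟩
  · intro x hx
    obtain ⟨y, z, hyz, hz, hc⟩ := hH4 ⟨x, hx⟩
    refine ⟨y, z, congrArg Subtype.val hyz, ⟨z, hz, rfl⟩, ?_⟩
    rintro h ⟨h', hh', rfl⟩
    exact congrArg Subtype.val (hc h' hh')

/-- Elements of the preimage of a normal `p`-subgroup of `G/F(G)` that act trivially on the linear
characters of the `p'`-part of `F(G)` lie in `F(G)`. -/
theorem mem_fitting_of_trivial {G : Type u} [Group G] [Finite G] (p : ℕ) [hp : Fact p.Prime]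
    (P : Subgroup (G ⧸ fitting G)) [hPn : P.Normal] (hP : IsPGroup p P)
    (H : Subgroup G) [hHn : H.Normal] (hHnil : Group.IsNilpotent H)
    (hcop : p.Coprime (Nat.card H)) (hk : ∃ k : ℕ, ∀ x ∈ fitting G, x ^ (p ^ k) ∈ H)
    (a : G) (ha : QuotientGroup.mk' (fitting G) a ∈ P) (hact : ∀ μ : H →* ℂˣ, a • μ = μ) :
    a ∈ fitting G := by
  classical
  obtain ⟨k, hk⟩ := hk
  -- powers in F
  have hpowF : ∀ x : G, QuotientGroup.mk' (fitting G) x ∈ P →
      ∃ j : ℕ, x ^ (p ^ j) ∈ fitting G := by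
    intro x hx
    obtain ⟨j, hj⟩ := hP ⟨_, hx⟩
    refine ⟨j, ?_⟩
    have h1 := congrArg Subtype.val hj
    have h2 : (QuotientGroup.mk' (fitting G) x) ^ (p ^ j) = 1 := h1
    rw [← map_pow] at h2
    exact (QuotientGroup.eq_one_iff _).1 h2
  -- the centraliser of H in the preimage of P
  let C : Subgroup G := P.comap (QuotientGroup.mk' (fitting G)) ⊓ Subgroup.centralizer (H : Set G)
  have hCn : C.Normal := by
    have : (Subgroup.centralizer (H : Set G)).Normal := inferInstance
    have : (P.comap (QuotientGroup.mk' (fitting G))).Normal := inferInstance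
    infer_instance
  have hCnil : Group.IsNilpotent C := by
    let f : C →* G ⧸ H := (QuotientGroup.mk' H).comp C.subtype
    have hp' : IsPGroup p f.range := by
      rintro ⟨_, ⟨x, rfl⟩⟩
      obtain ⟨j, hj⟩ := hpowF x x.2.1
      refine ⟨j + k, ?_⟩
      apply Subtype.ext
      change (f x) ^ (p ^ (j + k)) = 1
      rw [← map_pow]
      change ((((x ^ (p ^ (j + k)) : C) : G)) : G ⧸ H) = 1
      rw [QuotientGroup.eq_one_iff, pow_add, pow_mul]
      exact hk _ hj
    have hnil := hp'.isNilpotent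
    apply Subgroup.isNilpotent_of_ker_le_center f.rangeRestrict
    intro x hx
    rw [Subgroup.mem_center_iff]
    intro y
    have hxH : (x : G) ∈ H := by
      rw [MonoidHom.ker_rangeRestrict, MonoidHom.mem_ker] at hx
      exact (QuotientGroup.eq_one_iff _).1 hx
    apply Subtype.ext
    exact (Subgroup.mem_centralizer_iff.1 y.2.2 x hxH).symm
  have hCF : C ≤ fitting G := le_fitting C hCn hCnil
  -- the p-part of a
  set n := orderOf a with hn
  have hn0 : n ≠ 0 := (orderOf_pos a).ne'
  set r := n / p ^ n.factorization p with hr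
  have hnr : p ^ n.factorization p * r = n := Nat.ordProj_mul_ordCompl_eq_self n p
  have hpr : p.Coprime r := Nat.coprime_ordCompl hp.out hn0
  set c := a ^ r with hc
  have hcp : c ^ (p ^ n.factorization p) = 1 := by
    rw [hc, ← pow_mul, mul_comm, hnr, hn, pow_orderOf_eq_one]
  have hcact : ∀ μ : H →* ℂˣ, c⁻¹ • μ = μ := by
    intro μ
    have h1 : a ∈ MulAction.stabilizer G μ := hact μ
    exact (MulAction.stabilizer G μ).inv_mem ((MulAction.stabilizer G μ).pow_mem h1 r)
  have hcH : ∀ x : H, MulAut.conjNormal c x = x := by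
    intro x
    apply coprime_action hHnil p hcop (MulAut.conjNormal c) (n.factorization p)
    · rw [← map_pow, hcp, map_one]
    · intro y
      apply mem_commutator_of_forall
      intro μ
      have h1 := congrArg (fun ν : H →* ℂˣ => ν y) (hcact μ)
      simp only [charAction_apply, inv_inv] at h1
      rw [map_mul, h1, map_inv, mul_inv_cancel]
  have hcC : c ∈ C := by
    refine ⟨?_, ?_⟩
    · change QuotientGroup.mk' (fitting G) c ∈ P
      rw [hc, map_pow]
      exact P.pow_mem ha r
    · apply Subgroup.mem_centralizer_iff.2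
      intro x hx
      have h1 := congrArg Subtype.val (hcH ⟨x, hx⟩)
      rw [MulAut.conjNormal_apply] at h1
      have h2 : c * x * c⁻¹ = x := h1
      calc x * c = (c * x * c⁻¹) * c := by rw [h2]
        _ = c * x := by group
  have hcF : a ^ r ∈ fitting G := hCF hcC
  obtain ⟨j, hj⟩ := hpowF a ha
  -- Bezout in the quotient
  have h1 : (QuotientGroup.mk' (fitting G) a) ^ r = 1 := by
    rw [← map_pow]; exact (QuotientGroup.eq_one_iff _).2 hcF
  have h2 : (QuotientGroup.mk' (fitting G) a) ^ (p ^ j) = 1 := by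
    rw [← map_pow]; exact (QuotientGroup.eq_one_iff _).2 hj
  have h3 : orderOf (QuotientGroup.mk' (fitting G) a) = 1 :=
    Nat.eq_one_of_dvd_coprimes (Nat.Coprime.pow_left j hpr) (orderOf_dvd_of_pow_eq_one h2)
      (orderOf_dvd_of_pow_eq_one h1)
  rw [orderOf_eq_one_iff] at h3
  exact (QuotientGroup.eq_one_iff _).1 h3

/-- For every abelian normal subgroup `A` of `G/F(G)` contained in a normal `p`-subgroup there is
a subgroup `T` of `G/F(G)` with `T ∩ A = 1` meeting all but at most `m(G)` classes of `G/F(G)`. -/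
theorem interface {G : Type u} [Group G] [Finite G] (p : ℕ) [hp : Fact p.Prime]
    (P : Subgroup (G ⧸ fitting G)) [hPn : P.Normal] (hP : IsPGroup p P)
    (A : Subgroup (G ⧸ fitting G)) (hAP : A ≤ P)
    (hab : ∀ x ∈ A, ∀ y ∈ A, x * y = y * x) :
    ∃ T : Subgroup (G ⧸ fitting G), (∀ x ∈ T, x ∈ A → x = 1) ∧
      (missing (T : Set (G ⧸ fitting G))).ncard ≤ maxZeros G := by
  classical
  obtain ⟨H, hHn, hHF, hHnil, hcop, hk, hdec⟩ := exists_pprime_fitting G p
  have hFtriv : ∀ f ∈ fitting G, ∀ μ : H →* ℂˣ, f • μ = μ := by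
    intro f hf μ
    obtain ⟨y, z, rfl, hz, hy⟩ := hdec f hf
    apply MonoidHom.ext
    intro n
    rw [charAction_apply]
    have h1 : MulAut.conjNormal (y * z)⁻¹ n = (⟨z, hz⟩ : H)⁻¹ * n * ⟨z, hz⟩ := by
      apply Subtype.ext
      rw [MulAut.conjNormal_apply]
      have h2 := hy n n.2
      simp only [Subgroup.coe_mul, Subgroup.coe_inv]
      calc (y * z)⁻¹ * (n : G) * (y * z)⁻¹⁻¹ = z⁻¹ * (y⁻¹ * ((n : G) * y)) * z := by group
        _ = z⁻¹ * (y⁻¹ * (y * (n : G))) * z := by rw [h2]
        _ = z⁻¹ * (n : G) * z := by group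
    rw [h1, map_mul, map_mul, map_inv, mul_comm, ← mul_assoc, mul_inv_cancel, one_mul]
  have hV : ∀ μ : H →* ℂˣ, μ ^ p = 1 → μ = 1 := by
    intro μ hμ
    apply MonoidHom.ext
    intro n
    have h1 : (μ n) ^ p = 1 := by
      have := congrArg (fun ν : H →* ℂˣ => ν n) hμ
      exact this
    have h2 : (μ n) ^ (Nat.card H) = 1 := by
      rw [← map_pow, pow_card_eq_one', map_one]
    have h3 : orderOf (μ n) = 1 := Nat.eq_one_of_dvd_coprimes hcop
      (orderOf_dvd_of_pow_eq_one h1) (orderOf_dvd_of_pow_eq_one h2)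
    exact orderOf_eq_one_iff.1 h3
  obtain ⟨lam, hlam⟩ := exists_regular (V := H →* ℂˣ) (fitting G)
    (A.comap (QuotientGroup.mk' (fitting G))) p hFtriv
    (by
      intro a ha b hb
      rw [← QuotientGroup.eq_one_iff]
      have h1 := hab _ ha _ hb
      change ((a : G ⧸ fitting G) * (b : G ⧸ fitting G) * (a : G ⧸ fitting G)⁻¹ *
        (b : G ⧸ fitting G)⁻¹) = 1
      have h2 : (a : G ⧸ fitting G) * (b : G ⧸ fitting G) =
        (b : G ⧸ fitting G) * (a : G ⧸ fitting G) := h1
      rw [h2]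
      group)
    (by
      intro a ha hact
      exact mem_fitting_of_trivial p P hP H hHnil hcop hk a (hAP ha) hact)
    (by
      intro a ha
      obtain ⟨j, hj⟩ := hP ⟨_, hAP ha⟩
      refine ⟨j, ?_⟩
      have h1 := congrArg Subtype.val hj
      have h2 : (QuotientGroup.mk' (fitting G) a) ^ (p ^ j) = 1 := h1
      rw [← map_pow] at h2
      exact (QuotientGroup.eq_one_iff _).1 h2)
    hV
  refine ⟨(MulAction.stabilizer G lam).map (QuotientGroup.mk' (fitting G)), ?_, ?_⟩
  · rintro x ⟨g, hg, rfl⟩ hgA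
    exact (QuotientGroup.eq_one_iff _).2 (hlam g hgA hg)
  · exact (missing_quotient_le _ _).trans (missing_stabilizer_le H lam)

end Pool.Agent.helper7.Fit
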