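import Mathlib

/-!
Regular orbits of `p`-groups of class at most two, `p` odd, on abelian groups without `p`-torsion.
-/

namespace Pool.Agent.helper7.Fit

open scoped commutatorElement

section

variable {M V : Type*} [Group M] [AddCommGroup V] [DistribMulAction M V]

/-- The norm `∑_{i < p} x ^ i`. -/
def nrm (p : ℕ) (x : M) (w : V) : V := ∑ i ∈ Finset.range p, (x ^ i) • w

lemma nrm_add (p : ℕ) (x : M) (w w' : V) : nrm p x (w + w') = nrm p x w + nrm p x w' := by
  unfold nrm
  rw [← Finset.sum_add_distrib]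
  exact Finset.sum_congr rfl fun i _ => smul_add _ _ _

lemma nrm_sub (p : ℕ) (x : M) (w w' : V) : nrm p x (w - w') = nrm p x w - nrm p x w' := by
  unfold nrm
  rw [← Finset.sum_sub_distrib]
  exact Finset.sum_congr rfl fun i _ => smul_sub _ _ _

lemma nrm_zero (p : ℕ) (x : M) : nrm p x (0 : V) = 0 := by
  unfold nrm
  exact Finset.sum_eq_zero fun i _ => smul_zero _

lemma nrm_nsmul (p : ℕ) (x : M) (n : ℕ) (w : V) : nrm p x (n • w) = n • nrm p x w := by
  unfold nrm
  rw [Finset.smul_sum]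
  exact Finset.sum_congr rfl fun i _ => smul_comm _ _ _

lemma nrm_sum (p : ℕ) (x : M) {ι : Type*} (s : Finset ι) (w : ι → V) :
    nrm p x (∑ i ∈ s, w i) = ∑ i ∈ s, nrm p x (w i) := by
  classical
  induction s using Finset.induction_on with
  | empty => simp [nrm_zero]
  | insert i s hi ih => rw [Finset.sum_insert hi, Finset.sum_insert hi, nrm_add, ih]

lemma smul_nrm_of_commute (p : ℕ) (x a : M) (h : a * x = x * a) (w : V) :
    a • nrm p x w = nrm p x (a • w) := by
  unfold nrm
  rw [Finset.smul_sum]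
  apply Finset.sum_congr rfl
  intro i _
  rw [← mul_smul, ← mul_smul]
  congr 1
  exact (Commute.pow_right h i)

lemma smul_nrm_self (p : ℕ) (x : M) (hx : x ^ p = 1) (w : V) :
    x • nrm p x w = nrm p x w := by
  have h1 : x • nrm p x w = ∑ i ∈ Finset.range p, (x ^ (i + 1)) • w := by
    unfold nrm
    rw [Finset.smul_sum]
    apply Finset.sum_congr rfl
    intro i _
    rw [← mul_smul, ← pow_succ']
  have h2 := Finset.sum_range_succ (fun i => (x ^ i) • w) p
  have h3 := Finset.sum_range_succ' (fun i => (x ^ i) • w) p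
  rw [h1]
  unfold nrm
  rw [h2] at h3
  simp only [pow_zero, hx] at h3
  exact (add_right_cancel h3).symm

lemma nrm_of_fixed (p : ℕ) (x : M) (w : V) (h : x • w = w) : nrm p x w = p • w := by
  unfold nrm
  have : ∀ i ∈ Finset.range p, (x ^ i) • w = w := by
    intro i _
    have hx : x ∈ MulAction.stabilizer M w := h
    exact (MulAction.stabilizer M w).pow_mem hx i
  rw [Finset.sum_congr rfl this, Finset.sum_const, Finset.card_range]

lemma sum_pow_mul (p : ℕ) [hp : Fact p.Prime] (z : M) (hz : z ^ p = 1) (j : ℕ)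
    (hj : ¬ p ∣ j) (w : V) :
    ∑ i ∈ Finset.range p, (z ^ (i * j)) • w = nrm p z w := by
  classical
  unfold nrm
  have hcop : Nat.Coprime p j := (Nat.Prime.coprime_iff_not_dvd hp.out).2 hj
  have hinj : Set.InjOn (fun i => (i * j) % p) (Finset.range p : Set ℕ) := by
    intro a ha b hb hab
    simp only [Finset.coe_range, Set.mem_Iio] at ha hb
    have h1 : a * j ≡ b * j [MOD p] := hab
    have h2 : a ≡ b [MOD p] := Nat.ModEq.cancel_right_of_coprime hcop h1
    exact Nat.ModEq.eq_of_lt_of_lt h2 ha hb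
  have himg : (Finset.range p).image (fun i => (i * j) % p) = Finset.range p := by
    apply Finset.eq_of_subset_of_card_le
    · intro x hx
      obtain ⟨i, _, rfl⟩ := Finset.mem_image.1 hx
      exact Finset.mem_range.2 (Nat.mod_lt _ hp.out.pos)
    · rw [Finset.card_image_of_injOn hinj]
  conv_rhs => rw [← himg]
  rw [Finset.sum_image hinj]
  apply Finset.sum_congr rfl
  intro i _
  congr 1
  exact pow_eq_pow_mod _ hz

lemma nrm_comm (p : ℕ) (x y : M) (h : x * y = y * x) (w : V) :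
    nrm p x (nrm p y w) = nrm p y (nrm p x w) := by
  conv_lhs => rw [nrm]
  conv_rhs => rw [nrm, ← nrm]
  have h1 : ∀ i ∈ Finset.range p, (x ^ i) • nrm p y w = nrm p y ((x ^ i) • w) := by
    intro i _
    apply smul_nrm_of_commute
    exact Commute.pow_left h i
  rw [Finset.sum_congr rfl h1, ← nrm_sum]
  rfl

/-- The basic identity in the group ring of `C_p × C_p`. -/
lemma nrm_identity (p : ℕ) [hp : Fact p.Prime] (y z : M) (hyz : y * z = z * y)
    (hz : z ^ p = 1) (w : V) :
    (∑ i ∈ Finset.range p, nrm p (y * z ^ i) w) + nrm p z w = p • w + nrm p y (nrm p z w) := by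
  have h1 : ∑ i ∈ Finset.range p, nrm p (y * z ^ i) w =
      ∑ j ∈ Finset.range p, (y ^ j) • (∑ i ∈ Finset.range p, (z ^ (i * j)) • w) := by
    unfold nrm
    rw [Finset.sum_comm]
    apply Finset.sum_congr rfl
    intro j _
    rw [Finset.smul_sum]
    apply Finset.sum_congr rfl
    intro i _
    have hc : Commute y (z ^ i) := Commute.pow_right hyz i
    rw [hc.mul_pow, mul_smul, ← pow_mul]
  have hp0 : 0 < p := hp.out.pos
  obtain ⟨q, rfl⟩ : ∃ q, p = q + 1 := ⟨p - 1, by omega⟩
  rw [h1, Finset.sum_range_succ']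
  have h2 : ∀ j ∈ Finset.range q, (y ^ (j + 1)) •
      (∑ i ∈ Finset.range (q + 1), (z ^ (i * (j + 1))) • w) =
      (y ^ (j + 1)) • nrm (q + 1) z w := by
    intro j hj
    rw [sum_pow_mul (q + 1) z hz (j + 1)]
    intro hd
    have := Nat.le_of_dvd (by omega) hd
    rw [Finset.mem_range] at hj
    omega
  rw [Finset.sum_congr rfl h2]
  have h3 : nrm (q + 1) y (nrm (q + 1) z w) =
      (∑ j ∈ Finset.range q, (y ^ (j + 1)) • nrm (q + 1) z w) + nrm (q + 1) z w := by
    conv_lhs => unfold nrm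
    rw [Finset.sum_range_succ', pow_zero, one_smul]
    rfl
  rw [h3]
  simp only [pow_zero, one_smul, mul_zero, Finset.sum_const, Finset.card_range]
  abel

end

/-- **Regular orbits.** A `p`-group of class at most two, `p` odd, acting faithfully on an abelian
group without `p`-torsion has a regular orbit. -/
theorem exists_regular_class2 {M V : Type*} [Group M] [Finite M] [AddCommGroup V]
    [DistribMulAction M V] (p : ℕ) [hp : Fact p.Prime] (hp2 : p ≠ 2) (hM : IsPGroup p M)
    (hcl : ∀ a b c : M, ⁅a, b⁆ * c = c * ⁅a, b⁆)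
    (hfaith : ∀ a : M, (∀ v : V, a • v = v) → a = 1)
    (hV : ∀ v : V, p • v = 0 → v = 0) :
    ∃ v : V, ∀ a : M, a • v = v → a = 1 := by
  classical
  have hp0 : 0 < p := hp.out.pos
  let f : V → ℕ := fun v => {a : M | a • v = v}.ncard
  obtain ⟨v, hv⟩ : ∃ v : V, ∀ w : V, f v ≤ f w := by
    obtain ⟨v, _, hv⟩ := WellFounded.has_min (measure f).wf Set.univ ⟨0, trivial⟩
    exact ⟨v, fun w => not_lt.1 (hv w trivial)⟩
  refine ⟨v, ?_⟩
  -- a strict decrease is impossible
  have hmin : ∀ (u : V) (b : M), b • v = v → b • u ≠ u →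
      (∀ a : M, a • (v + u) = v + u → a • u = u) → False := by
    intro u b hbv hbu hkey
    have hlt : f (v + u) < f v := by
      apply Set.ncard_lt_ncard _ (Set.toFinite _)
      have hkey2 : ∀ a : M, a • (v + u) = v + u → a • v = v := by
        intro a ha
        have h1 := hkey a ha
        rw [smul_add, h1] at ha
        exact add_right_cancel ha
      rw [Set.ssubset_iff_of_subset]
      · exact ⟨b, hbv, fun h => hbu (hkey b h)⟩
      · intro a ha
        exact hkey2 a ha
    exact absurd (hv (v + u)) (not_le.2 hlt)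
  -- reduction to elements of order p
  have horder : ∀ b0 : M, b0 • v = v → b0 ≠ 1 →
      ∃ b : M, b • v = v ∧ b ≠ 1 ∧ b ^ p = 1 ∧ ∃ n : ℕ, b = b0 ^ n := by
    intro b0 hb0v hb01
    have hex := hM b0
    set k := Nat.find hex with hk
    have hk1 : b0 ^ (p ^ k) = 1 := Nat.find_spec hex
    have hk0 : k ≠ 0 := by
      intro h0
      rw [h0, pow_zero, pow_one] at hk1
      exact hb01 hk1
    obtain ⟨j, hj⟩ := Nat.exists_eq_succ_of_ne_zero hk0
    have hjF : b0 ^ (p ^ j) ≠ 1 := by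
      apply Nat.find_min hex
      omega
    refine ⟨b0 ^ (p ^ j), ?_, hjF, ?_, ⟨_, rfl⟩⟩
    · have : b0 ∈ MulAction.stabilizer M v := hb0v
      exact (MulAction.stabilizer M v).pow_mem this _
    · rw [← pow_mul, ← pow_succ]
      rw [hj] at hk1
      exact hk1
  -- Step 1: central elements
  have hcentral : ∀ b0 : M, (∀ c : M, b0 * c = c * b0) → b0 • v = v → b0 = 1 := by
    intro b0 hb0c hb0v
    by_contra hb01
    obtain ⟨b, hbv, hb1, hbp, n, hbn⟩ := horder b0 hb0v hb01
    have hbc : ∀ c : M, c * b = b * c := by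
      intro c
      rw [hbn]
      exact (Commute.pow_right (hb0c c).symm n)
    obtain ⟨w, hw⟩ : ∃ w : V, b • w ≠ w := by
      by_contra h
      push Not at h
      exact hb1 (hfaith b h)
    set u := b • w - w with hu
    have hNu : nrm p b u = 0 := by
      rw [hu, nrm_sub, ← smul_nrm_of_commute p b b rfl, smul_nrm_self p b hbp, sub_self]
    have hbu : b • u ≠ u := by
      intro h
      have h1 := nrm_of_fixed p b u h
      rw [hNu] at h1
      have h2 := hV u h1.symm
      rw [hu, sub_eq_zero] at h2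
      exact hw h2
    apply hmin u b hbv hbu
    intro a ha
    have h1 : nrm p b (v + u) = p • v := by
      rw [nrm_add, hNu, add_zero, nrm_of_fixed p b v hbv]
    have h2 : a • (p • v) = p • v := by
      rw [← h1, smul_nrm_of_commute p b a (hbc a), ha]
    have h3 : a • v = v := by
      rw [← sub_eq_zero]
      apply hV
      rw [smul_sub, ← h2, smul_comm, sub_self]
    rw [smul_add, h3] at ha
    exact add_left_cancel ha
  -- Step 2
  intro b0 hb0v
  by_contra hb01
  obtain ⟨b, hbv, hb1, hbp, -⟩ := horder b0 hb0v hb01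
  have hcomm : ∀ a b c : M, c * ⁅a, b⁆ = ⁅a, b⁆ * c := fun a b c => (hcl a b c).symm
  have hconj : ∀ a c : M, a * c * a⁻¹ = ⁅a, c⁆ * c := by
    intro a c; rw [commutatorElement_def]; group
  have hmul : ∀ a c : M, ⁅a * c, b⁆ = ⁅a, b⁆ * ⁅c, b⁆ := by
    intro a c
    have h1 : ⁅a * c, b⁆ = a * ⁅c, b⁆ * a⁻¹ * ⁅a, b⁆ := by
      simp only [commutatorElement_def]; group
    rw [h1, hcomm c b a, mul_assoc, mul_assoc, ← mul_assoc a, mul_inv_cancel, one_mul]
    exact (hcl a b _).symm
  let B0 : Subgroup M :=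
    { carrier := {z | ∃ a : M, z = ⁅a, b⁆}
      one_mem' := ⟨1, by simp⟩
      mul_mem' := by
        rintro z z' ⟨a, rfl⟩ ⟨a', rfl⟩
        exact ⟨a * a', (hmul a a').symm⟩
      inv_mem' := by
        rintro z ⟨a, rfl⟩
        refine ⟨a⁻¹, ?_⟩
        have h1 := hmul a a⁻¹
        rw [mul_inv_cancel, commutatorElement_one_left] at h1
        exact (eq_inv_of_mul_eq_one_right h1.symm).symm }
  have hB0 : ∀ z, z ∈ B0 ↔ ∃ a : M, z = ⁅a, b⁆ := fun z => Iff.rfl
  have hB0c : ∀ z ∈ B0, ∀ c : M, z * c = c * z := by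
    rintro z ⟨a, rfl⟩ c
    exact hcl a b c
  have hB0p : ∀ z ∈ B0, z ^ p = 1 := by
    rintro z ⟨a, rfl⟩
    have h1 : ∀ n : ℕ, a * b ^ n * a⁻¹ = ⁅a, b⁆ ^ n * b ^ n := by
      intro n
      have h2 : a * b ^ n * a⁻¹ = (a * b * a⁻¹) ^ n := (conj_pow).symm
      rw [h2, hconj a b]
      exact (Commute.mul_pow (hcl a b b) n)
    have h3 := h1 p
    rw [hbp, mul_one, mul_one, mul_inv_cancel] at h3
    exact h3.symm
  -- Step 3
  have hbnc : ∃ z ∈ B0, z ≠ 1 := by
    by_contra h
    push Not at h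
    apply hb1
    apply hcentral b _ hbv
    intro c
    have h1 := h ⁅c, b⁆ ⟨c, rfl⟩
    rw [commutatorElement_eq_one_iff_mul_comm] at h1
    exact h1.symm
  obtain ⟨zz, hzz, hzz1⟩ := hbnc
  obtain ⟨vv, hvv⟩ : ∃ vv : V, zz • vv ≠ vv := by
    by_contra h
    push Not at h
    exact hzz1 (hfaith zz h)
  let g : V → ℕ := fun w => Nat.card M - {z : M | z ∈ B0 ∧ z • w = w}.ncard
  obtain ⟨v0, hv0S, hv0⟩ := WellFounded.has_min (measure g).wf {w : V | ∃ z ∈ B0, z • w ≠ w}
    ⟨vv, zz, hzz, hvv⟩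
  have hmax : ∀ w : V, (∀ z ∈ B0, z • v0 = v0 → z • w = w) →
      (∃ z ∈ B0, z • v0 ≠ v0 ∧ z • w = w) → ∀ z ∈ B0, z • w = w := by
    intro w h1 h2
    by_contra hcon
    push Not at hcon
    apply hv0 w hcon
    change g w < g v0
    have hlt : {z : M | z ∈ B0 ∧ z • v0 = v0}.ncard < {z : M | z ∈ B0 ∧ z • w = w}.ncard := by
      apply Set.ncard_lt_ncard _ (Set.toFinite _)
      rw [Set.ssubset_iff_of_subset]
      · obtain ⟨z, hz, hz1, hz2⟩ := h2
        exact ⟨z, ⟨hz, hz2⟩, fun h => hz1 h.2⟩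
      · rintro z ⟨hz, hz1⟩
        exact ⟨hz, h1 z hz hz1⟩
    have hle : {z : M | z ∈ B0 ∧ z • w = w}.ncard ≤ Nat.card M := by
      rw [← Set.ncard_univ]
      exact Set.ncard_le_ncard (Set.subset_univ _) (Set.toFinite _)
    simp only [g]
    omega
  obtain ⟨z1, hz1B, hz1v0⟩ := hv0S
  have hz1p := hB0p z1 hz1B
  have hz1c := hB0c z1 hz1B
  -- Step 4
  have hstep4 : ∀ y ∈ B0, ∃ i ∈ Finset.range p, (y * z1 ^ i) • v0 = v0 := by
    intro y hy
    by_contra hcon
    push Not at hcon
    have hfixz1 : ∀ z ∈ B0, z • nrm p z1 v0 = nrm p z1 v0 := by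
      apply hmax
      · intro z hz hzv
        rw [smul_nrm_of_commute p z1 z (hB0c z hz z1), hzv]
      · exact ⟨z1, hz1B, hz1v0, smul_nrm_self p z1 hz1p v0⟩
    have hfixi : ∀ i ∈ Finset.range p, ∀ z ∈ B0,
        z • nrm p (y * z1 ^ i) v0 = nrm p (y * z1 ^ i) v0 := by
      intro i hi
      have hyi : y * z1 ^ i ∈ B0 := B0.mul_mem hy (B0.pow_mem hz1B i)
      apply hmax
      · intro z hz hzv
        rw [smul_nrm_of_commute p _ z (hB0c z hz _), hzv]
      · exact ⟨y * z1 ^ i, hyi, hcon i hi, smul_nrm_self p _ (hB0p _ hyi) v0⟩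
    have hid := nrm_identity p y z1 (hB0c y hy z1) hz1p v0
    apply hz1v0
    have h1 : z1 • (p • v0) = p • v0 := by
      have h2 : p • v0 = ((∑ i ∈ Finset.range p, nrm p (y * z1 ^ i) v0) + nrm p z1 v0) -
          nrm p y (nrm p z1 v0) := by rw [hid]; abel
      rw [h2, smul_sub, smul_add, Finset.smul_sum,
        Finset.sum_congr rfl (fun i hi => hfixi i hi z1 hz1B), hfixz1 z1 hz1B,
        smul_nrm_of_commute p y z1 (hz1c y), hfixz1 z1 hz1B]
    rw [← sub_eq_zero]
    apply hV
    rw [smul_sub, smul_comm, h1, sub_self]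
  let H0 : Subgroup M := B0 ⊓ MulAction.stabilizer M v0
  have hH0 : ∀ h, h ∈ H0 ↔ h ∈ B0 ∧ h • v0 = v0 := fun h => Iff.rfl
  have hstep4' : ∀ y ∈ B0, ∃ c < p, ∃ h ∈ H0, y = z1 ^ c * h := by
    intro y hy
    obtain ⟨i, hi, hyi⟩ := hstep4 y hy
    rw [Finset.mem_range] at hi
    by_cases hi0 : i = 0
    · subst hi0
      refine ⟨0, hp0, y, ⟨hy, ?_⟩, by simp⟩
      simpa using hyi
    · refine ⟨p - i, by omega, y * z1 ^ i, ⟨B0.mul_mem hy (B0.pow_mem hz1B i), hyi⟩, ?_⟩
      rw [hB0c y hy, ← mul_assoc, ← pow_add, Nat.sub_add_cancel hi.le, hz1p, one_mul]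
  -- the subgroup V0
  have V0smul : ∀ (a : M) (w : V), ((∀ h ∈ H0, h • w = w) ∧ nrm p z1 w = 0) →
      ((∀ h ∈ H0, h • (a • w) = a • w) ∧ nrm p z1 (a • w) = 0) := by
    rintro a w ⟨h1, h2⟩
    refine ⟨?_, ?_⟩
    · intro h hh
      rw [← mul_smul, hB0c h ((hH0 h).1 hh).1, mul_smul, h1 h hh]
    · rw [← smul_nrm_of_commute p z1 a (hz1c a).symm, h2, smul_zero]
  -- Step 5
  set u0 : V := p • v0 - nrm p z1 v0 with hu0
  have hu0V : (∀ h ∈ H0, h • u0 = u0) ∧ nrm p z1 u0 = 0 := by
    refine ⟨?_, ?_⟩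
    · intro h hh
      have h1 := ((hH0 h).1 hh)
      rw [hu0, smul_sub, smul_comm, h1.2, smul_nrm_of_commute p z1 h (hB0c h h1.1 z1), h1.2]
    · rw [hu0, nrm_sub, nrm_nsmul, nrm_of_fixed p z1 (nrm p z1 v0) (smul_nrm_self p z1 hz1p v0),
        sub_self]
  have hu0ne : u0 ≠ 0 := by
    intro h
    apply hz1v0
    rw [← sub_eq_zero]
    apply hV
    rw [hu0, sub_eq_zero] at h
    rw [smul_sub, smul_comm, h, smul_nrm_self p z1 hz1p, sub_self]
  have hbz : b * z1 = z1 * b := (hz1c b).symm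
  have hbzc : ∀ i, Commute b (z1 ^ i) := fun i => Commute.pow_right hbz i
  have hbzp : ∀ i, (b * z1 ^ i) ^ p = 1 := by
    intro i
    rw [(hbzc i).mul_pow, hbp, ← pow_mul, mul_comm i p, pow_mul, hz1p, one_pow, one_mul]
  -- Step 6
  obtain ⟨i, hi, hui⟩ : ∃ i ∈ Finset.range p, nrm p (b * z1 ^ i) u0 ≠ 0 := by
    by_contra hcon
    push Not at hcon
    have hid := nrm_identity p b z1 hbz hz1p u0
    rw [Finset.sum_eq_zero hcon, hu0V.2, nrm_zero, add_zero, add_zero] at hid
    exact hu0ne (hV u0 hid.symm)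
  rw [Finset.mem_range] at hi
  set u1 : V := nrm p (b * z1 ^ i) u0 with hu1
  have hu1fix : (b * z1 ^ i) • u1 = u1 := smul_nrm_self p _ (hbzp i) u0
  have hu1V : (∀ h ∈ H0, h • u1 = u1) ∧ nrm p z1 u1 = 0 := by
    refine ⟨?_, ?_⟩
    · intro h hh
      rw [hu1, smul_nrm_of_commute p _ h (hB0c h ((hH0 h).1 hh).1 _), hu0V.1 h hh]
    · rw [hu1, nrm_comm p z1 (b * z1 ^ i) (hz1c _), hu0V.2, nrm_zero]
  -- a conjugate of u1
  obtain ⟨a1, ha1⟩ : ∃ a1 : M, z1 ^ (p + 1 - i) = ⁅a1, b⁆ :=
    (hB0 _).1 (B0.pow_mem hz1B _)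
  set u : V := a1 • u1 with hu
  have hune : u ≠ 0 := by
    intro h
    apply hui
    rw [hu] at h
    exact (smul_eq_zero_iff_eq a1).1 h
  have huV : (∀ h ∈ H0, h • u = u) ∧ nrm p z1 u = 0 := V0smul a1 u1 hu1V
  -- how elements move the components
  have hmove : ∀ (a : M) (w : V) (j c : ℕ) (h : M), h ∈ H0 →
      ((∀ h ∈ H0, h • w = w) ∧ nrm p z1 w = 0) → ⁅a, b⁆ = z1 ^ c * h →
      (b * z1 ^ j) • w = w → (b * z1 ^ (j + c)) • (a • w) = a • w := by
    intro a w j c h hh hw hab hjw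
    have hhc : ∀ c : M, h * c = c * h := hB0c h ((hH0 h).1 hh).1
    have h1 : b * z1 ^ (j + c) * (h * a) = a * (b * z1 ^ j) := by
      have h2 : a * b = z1 ^ c * h * b * a := by
        rw [← hab, commutatorElement_def]; group
      have hzc : ∀ x : M, z1 ^ c * x = x * z1 ^ c := fun x => (Commute.pow_left (hz1c x) c)
      have hzj : ∀ x : M, z1 ^ j * x = x * z1 ^ j := fun x => (Commute.pow_left (hz1c x) j)
      symm
      calc a * (b * z1 ^ j) = (a * b) * z1 ^ j := (mul_assoc _ _ _).symm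
        _ = (z1 ^ c * h * b * a) * z1 ^ j := by rw [h2]
        _ = z1 ^ c * h * b * (z1 ^ j * a) := by rw [mul_assoc _ a (z1 ^ j), ← hzj a]
        _ = z1 ^ c * h * (b * z1 ^ j) * a := by simp only [mul_assoc]
        _ = z1 ^ c * (b * z1 ^ j) * h * a := by
            rw [mul_assoc (z1 ^ c) h, hhc (b * z1 ^ j), ← mul_assoc (z1 ^ c)]
        _ = (b * z1 ^ j) * z1 ^ c * h * a := by rw [hzc (b * z1 ^ j)]
        _ = b * z1 ^ (j + c) * (h * a) := by rw [pow_add]; simp only [mul_assoc]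
    have h5 := (V0smul a w hw).1 h hh
    calc (b * z1 ^ (j + c)) • (a • w) = (b * z1 ^ (j + c)) • (h • (a • w)) := by rw [h5]
      _ = (b * z1 ^ (j + c) * (h * a)) • w := by
        rw [mul_smul (b * z1 ^ (j + c)) (h * a) w, mul_smul h a w]
      _ = (a * (b * z1 ^ j)) • w := by rw [h1]
      _ = a • w := by rw [mul_smul, hjw]
  have hz1mod : ∀ n : ℕ, z1 ^ n = z1 ^ (n % p) := fun n => pow_eq_pow_mod n hz1p
  have hu1' : (b * z1 ^ 1) • u = u := by
    have h1 := hmove a1 u1 i (p + 1 - i) 1 (H0.one_mem) hu1V (by rw [mul_one]; exact ha1.symm)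
      hu1fix
    have h2 : i + (p + 1 - i) = p + 1 := by omega
    rw [h2, pow_add, hz1p, one_mul] at h1
    exact h1
  -- projections on the components
  have hprojne : ∀ (w : V) (j i : ℕ), ((∀ h ∈ H0, h • w = w) ∧ nrm p z1 w = 0) →
      (b * z1 ^ j) • w = w → ¬ p ∣ i → nrm p (b * z1 ^ (j + i)) w = 0 := by
    intro w j i hw hjw hi
    have h1 : ∀ k : ℕ, ((b * z1 ^ (j + i)) ^ k) • w = (z1 ^ (k * i)) • w := by
      intro k
      have h2 : b * z1 ^ (j + i) = z1 ^ i * (b * z1 ^ j) := by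
        rw [add_comm, pow_add, ← mul_assoc, (hbzc i).eq, mul_assoc]
      have h3 : Commute (z1 ^ i) (b * z1 ^ j) := by
        have h4 : Commute z1 (b * z1 ^ j) := hz1c _
        exact h4.pow_left i
      rw [h2, h3.mul_pow, mul_smul]
      have h5 : (b * z1 ^ j) ∈ MulAction.stabilizer M w := hjw
      have h6 : ((b * z1 ^ j) ^ k) • w = w := (MulAction.stabilizer M w).pow_mem h5 k
      rw [h6, ← pow_mul, mul_comm i k]
    unfold nrm
    simp only [h1]
    rw [sum_pow_mul p z1 hz1p i hi, hw.2]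
  -- the projection to V0
  have : Fintype H0 := Fintype.ofFinite H0
  let S : V → V := fun w => ∑ h : H0, (h : M) • w
  have hSadd : ∀ w w', S (w + w') = S w + S w' := by
    intro w w'
    simp only [S, smul_add, Finset.sum_add_distrib]
  have hSsmul : ∀ (a : M) w, a • S w = S (a • w) := by
    intro a w
    simp only [S, Finset.smul_sum]
    apply Finset.sum_congr rfl
    intro h _
    rw [← mul_smul, ← mul_smul, hB0c h ((hH0 h).1 h.2).1]
  have hSfix : ∀ h ∈ H0, ∀ w, h • S w = S w := by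
    intro h hh w
    simp only [S, Finset.smul_sum]
    refine Fintype.sum_equiv (Equiv.mulLeft (⟨h, hh⟩ : H0)) _ _ ?_
    intro k
    simp [mul_smul]
  have hSof : ∀ w, (∀ h ∈ H0, h • w = w) → S w = Fintype.card H0 • w := by
    intro w hw
    simp only [S]
    have h1 : ∀ h ∈ (Finset.univ : Finset H0), ((h : M)) • w = w := fun h _ => hw h h.2
    rw [Finset.sum_congr rfl h1, Finset.sum_const, Finset.card_univ]
  have hnS : ∀ w, nrm p z1 (S w) = S (nrm p z1 w) := by
    intro w
    simp only [S]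
    rw [nrm_sum]
    apply Finset.sum_congr rfl
    intro h _
    rw [smul_nrm_of_commute p z1 h (hz1c h).symm]
  have hSnsmul : ∀ (n : ℕ) w, S (n • w) = n • S w := by
    intro n w
    simp only [S, Finset.smul_sum]
    exact Finset.sum_congr rfl fun h _ => smul_comm _ _ _
  let Pr : V → V := fun w => p • S w - nrm p z1 (S w)
  have hPradd : ∀ w w', Pr (w + w') = Pr w + Pr w' := by
    intro w w'
    simp only [Pr, hSadd, smul_add, nrm_add]
    abel
  have hPrsmul : ∀ (a : M) w, a • Pr w = Pr (a • w) := by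
    intro a w
    simp only [Pr]
    rw [smul_sub, smul_comm, hSsmul, smul_nrm_of_commute p z1 a (hz1c a).symm, hSsmul]
  have hPrV : ∀ w, (∀ h ∈ H0, h • Pr w = Pr w) ∧ nrm p z1 (Pr w) = 0 := by
    intro w
    refine ⟨?_, ?_⟩
    · intro h hh
      simp only [Pr]
      rw [smul_sub, smul_comm, hSfix h hh, smul_nrm_of_commute p z1 h (hz1c h).symm, hSfix h hh]
    · simp only [Pr]
      rw [nrm_sub, nrm_nsmul, nrm_of_fixed p z1 (nrm p z1 (S w))
        (smul_nrm_self p z1 hz1p _), sub_self]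
  have hcardp : ∃ k : ℕ, Fintype.card H0 = p ^ k := by
    obtain ⟨k, hk⟩ := (IsPGroup.iff_card.1 (hM.to_subgroup H0))
    exact ⟨k, by rw [Fintype.card_eq_nat_card, hk]⟩
  obtain ⟨kk, hkk⟩ := hcardp
  have htors : ∀ (n : ℕ) (w : V), (p ^ n) • w = 0 → w = 0 := by
    intro n
    induction n with
    | zero => intro w h; simpa using h
    | succ n ih =>
      intro w h
      rw [pow_succ, mul_smul] at h
      exact hV w (ih _ h)
  have hProf : ∀ w, ((∀ h ∈ H0, h • w = w) ∧ nrm p z1 w = 0) → Pr w = (p ^ (kk + 1)) • w := by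
    intro w hw
    simp only [Pr]
    rw [hnS, hw.2, hSof w hw.1, hkk]
    have : S 0 = 0 := by simp [S]
    rw [this, sub_zero, ← mul_smul, ← pow_succ']
  -- final contradiction
  have hbu : b • u ≠ u := by
    intro h
    have h1 : z1 • u = u := by
      have h2 : (b * z1 ^ 1) • u = z1 • (b • u) := by rw [pow_one, hbz, mul_smul]
      rw [hu1', h] at h2
      exact h2.symm
    have h3 := nrm_of_fixed p z1 u h1
    rw [huV.2] at h3
    exact hune (hV u h3.symm)
  apply hmin u b hbv hbu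
  intro a ha
  have e1 : a • Pr v + a • Pr u = Pr v + Pr u := by
    rw [hPrsmul, hPrsmul, ← hPradd, ← hPradd, ← smul_add, ha]
  have hlam0 : (b * z1 ^ 0) • Pr v = Pr v := by
    rw [pow_zero, mul_one, hPrsmul, hbv]
  have hustar : (b * z1 ^ 1) • Pr u = Pr u := by
    rw [hPrsmul, hu1']
  have hPrune : Pr u ≠ 0 := by
    intro h
    rw [hProf u huV] at h
    exact hune (htors _ _ h)
  obtain ⟨c, hc, h, hh, hch⟩ := hstep4' ⁅a, b⁆ ⟨a, rfl⟩
  have ha0 : (b * z1 ^ (0 + c)) • (a • Pr v) = a • Pr v :=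
    hmove a (Pr v) 0 c h hh (hPrV v) hch hlam0
  have ha1 : (b * z1 ^ (1 + c)) • (a • Pr u) = a • Pr u :=
    hmove a (Pr u) 1 c h hh (hPrV u) hch hustar
  rw [zero_add] at ha0
  have hV1 := V0smul a _ (hPrV v)
  have hV2 := V0smul a _ (hPrV u)
  have hp1 : ¬ p ∣ 1 := fun h => hp.out.one_lt.ne' (Nat.dvd_one.1 h)
  -- component 1
  have hcomp1R : nrm p (b * z1 ^ 1) (Pr v + Pr u) = p • Pr u := by
    rw [nrm_add, nrm_of_fixed p _ _ hustar]
    have := hprojne (Pr v) 0 1 (hPrV v) hlam0 hp1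
    rw [zero_add] at this
    rw [this, zero_add]
  have hshift : ∀ n : ℕ, b * z1 ^ (n + p) = b * z1 ^ n := by
    intro n; rw [pow_add, hz1p, mul_one]
  by_cases hc0 : c = 0
  · subst hc0
    rw [add_zero] at ha1
    have hcomp1L : nrm p (b * z1 ^ 1) (a • Pr v + a • Pr u) = p • (a • Pr u) := by
      rw [nrm_add, nrm_of_fixed p _ _ ha1]
      have := hprojne (a • Pr v) 0 1 hV1 ha0 hp1
      rw [zero_add] at this
      rw [this, zero_add]
    rw [e1, hcomp1R] at hcomp1L
    have h1 : a • Pr u = Pr u := by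
      rw [← sub_eq_zero]
      apply hV
      rw [smul_sub, ← hcomp1L, sub_self]
    rw [hProf u huV, smul_comm] at h1
    rw [← sub_eq_zero]
    apply htors (kk + 1)
    rw [smul_sub, h1, sub_self]
  · exfalso
    -- the component of `a • Pr u` at 1 vanishes
    have h2 : nrm p (b * z1 ^ 1) (a • Pr u) = 0 := by
      have h3 : ¬ p ∣ (p - c) := by
        intro hd
        have := Nat.le_of_dvd (by omega) hd
        omega
      have := hprojne (a • Pr u) (1 + c) (p - c) hV2 ha1 h3
      have h4 : 1 + c + (p - c) = 1 + p := by omega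
      rw [h4, hshift] at this
      exact this
    have h5 : nrm p (b * z1 ^ 1) (a • Pr v) = p • Pr u := by
      have h6 : nrm p (b * z1 ^ 1) (a • Pr v + a • Pr u) = p • Pr u := by rw [e1, hcomp1R]
      rw [nrm_add, h2, add_zero] at h6
      exact h6
    by_cases hc1 : c = 1
    · subst hc1
      rw [nrm_of_fixed p _ _ ha0] at h5
      have h7 : a • Pr v = Pr u := by
        rw [← sub_eq_zero]
        apply hV
        rw [smul_sub, h5, sub_self]
      rw [h7, add_comm] at e1
      have h8 : a • Pr u = Pr v := add_right_cancel e1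
      rw [h8] at ha1
      have h9 : nrm p (b * z1 ^ (2 + (p - 2))) (Pr v) = 0 := by
        apply hprojne (Pr v) 2 (p - 2) (hPrV v) ha1
        intro hd
        have h10 := hp.out.two_le
        have h11 : 0 < p - 2 := by omega
        have := Nat.le_of_dvd h11 hd
        omega
      have h12 : 2 + (p - 2) = 0 + p := by
        have := hp.out.two_le
        omega
      rw [h12, hshift, nrm_of_fixed p _ _ hlam0] at h9
      have h13 : Pr v = 0 := hV _ h9
      rw [h13, smul_zero] at h7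
      exact hPrune h7.symm
    · have h3 : nrm p (b * z1 ^ 1) (a • Pr v) = 0 := by
        have h4 : ¬ p ∣ (p + 1 - c) := by
          intro hd
          have h5 : (p + 1 - c) < 2 * p := by omega
          obtain ⟨t, ht⟩ := hd
          have ht1 : t < 2 := by
            by_contra hcon
            push Not at hcon
            have : p * 2 ≤ p * t := Nat.mul_le_mul_left _ hcon
            omega
          interval_cases t
          · omega
          · omega
        have := hprojne (a • Pr v) c (p + 1 - c) hV1 ha0 h4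
        have h5 : c + (p + 1 - c) = 1 + p := by omega
        rw [h5, hshift] at this
        exact this
      rw [h3] at h5
      exact hPrune (hV _ h5.symm)

end Pool.Agent.helper7.Fit
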