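import Pool.Agent.helper7.Fit.Interface
import Pool.Agent.helper7.Fit.RegularOdd

/-!
The interface for normal `p`-subgroups of class at most two of `G/F(G)`, `p` odd.
-/

universe u

namespace Pool.Agent.helper7.Fit

open scoped commutatorElement

attribute [local instance] charAction

/-- For every normal `p`-subgroup `M` of `G/F(G)` of class at most two, `p` odd, there is
a subgroup `T` of `G/F(G)` with `T ∩ M = 1` meeting all but at most `m(G)` classes of `G/F(G)`. -/
theorem interface_class2 {G : Type u} [Group G] [Finite G] (p : ℕ) [hp : Fact p.Prime]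
    (hp2 : p ≠ 2)
    (M : Subgroup (G ⧸ fitting G)) [hMn : M.Normal] (hM : IsPGroup p M)
    (hcl : ∀ a ∈ M, ∀ b ∈ M, ∀ c ∈ M, ⁅a, b⁆ * c = c * ⁅a, b⁆) :
    ∃ T : Subgroup (G ⧸ fitting G), (∀ x ∈ T, x ∈ M → x = 1) ∧
      (missing (T : Set (G ⧸ fitting G))).ncard ≤ maxZeros G := by
  classical
  obtain ⟨H, hHn, hHF, hHnil, hcop, hk, hdec⟩ := exists_pprime_fitting G p
  have hFtriv : ∀ f ∈ fitting G, ∀ μ : H →* ℂˣ, f • μ = μ := by
    intro f hf μ
    obtain ⟨y, z, rfl, hz, hy⟩ := hdec f hf
    apply MonoidHom.ext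
    intro n
    rw [charAction_apply]
    have h1 : MulAut.conjNormal (y * z)⁻¹ n = (⟨z, hz⟩ : H)⁻¹ * n * ⟨z, hz⟩ := by
      apply Subtype.ext
      rw [MulAut.conjNormal_apply]
      have h2 := hy n n.2
      simp only [Subgroup.coe_mul, Subgroup.coe_inv]
      calc (y * z)⁻¹ * (n : G) * (y * z)⁻¹⁻¹ = z⁻¹ * (y⁻¹ * ((n : G) * y)) * z := by group
        _ = z⁻¹ * (y⁻¹ * (y * (n : G))) * z := by rw [h2]
        _ = z⁻¹ * (n : G) * z := by group
    rw [h1, map_mul, map_mul, map_inv, mul_comm, ← mul_assoc, mul_inv_cancel, one_mul]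
  have hV : ∀ μ : H →* ℂˣ, μ ^ p = 1 → μ = 1 := by
    intro μ hμ
    apply MonoidHom.ext
    intro n
    have h1 : (μ n) ^ p = 1 := by
      have := congrArg (fun ν : H →* ℂˣ => ν n) hμ
      exact this
    have h2 : (μ n) ^ (Nat.card H) = 1 := by
      rw [← map_pow, pow_card_eq_one', map_one]
    have h3 : orderOf (μ n) = 1 := Nat.eq_one_of_dvd_coprimes hcop
      (orderOf_dvd_of_pow_eq_one h1) (orderOf_dvd_of_pow_eq_one h2)
    exact orderOf_eq_one_iff.1 h3
  -- the action of the quotient
  let φ : G →* MulAut (H →* ℂˣ) :=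
    { toFun := fun g =>
        { toFun := fun μ => g • μ
          invFun := fun μ => g⁻¹ • μ
          left_inv := fun μ => inv_smul_smul g μ
          right_inv := fun μ => smul_inv_smul g μ
          map_mul' := fun μ ν => smul_mul' g μ ν }
      map_one' := by
        apply MulEquiv.ext
        intro μ
        exact one_smul G μ
      map_mul' := by
        intro g h
        apply MulEquiv.ext
        intro μ
        exact mul_smul g h μ }
  have hφ : ∀ f ∈ fitting G, φ f = 1 := by
    intro f hf
    apply MulEquiv.ext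
    intro μ
    exact hFtriv f hf μ
  let ψ : (G ⧸ fitting G) →* MulAut (H →* ℂˣ) := QuotientGroup.lift (fitting G) φ hφ
  have hψ : ∀ (g : G) (μ : H →* ℂˣ), ψ (QuotientGroup.mk' (fitting G) g) μ = g • μ := by
    intro g μ
    rfl
  let act : DistribMulAction M (Additive (H →* ℂˣ)) :=
    { smul := fun x μ => Additive.ofMul (ψ (x : G ⧸ fitting G) μ.toMul)
      one_smul := fun μ => by
        change Additive.ofMul (ψ ((1 : M) : G ⧸ fitting G) μ.toMul) = μ
        rw [Subgroup.coe_one, map_one]
        rfl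
      mul_smul := fun x y μ => by
        change Additive.ofMul (ψ ((x * y : M) : G ⧸ fitting G) μ.toMul) =
          Additive.ofMul (ψ (x : G ⧸ fitting G) (ψ (y : G ⧸ fitting G) μ.toMul))
        rw [Subgroup.coe_mul, map_mul]
        rfl
      smul_zero := fun x => by
        change Additive.ofMul (ψ (x : G ⧸ fitting G) 1) = 0
        rw [map_one]
        rfl
      smul_add := fun x μ ν => by
        change Additive.ofMul (ψ (x : G ⧸ fitting G) (μ.toMul * ν.toMul)) =
          Additive.ofMul (ψ (x : G ⧸ fitting G) μ.toMul * ψ (x : G ⧸ fitting G) ν.toMul)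
        rw [map_mul] }
  have hact : ∀ (x : M) (μ : Additive (H →* ℂˣ)),
      x • μ = Additive.ofMul (ψ (x : G ⧸ fitting G) μ.toMul) := fun x μ => rfl
  obtain ⟨lam, hlam⟩ := exists_regular_class2 (M := M) (V := Additive (H →* ℂˣ)) p hp2 hM
    (by
      intro a b c
      apply Subtype.ext
      exact hcl a a.2 b b.2 c c.2)
    (by
      intro a ha
      obtain ⟨g, hg⟩ := QuotientGroup.mk'_surjective (fitting G) (a : G ⧸ fitting G)
      apply Subtype.ext
      rw [← hg]
      apply (QuotientGroup.eq_one_iff _).2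
      apply mem_fitting_of_trivial p M hM H hHnil hcop hk g (by rw [hg]; exact a.2)
      intro μ
      have h1 := ha (Additive.ofMul μ)
      rw [hact, ← hg] at h1
      exact h1)
    (by
      intro v hv
      have h1 : (v.toMul) ^ p = 1 := hv
      have h2 := hV _ h1
      exact h2)
  refine ⟨(MulAction.stabilizer G lam.toMul).map (QuotientGroup.mk' (fitting G)), ?_, ?_⟩
  · rintro x ⟨g, hg, rfl⟩ hgM
    have h1 : (⟨QuotientGroup.mk' (fitting G) g, hgM⟩ : M) • lam = lam := by
      rw [hact]
      exact hg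
    have h2 := hlam _ h1
    exact congrArg Subtype.val h2
  · exact (missing_quotient_le _ _).trans (missing_stabilizer_le H lam.toMul)

end Pool.Agent.helper7.Fit
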