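import Pool.Agent.helper7.Fit.FewOrbits

/-!
Counting orbits and block systems.
-/

universe u v

namespace Pool.Agent.helper7.Fit

open scoped commutatorElement Nat

namespace BlockSystem

variable {X : Type v} {U : Type u} [Group X] [AddCommGroup U] [DistribMulAction X U]
  {ι : Type u} [Fintype ι] (BS : BlockSystem X U ι)

open Classical in
/-- The support of an element. -/
noncomputable def supp (u : U) : Finset ι := Finset.univ.filter (fun i => BS.π i u ≠ 0)

lemma mem_supp (u : U) (i : ι) : i ∈ BS.supp u ↔ BS.π i u ≠ 0 := by
  simp [supp]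

lemma card_supp_smul (x : X) (u : U) : (BS.supp (x • u)).card = (BS.supp u).card := by
  classical
  have h : BS.supp (x • u) = (BS.supp u).map (BS.τ x).toEmbedding := by
    ext j
    rw [Finset.mem_map_equiv, mem_supp, mem_supp]
    have h1 := BS.smul_eq x ((BS.τ x).symm j) u
    rw [Equiv.apply_symm_apply] at h1
    rw [← h1, not_iff_not]
    constructor
    · intro h2
      rw [← smul_zero x] at h2
      exact MulAction.injective x h2
    · intro h2
      rw [h2, smul_zero]
  rw [h, Finset.card_map]

end BlockSystem

/-- Counting orbits and support sizes. -/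
theorem local_abs (m s : ℕ) : ∃ ℓ : ℕ, ∀ (Γ U C : Type u) [Group Γ] [Finite Γ] [AddCommGroup U]
    [Finite U] [Nontrivial U] [DistribMulAction Γ U] [Finite C]
    (_hirr : ∀ W : AddSubgroup U, (∀ x : Γ, ∀ w ∈ W, x • w ∈ W) → W = ⊥ ∨ W = ⊤)
    (R : Subgroup Γ) [R.Normal] [Group.IsSolvable R] (_hRs : R.index ≤ s)
    (CC : Set C) (_hCC : CC.ncard ≤ m) (S : Set U) (c : U → C) (_hc : ∀ u ∈ S, c u ∈ CC)
    (_horb : ∀ u ∈ S, ∀ v ∈ S, c u = c v → ∃ g : Γ, g • u = v)
    (_hU : Nat.card U ≤ 4 * S.ncard)
    (_hsupp : ∀ (ι : Type u) [Fintype ι] (BS : BlockSystem Γ U ι) (t : ℕ), 1 ≤ t →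
      t + 1 ≤ Fintype.card ι → ∃ u ∈ S, (BS.supp u).card = t ∨ (BS.supp u).card = t + 1),
    ∀ g ∈ dser R ℓ, ∀ u : U, g • u = u := by
  obtain ⟨ℓ, hℓ⟩ := few_orbits.{u, u} (4 * m * s) (2 * m + 1) (by omega)
  refine ⟨ℓ, ?_⟩
  intro Γ U C _ _ _ _ _ _ _ hirr R _ _ hRs CC hCC S c hc horb hU hsupp
  classical
  let f : Γ →* Equiv.Perm U := MulAction.toPermHom Γ U
  let _ : DistribMulAction f.range U :=
    { smul := fun x u => (x : Equiv.Perm U) u
      one_smul := fun u => rfl
      mul_smul := fun x y u => rfl
      smul_zero := by
        rintro ⟨_, g, rfl⟩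
        exact smul_zero g
      smul_add := by
        rintro ⟨_, g, rfl⟩ u v
        exact smul_add g u v }
  have hf : ∀ (g : Γ) (u : U), (f.rangeRestrict g) • u = g • u := fun g u => rfl
  have hcardX : Finite f.range := inferInstance
  have hsurj : Function.Surjective f.rangeRestrict := f.rangeRestrict_surjective
  have hRm : (R.map f.rangeRestrict).Normal := Subgroup.Normal.map inferInstance _ hsurj
  have hRsolv : Group.IsSolvable (R.map f.rangeRestrict) :=
    Group.isSolvable_of_surjective (f.rangeRestrict.subgroupMap_surjective R)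
  have hSle : S.ncard ≤ Nat.card f.range * m := by
    have h1 : (S.toFinite.toFinset).card ≤ Nat.card f.range * (CC.toFinite.toFinset).card := by
      apply Finset.card_le_mul_card_image_of_maps_to (f := c)
      · intro u hu
        rw [Set.Finite.mem_toFinset] at hu ⊢
        exact hc u hu
      · intro b _
        by_cases hne : ((S.toFinite.toFinset).filter (fun a => c a = b)).Nonempty
        · obtain ⟨u0, hu0⟩ := hne
          rw [Finset.mem_filter, Set.Finite.mem_toFinset] at hu0
          have := Fintype.ofFinite f.range
          have h2 : ((S.toFinite.toFinset).filter (fun a => c a = b)) ⊆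
              Finset.univ.image (fun x : f.range => x • u0) := by
            intro u hu
            rw [Finset.mem_filter, Set.Finite.mem_toFinset] at hu
            obtain ⟨g, hg⟩ := horb u0 hu0.1 u hu.1 (hu0.2.trans hu.2.symm)
            rw [Finset.mem_image]
            exact ⟨f.rangeRestrict g, Finset.mem_univ _, hg⟩
          refine (Finset.card_le_card h2).trans ?_
          refine Finset.card_image_le.trans ?_
          rw [Finset.card_univ, Nat.card_eq_fintype_card]
        · rw [Finset.not_nonempty_iff_eq_empty] at hne
          rw [hne]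
          exact Nat.zero_le _
    rw [← Set.ncard_eq_toFinset_card, ← Set.ncard_eq_toFinset_card] at h1
    exact h1.trans (Nat.mul_le_mul_left _ hCC)
  have hmain := hℓ U f.range (by
      intro x hx
      apply Subtype.ext
      apply Equiv.ext
      intro u
      exact hx u) (by
      intro W hW
      apply hirr W
      intro g w hw
      exact hW (f.rangeRestrict g) w hw) (by
      intro ι _ BS
      let BS' : BlockSystem Γ U ι :=
        { π := BS.π
          τ := fun g => BS.τ (f.rangeRestrict g)
          sum_eq := BS.sum_eq
          ortho := BS.ortho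
          smul_eq := fun g i u => BS.smul_eq (f.rangeRestrict g) i u
          large := BS.large }
      have h1 : ∀ k : Fin (Fintype.card ι / 2), ∃ u ∈ S,
          (BS'.supp u).card = 2 * k + 1 ∨ (BS'.supp u).card = 2 * k + 1 + 1 := by
        intro k
        apply hsupp ι BS' (2 * k + 1) (by omega)
        have := k.2
        omega
      choose w hwS hw using h1
      have h2 : Function.Injective (fun k => c (w k)) := by
        intro k l hkl
        obtain ⟨g, hg⟩ := horb _ (hwS k) _ (hwS l) hkl
        have h3 := BS'.card_supp_smul g (w k)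
        rw [hg] at h3
        apply Fin.ext
        have h4 := hw k
        have h5 := hw l
        omega
      have h3 : Fintype.card ι / 2 ≤ CC.ncard := by
        have h4 : (Set.range (fun k => c (w k))).ncard = Fintype.card ι / 2 := by
          rw [← Nat.card_coe_set_eq, Nat.card_range_of_injective h2, Nat.card_fin]
        rw [← h4]
        apply Set.ncard_le_ncard _ (Set.toFinite _)
        rintro _ ⟨k, rfl⟩
        exact hc _ (hwS k)
      omega) (R.map f.rangeRestrict) (by
      have h1 : Nat.card f.range = Nat.card (R.map f.rangeRestrict) *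
          (R.map f.rangeRestrict).index := (Subgroup.card_mul_index _).symm
      have h2 : (R.map f.rangeRestrict).index ≤ s := by
        refine le_trans ?_ hRs
        apply Nat.le_of_dvd
        · exact Nat.pos_of_ne_zero Subgroup.index_ne_zero_of_finite
        · exact Subgroup.index_map_dvd R hsurj
      calc Nat.card U ≤ 4 * S.ncard := hU
        _ ≤ 4 * (Nat.card f.range * m) := Nat.mul_le_mul_left _ hSle
        _ ≤ 4 * ((Nat.card (R.map f.rangeRestrict) * s) * m) := by
            rw [h1]
            exact Nat.mul_le_mul_left _ (Nat.mul_le_mul_right _ (Nat.mul_le_mul_left _ h2))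
        _ = _ := by ring)
  intro g hg u
  have h1 : f.rangeRestrict g ∈ (dser R ℓ).map f.rangeRestrict := ⟨g, hg, rfl⟩
  rw [map_dser, hmain, Subgroup.mem_bot] at h1
  rw [← hf, h1, one_smul]

end Pool.Agent.helper7.Fit
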