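import Pool.Agent.helper7.Fit.Critical

/-!
The local theorem.
-/

universe u

namespace Pool.Agent.helper7.Fit

open scoped commutatorElement

/-- The local theorem: `p'`-elements of a high derived subgroup centralise normal
`p`-subgroups. -/
theorem local_thm (m s : ℕ) : ∃ ℓ : ℕ, ∀ (Γ : Type u) [Group Γ] [Finite Γ] (R : Subgroup Γ)
    [R.Normal] [Group.IsSolvable R] (_hRs : R.index ≤ s) (p : ℕ) [Fact p.Prime]
    (P : Subgroup Γ) [P.Normal] (_hP : IsPGroup p P)
    (_hab : ∀ A : Subgroup Γ, A ≤ P → (∀ x ∈ A, ∀ y ∈ A, x * y = y * x) →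
      ∃ T : Subgroup Γ, (∀ x ∈ T, x ∈ A → x = 1) ∧ (missing (T : Set Γ)).ncard ≤ m)
    (_hcl : p ≠ 2 → ∀ M : Subgroup Γ, M.Normal → M ≤ P →
      (∀ a ∈ M, ∀ b ∈ M, ∀ c ∈ M, ⁅a, b⁆ * c = c * ⁅a, b⁆) →
      ∃ T : Subgroup Γ, (∀ x ∈ T, x ∈ M → x = 1) ∧ (missing (T : Set Γ)).ncard ≤ m),
    ∀ g ∈ dser R ℓ, p.Coprime (orderOf g) → ∀ x ∈ P, g * x = x * g := by
  obtain ⟨ℓ, hℓ⟩ := local_abs.{u} m s
  refine ⟨ℓ, ?_⟩
  intro Γ _ _ R _ _ hRs p _ P _ hP hab hcl
  classical
  by_contra hcon
  push Not at hcon
  have hDn : (dser R ℓ).Normal := dser_normal R ℓ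
  obtain ⟨M, N, hMn, hNn, hMP, hNM, hM2, hNcent, hMN, hmax, hnot⟩ :=
    critical p (dser R ℓ) P hP hcon
  obtain ⟨U, _, _, π, hsurj, hπ, hπ0, hπc, hUfin, hUnt, hirr⟩ :=
    exists_module M N hNM hMN hmax
  have hπone : π 1 = 0 := (hπ0 1).2 N.one_mem
  have hπinv : ∀ x, π x⁻¹ = - π x := by
    intro x
    rw [eq_neg_iff_add_eq_zero, ← hπ, inv_mul_cancel, hπone]
  apply hnot
  -- it is enough to produce the set of missing elements
  obtain ⟨T, SS, hT, hSS, hcard, hsupp⟩ : ∃ (T : Subgroup Γ) (SS : Set M),
      (missing (T : Set Γ)).ncard ≤ m ∧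
      (∀ x ∈ SS, ConjClasses.mk (x : Γ) ∈ missing (T : Set Γ)) ∧
      Nat.card U ≤ 4 * (π '' SS).ncard ∧
      (∀ (ι : Type u) [Fintype ι] (BS : BlockSystem Γ U ι) (t : ℕ), 1 ≤ t →
        t + 1 ≤ Fintype.card ι → ∃ x ∈ SS, (BS.supp (π x)).card = t ∨
          (BS.supp (π x)).card = t + 1) := by
    by_cases hcase : p ≠ 2 ∨ ∀ x ∈ M, ∀ y ∈ M, x * y = y * x
    · -- first case
      obtain ⟨T, hT1, hT2⟩ : ∃ T : Subgroup Γ, (∀ x ∈ T, x ∈ M → x = 1) ∧
          (missing (T : Set Γ)).ncard ≤ m := by
        rcases hcase with h | h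
        · exact hcl h M hMn hMP hM2
        · exact hab M hMP h
      refine ⟨T, {x | π x ≠ 0}, hT2, ?_, ?_, ?_⟩
      · intro x hx t ht hmk
        rw [ConjClasses.mk_eq_mk_iff_isConj, isConj_iff] at hmk
        obtain ⟨c, hc⟩ := hmk
        apply hx
        have h1 : t ∈ M := by
          have h2 : t = c⁻¹ * x * (c⁻¹)⁻¹ := by rw [← hc]; group
          rw [h2]
          exact hMn.conj_mem _ x.2 _
        have h3 := hT1 t ht h1
        rw [h3, mul_one, mul_inv_cancel] at hc
        rw [show x = 1 from Subtype.ext hc.symm, hπone]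
      · have h1 : π '' {x | π x ≠ 0} = {u : U | u ≠ 0} := by
          ext u
          constructor
          · rintro ⟨x, hx, rfl⟩
            exact hx
          · intro hu
            obtain ⟨x, rfl⟩ := hsurj u
            exact ⟨x, hu, rfl⟩
        have h2 : {u : U | u ≠ 0} = Set.univ \ {0} := by
          ext u
          simp
        rw [h1, h2, Set.ncard_sdiff_singleton_of_mem (Set.mem_univ _), Set.ncard_univ]
        have := Finite.one_lt_card (α := U)
        omega
      · intro ι _ BS t ht htn
        obtain ⟨I, _, hI⟩ : ∃ I ⊆ (Finset.univ : Finset ι), I.card = t := by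
          apply Finset.exists_subset_card_eq
          rw [Finset.card_univ]
          omega
        obtain ⟨u, hu⟩ := BS.exists_supp I
        obtain ⟨x, rfl⟩ := hsurj u
        refine ⟨x, ?_, Or.inl (by rw [hu, hI])⟩
        intro h0
        rw [h0] at hu
        have h1 : BS.supp (0 : U) = ∅ := by
          ext i
          rw [BS.mem_supp, map_zero]
          simp
        rw [h1] at hu
        rw [← hu, Finset.card_empty] at hI
        omega
    · -- second case
      push Not at hcase
      obtain ⟨hp2, a, ha, b, hb, hab0⟩ := hcase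
      obtain ⟨T, hT1, hT2⟩ := hab N (hNM.le.trans hMP)
        (fun x hx y hy => hNcent x hx y (hNM.le hy))
      -- squares lie in N
      have hexp : ∀ u : U, u + u = 0 := by
        let W : AddSubgroup U :=
          { carrier := {u | u + u = 0}
            zero_mem' := add_zero 0
            add_mem' := by
              intro u v hu hv
              change (u + v) + (u + v) = 0
              rw [add_add_add_comm]
              rw [show u + u = 0 from hu, show v + v = 0 from hv, add_zero]
            neg_mem' := by
              intro u hu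
              change -u + -u = 0
              rw [← neg_add, show u + u = 0 from hu, neg_zero] }
        rcases hirr W (by
          intro g w hw
          change g • w + g • w = 0
          rw [← smul_add, show w + w = 0 from hw, smul_zero]) with h | h
        · exfalso
          -- the map u ↦ 2u is injective, but U is a 2-group
          have hinj : ∀ u : U, u + u = 0 → u = 0 := by
            intro u hu
            have : u ∈ W := hu
            rw [h] at this
            exact this
          have hpow : ∀ (k : ℕ) (x : M), x ^ (2 ^ k) = 1 → π x = 0 := by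
            intro k
            induction k with
            | zero =>
              intro x hx
              rw [pow_zero, pow_one] at hx
              rw [hx, hπone]
            | succ k ih =>
              intro x hx
              apply hinj
              rw [← hπ]
              apply ih
              rw [← pow_two, ← pow_mul, ← pow_succ']
              exact hx
          obtain ⟨u, hu⟩ := exists_ne (0 : U)
          obtain ⟨x, rfl⟩ := hsurj u
          obtain ⟨k, hk⟩ := hP ⟨x, hMP x.2⟩
          apply hu
          apply hpow k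
          have h1 := congrArg Subtype.val hk
          rw [hp2] at h1
          apply Subtype.ext
          exact h1
        · intro u
          have : u ∈ W := by rw [h]; exact AddSubgroup.mem_top u
          exact this
      have hsqN : ∀ x : M, ((x * x : M) : Γ) ∈ N := by
        intro x
        rw [← hπ0, hπ, hexp]
      refine ⟨T, {x | x * x ≠ 1}, hT2, ?_, ?_, ?_⟩
      · intro x hx t ht hmk
        rw [ConjClasses.mk_eq_mk_iff_isConj, isConj_iff] at hmk
        obtain ⟨c, hc⟩ := hmk
        apply hx
        have h2 : t * t = c⁻¹ * ((x * x : M) : Γ) * (c⁻¹)⁻¹ := by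
          change t * t = c⁻¹ * ((x : Γ) * x) * (c⁻¹)⁻¹
          rw [← hc]
          group
        have h1 : t * t ∈ N := by
          rw [h2]
          exact hNn.conj_mem _ (hsqN x) _
        have h3 := hT1 _ (T.mul_mem ht ht) h1
        apply Subtype.ext
        change (x : Γ) * x = 1
        rw [← hc]
        calc c * t * c⁻¹ * (c * t * c⁻¹) = c * (t * t) * c⁻¹ := by group
          _ = 1 := by rw [h3]; group
      · let a' : M := ⟨a, ha⟩
        let b' : M := ⟨b, hb⟩
        have hneab : a' * b' ≠ b' * a' := fun h => hab0 (congrArg Subtype.val h)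
        set S := π '' {x | x * x ≠ 1} with hS
        have hcover : (Set.univ : Set U) ⊆ (((fun v => v + 0) '' S) ∪
            ((fun v => v + (- π a')) '' S)) ∪ (((fun v => v + (- π b')) '' S) ∪
            ((fun v => v + (-(π a' + π b'))) '' S)) := by
          intro w _
          obtain ⟨x, rfl⟩ := hsurj w
          by_contra hnot2
          simp only [Set.mem_union, not_or] at hnot2
          obtain ⟨⟨h1, h2⟩, h3, h4⟩ := hnot2
          apply hneab
          apply comm_of_squares x a' b'
          · by_contra h
            exact h1 ⟨_, ⟨x, h, rfl⟩, add_zero _⟩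
          · by_contra h
            apply h2
            refine ⟨_, ⟨x * a', h, rfl⟩, ?_⟩
            simp only [hπ]
            abel
          · by_contra h
            apply h3
            refine ⟨_, ⟨x * b', h, rfl⟩, ?_⟩
            simp only [hπ]
            abel
          · by_contra h
            apply h4
            refine ⟨_, ⟨x * a' * b', h, rfl⟩, ?_⟩
            simp only [hπ]
            abel
        have him : ∀ c : U, ((fun v => v + c) '' S).ncard ≤ S.ncard := fun c =>
          Set.ncard_image_le (Set.toFinite _)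
        calc Nat.card U = (Set.univ : Set U).ncard := (Set.ncard_univ U).symm
          _ ≤ _ := Set.ncard_le_ncard hcover (Set.toFinite _)
          _ ≤ _ := Set.ncard_union_le _ _
          _ ≤ (S.ncard + S.ncard) + (S.ncard + S.ncard) := by
              apply add_le_add
              · exact (Set.ncard_union_le _ _).trans (add_le_add (him _) (him _))
              · exact (Set.ncard_union_le _ _).trans (add_le_add (him _) (him _))
          _ = 4 * S.ncard := by ring
      · intro ι _ BS t ht htn
        by_contra hno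
        push Not at hno
        have h1 := BS.comm_of_blocks π hπ hsurj t ht htn (by
          intro x hx
          by_contra hxx
          have := hno x hxx
          omega) ⟨a, ha⟩ ⟨b, hb⟩
        exact hab0 (congrArg Subtype.val h1)
  -- the classes
  let c : U → ConjClasses Γ := fun u =>
    if h : ∃ x ∈ SS, π x = u then ConjClasses.mk (h.choose : Γ) else ConjClasses.mk 1
  have hc : ∀ u ∈ π '' SS, ∃ x ∈ SS, π x = u ∧ c u = ConjClasses.mk (x : Γ) := by
    intro u hu
    have h : ∃ x ∈ SS, π x = u := hu
    refine ⟨h.choose, h.choose_spec.1, h.choose_spec.2, ?_⟩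
    simp only [c, dif_pos h]
  have hfinC : Finite (ConjClasses Γ) := inferInstance
  have hmain := hℓ Γ U (ConjClasses Γ) hirr R hRs (missing (T : Set Γ)) hT (π '' SS) c (by
    intro u hu
    obtain ⟨x, hx, _, hcx⟩ := hc u hu
    rw [hcx]
    exact hSS x hx) (by
    intro u hu v hv huv
    obtain ⟨x, _, hxu, hcx⟩ := hc u hu
    obtain ⟨y, _, hyv, hcy⟩ := hc v hv
    rw [hcx, hcy, ConjClasses.mk_eq_mk_iff_isConj, isConj_iff] at huv
    obtain ⟨g, hg⟩ := huv
    refine ⟨g, ?_⟩
    rw [← hxu, ← hπc, ← hyv]
    congr 1
    apply Subtype.ext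
    rw [MulAut.conjNormal_apply]
    exact hg) hcard (by
    intro ι _ BS t ht htn
    obtain ⟨x, hx, hxt⟩ := hsupp ι BS t ht htn
    exact ⟨π x, ⟨x, hx, rfl⟩, hxt⟩)
  intro g hg x hx
  have h1 := hmain g hg (π ⟨x, hx⟩)
  rw [← hπc] at h1
  have h2 : π (MulAut.conjNormal g ⟨x, hx⟩ * (⟨x, hx⟩ : M)⁻¹) = 0 := by
    rw [hπ, hπinv, h1, add_neg_cancel]
  rw [hπ0] at h2
  have h3 : ((MulAut.conjNormal g ⟨x, hx⟩ * (⟨x, hx⟩ : M)⁻¹ : M) : Γ) =
      g * x * g⁻¹ * x⁻¹ := by
    rw [Subgroup.coe_mul, MulAut.conjNormal_apply]
    rfl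
  rw [h3] at h2
  exact h2

end Pool.Agent.helper7.Fit
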