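import Pool.Agent.helper7.Fit.Interface

/-!
Assembly: the index of the Fitting subgroup is bounded in terms of `m(G)` and `|G : F_k(G)|`.
-/

universe u

namespace Pool.Agent.helper7.Fit

/-- The Sylow `p`-subgroup of the Fitting subgroup. -/
theorem exists_sylow_fitting (G : Type u) [Group G] [Finite G] (p : ℕ) [hp : Fact p.Prime] :
    ∃ P : Subgroup G, P.Normal ∧ IsPGroup p P ∧
      Nat.card P = p ^ (Nat.card (fitting G)).factorization p ∧
      fitting G ≤ P ⊔ Subgroup.centralizer (P : Set G) := by
  classical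
  have hnil : Group.IsNilpotent (fitting G) := fitting_nilpotent G
  let S : Sylow p (fitting G) := default
  have hSn : (S : Subgroup (fitting G)).Normal := inferInstance
  have hSc : (S : Subgroup (fitting G)).Characteristic := Sylow.characteristic_of_normal S hSn
  refine ⟨(S : Subgroup (fitting G)).map (fitting G).subtype, inferInstance, S.isPGroup'.map _,
    ?_, ?_⟩
  · rw [Subgroup.card_map_of_injective (Subgroup.subtype_injective _)]
    exact S.card_eq_multiplicity
  · intro x hx
    obtain ⟨H, hHc, hcop, ⟨k, hk⟩, _⟩ := exists_pprime_part (fitting G) hnil p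
    have hHn : H.Normal := inferInstance
    -- H commutes with S
    have hdisj : Disjoint (S : Subgroup (fitting G)) H := by
      rw [Subgroup.disjoint_def]
      intro y hyS hyH
      obtain ⟨j, hj⟩ := (IsPGroup.iff_orderOf.1 S.isPGroup') ⟨y, hyS⟩
      have h1 : orderOf y = p ^ j := by rw [← hj]; exact (Subgroup.orderOf_mk y hyS).symm
      have h2 : orderOf y ∣ Nat.card H := by
        rw [← Subgroup.orderOf_mk y hyH]
        exact orderOf_dvd_natCard _
      have h3 : orderOf y = 1 := Nat.eq_one_of_dvd_coprimes (Nat.Coprime.pow_left j hcop)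
        (dvd_of_eq h1) h2
      exact orderOf_eq_one_iff.1 h3
    have hcomm : ∀ y ∈ (S : Subgroup (fitting G)), ∀ z ∈ H, Commute y z := fun y hy z hz =>
      Subgroup.commute_of_normal_of_disjoint _ _ hSn hHn hdisj y z hy hz
    set n := (S : Subgroup (fitting G)).index with hn
    have hpn : p.Coprime n := by
      rw [Nat.Prime.coprime_iff_not_dvd hp.out]
      exact S.not_dvd_index
    have hx1 : (⟨x, hx⟩ : fitting G) ^ n ∈ (S : Subgroup (fitting G)) :=
      Subgroup.pow_index_mem _ _
    have hx2 : (⟨x, hx⟩ : fitting G) ^ (p ^ k) ∈ H := hk _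
    have hpkn : (p ^ k).Coprime n := Nat.Coprime.pow_left k hpn
    have hbez : (1 : ℤ) = (p ^ k : ℕ) * Nat.gcdA (p ^ k) n + n * Nat.gcdB (p ^ k) n := by
      rw [← Nat.gcd_eq_gcd_ab, hpkn]; rfl
    have hx3 : (⟨x, hx⟩ : fitting G) =
        ((⟨x, hx⟩ : fitting G) ^ n) ^ (Nat.gcdB (p ^ k) n) *
        ((⟨x, hx⟩ : fitting G) ^ (p ^ k)) ^ (Nat.gcdA (p ^ k) n) := by
      rw [← zpow_natCast, ← zpow_natCast, ← zpow_mul, ← zpow_mul, ← zpow_add, add_comm, ← hbez,
        zpow_one]
    have hx4 : x = ((((⟨x, hx⟩ : fitting G) ^ n) ^ (Nat.gcdB (p ^ k) n) : fitting G) : G) *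
        ((((⟨x, hx⟩ : fitting G) ^ (p ^ k)) ^ (Nat.gcdA (p ^ k) n) : fitting G) : G) :=
      congrArg Subtype.val hx3
    rw [hx4]
    apply Subgroup.mul_mem_sup
    · exact ⟨_, (S : Subgroup (fitting G)).zpow_mem hx1 _, rfl⟩
    · apply Subgroup.mem_centralizer_iff.2
      rintro _ ⟨y, hy, rfl⟩
      exact congrArg Subtype.val (hcomm y hy _ (H.zpow_mem hx2 _)).eq

/-- **Main step.** -/
theorem main_step {G : Type u} [Group G] [Finite G] (m b : ℕ) (hm : maxZeros G ≤ m)
    (hb : (fitting (G ⧸ fitting G)).index ≤ b) :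
    (fitting G).index ≤ CB m b ^ CB m b * b := by
  classical
  set C := CB m b with hC
  have hprime : ∀ p : ℕ, p.Prime →
      p ^ (Nat.card (fitting (G ⧸ fitting G))).factorization p ≤ C := by
    intro p hp
    have : Fact p.Prime := ⟨hp⟩
    obtain ⟨P, hPn, hP, hPcard, hFP⟩ := exists_sylow_fitting (G ⧸ fitting G) p
    rw [← hPcard]
    apply core P hP.isNilpotent b m
    · refine le_trans ?_ hb
      exact Subgroup.index_antitone hFP
    · intro A _ hAP hab
      obtain ⟨T, hT1, hT2⟩ := interface p P hP A hAP hab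
      exact ⟨T, hT1, hT2.trans hm⟩
  have hC1 : 1 ≤ C := by
    have := hprime 2 Nat.prime_two
    exact le_trans (Nat.one_le_pow _ _ (by norm_num)) this
  set N := Nat.card (fitting (G ⧸ fitting G)) with hN
  have hN0 : N ≠ 0 := Nat.card_pos.ne'
  have hcardF : N ≤ C ^ C := by
    have h1 : N = ∏ p ∈ N.primeFactors, p ^ N.factorization p :=
      (Nat.prod_factorization_pow_eq_self hN0).symm
    have h2 : ∏ p ∈ N.primeFactors, p ^ N.factorization p ≤ C ^ N.primeFactors.card :=
      Finset.prod_le_pow_card _ _ _ (fun p hp => hprime p (Nat.prime_of_mem_primeFactors hp))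
    have h3 : N.primeFactors.card ≤ C := by
      have h4 : N.primeFactors ⊆ Finset.Icc 1 C := by
        intro p hp
        have hpp := Nat.prime_of_mem_primeFactors hp
        rw [Finset.mem_Icc]
        refine ⟨hpp.one_lt.le, ?_⟩
        have h5 : 1 ≤ N.factorization p := by
          have := (hpp.dvd_iff_one_le_factorization hN0).1 (Nat.dvd_of_mem_primeFactors hp)
          exact this
        calc p = p ^ 1 := (pow_one p).symm
          _ ≤ p ^ N.factorization p := Nat.pow_le_pow_right hpp.pos h5
          _ ≤ C := hprime p hpp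
      have := Finset.card_le_card h4
      simpa using this
    calc N = ∏ p ∈ N.primeFactors, p ^ N.factorization p := h1
      _ ≤ C ^ N.primeFactors.card := h2
      _ ≤ C ^ C := Nat.pow_le_pow_right hC1 h3
  calc (fitting G).index = Nat.card (G ⧸ fitting G) := rfl
    _ = N * (fitting (G ⧸ fitting G)).index := (Subgroup.card_mul_index _).symm
    _ ≤ C ^ C * b := Nat.mul_le_mul hcardF hb

/-- For each `k`, `|G : F(G)|` is bounded when `m(G)` and `|G : F_k(G)|` are bounded. -/
theorem exists_bound (k : ℕ) : ∀ m b : ℕ, ∃ C : ℕ, ∀ (G : Type u) [Group G] [Finite G],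
    maxZeros G ≤ m → (fittingSeries G k).index ≤ b → (fitting G).index ≤ C := by
  induction k with
  | zero =>
    intro m b
    refine ⟨b, ?_⟩
    intro G _ _ _ hb
    rw [fittingSeries_zero, Subgroup.index_bot] at hb
    refine le_trans ?_ hb
    exact Nat.le_of_dvd Nat.card_pos (Subgroup.index_dvd_card _)
  | succ k ih =>
    intro m b
    obtain ⟨C, hC⟩ := ih m b
    refine ⟨CB m C ^ CB m C * C, ?_⟩
    intro G _ _ hm hb
    apply main_step m C hm
    apply hC (G ⧸ fitting G) ((maxZeros_quotient_le _).trans hm)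
    rw [← index_fittingSeries_succ]
    exact hb

/-- **Theorem.** For every `k` there is a function `f` with
`|G : F(G)| ≤ f(m(G), |G : F_k(G)|)` for every finite group `G`. -/
theorem exists_function (k : ℕ) : ∃ f : ℕ → ℕ → ℕ, ∀ (G : Type u) [Group G] [Finite G],
    (fitting G).index ≤ f (maxZeros G) (fittingSeries G k).index := by
  choose f hf using exists_bound.{u} k
  exact ⟨f, fun G _ _ => hf _ _ G le_rfl le_rfl⟩

end Pool.Agent.helper7.Fit
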