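import Mathlib

/-!
Facts about finite nilpotent groups: the `p'`-part, non-generators, and coprime action.
-/

namespace Pool.Agent.helper7.Fit

open scoped commutatorElement

section

/-- The `p'`-part of a finite nilpotent group. -/
theorem exists_pprime_part (F : Type*) [Group F] [Finite F] (hF : Group.IsNilpotent F) (p : ℕ)
    [hp : Fact p.Prime] :
    ∃ H : Subgroup F, H.Characteristic ∧ p.Coprime (Nat.card H) ∧
      (∃ k : ℕ, ∀ x : F, x ^ (p ^ k) ∈ H) ∧
      (∀ x : F, ∃ y z : F, x = y * z ∧ z ∈ H ∧ ∀ h ∈ H, y * h = h * y) := by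
  classical
  obtain ⟨e⟩ := (Group.isNilpotent_of_finite_tfae (G := F)).out 0 4 rfl rfl |>.1 hF
  set N := Nat.card F with hN
  have hN0 : N ≠ 0 := Nat.card_pos.ne'
  set k := N.factorization p with hk
  set m := N / p ^ k with hm
  have hNm : p ^ k * m = N := Nat.ordProj_mul_ordCompl_eq_self N p
  have hpm : p.Coprime m := Nat.coprime_ordCompl hp.out hN0
  have hpkm : (p ^ k).Coprime m := Nat.Coprime.pow_left k hpm
  -- coordinates different from p
  have hne : ∀ (q : N.primeFactors) (P : Sylow q F) (z : (↑P : Subgroup F)), (q : ℕ) ≠ p →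
      z ^ m = 1 := by
    intro q P z hq
    have hqp : Fact (Nat.Prime (q : ℕ)) := ⟨Nat.prime_of_mem_primeFactors q.2⟩
    obtain ⟨j, hj⟩ := (IsPGroup.iff_orderOf.1 P.isPGroup') z
    have h1 : (q : ℕ) ^ j ∣ N := by
      rw [← hj]
      exact (orderOf_dvd_natCard z).trans (Subgroup.card_subgroup_dvd_card _)
    have h2 : ((q : ℕ) ^ j).Coprime (p ^ k) :=
      Nat.Coprime.pow _ _ ((Nat.coprime_primes hqp.out hp.out).2 hq)
    have h3 : (q : ℕ) ^ j ∣ m := h2.dvd_of_dvd_mul_left (h1.trans (dvd_of_eq hNm.symm))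
    rw [← hj] at h3
    exact orderOf_dvd_iff_pow_eq_one.1 h3
  -- the coordinate p
  have heq : ∀ (q : N.primeFactors) (P : Sylow q F) (z : (↑P : Subgroup F)), (q : ℕ) = p →
      z ^ m = 1 → z = 1 := by
    intro q P z hq hz
    have hqp : Fact (Nat.Prime (q : ℕ)) := ⟨Nat.prime_of_mem_primeFactors q.2⟩
    obtain ⟨j, hj⟩ := (IsPGroup.iff_orderOf.1 P.isPGroup') z
    have h1 : (q : ℕ) ^ j ∣ m := by rw [← hj]; exact orderOf_dvd_of_pow_eq_one hz
    have h2 : ((q : ℕ) ^ j).Coprime m := Nat.Coprime.pow_left j (by rw [hq]; exact hpm)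
    have h3 : (q : ℕ) ^ j = 1 := Nat.Coprime.eq_one_of_dvd h2 h1
    rw [h3] at hj
    exact orderOf_eq_one_iff.1 hj
  have hne' : ∀ (q : N.primeFactors) (P : Sylow q F) (z : (↑P : Subgroup F)), (q : ℕ) ≠ p →
      z ^ (p ^ k) = 1 → z = 1 := by
    intro q P z hq hz
    have h1 := hne q P z hq
    have h2 : orderOf z ∣ p ^ k := orderOf_dvd_of_pow_eq_one hz
    have h3 : orderOf z ∣ m := orderOf_dvd_of_pow_eq_one h1
    have h4 : orderOf z = 1 := Nat.eq_one_of_dvd_coprimes hpkm h2 h3
    exact orderOf_eq_one_iff.1 h4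
  have hcoord : ∀ x : F, x ^ m = 1 ↔ ∀ (q : N.primeFactors) (P : Sylow q F), (q : ℕ) = p →
      e.symm x q P = 1 := by
    intro x
    constructor
    · intro hx q P hq
      apply heq q P _ hq
      have h1 : e.symm (x ^ m) = 1 := by rw [hx, map_one]
      rw [map_pow] at h1
      exact congrFun (congrFun h1 q) P
    · intro hx
      have h1 : e.symm (x ^ m) = 1 := by
        rw [map_pow]
        funext q P
        by_cases hq : (q : ℕ) = p
        · change (e.symm x q P) ^ m = 1
          rw [hx q P hq, one_pow]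
        · exact hne q P _ hq
      have h2 := congrArg e h1
      rwa [MulEquiv.apply_symm_apply, map_one] at h2
  let H : Subgroup F :=
    { carrier := {x | x ^ m = 1}
      one_mem' := one_pow m
      mul_mem' := by
        intro x y hx hy
        have hx' := (hcoord x).1 hx
        have hy' := (hcoord y).1 hy
        refine (hcoord (x * y)).2 ?_
        intro q P hq
        rw [map_mul]
        change e.symm x q P * e.symm y q P = 1
        rw [hx' q P hq, hy' q P hq, one_mul]
      inv_mem' := by
        intro x hx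
        have hx' : x ^ m = 1 := hx
        change (x⁻¹) ^ m = 1
        rw [inv_pow, hx', inv_one] }
  have hH : ∀ x, x ∈ H ↔ x ^ m = 1 := fun x => Iff.rfl
  refine ⟨H, ?_, ?_, ⟨k, ?_⟩, ?_⟩
  · rw [Subgroup.characteristic_iff_le_comap]
    intro φ x hx
    rw [Subgroup.mem_comap, hH]
    rw [hH] at hx
    change (φ x) ^ m = 1
    rw [← map_pow, hx, map_one]
  · rw [Nat.Prime.coprime_iff_not_dvd hp.out]
    intro hdvd
    obtain ⟨x, hx⟩ := exists_prime_orderOf_dvd_card' (G := H) p hdvd
    have h1 : (x : F) ^ m = 1 := x.2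
    have h2 : x ^ m = 1 := Subtype.ext h1
    have h3 : p ∣ m := by rw [← hx]; exact orderOf_dvd_of_pow_eq_one h2
    exact hp.out.one_lt.ne' (Nat.Coprime.eq_one_of_dvd hpm h3)
  · intro x
    rw [hH, ← pow_mul, hNm]
    exact pow_card_eq_one'
  · intro x
    -- Bezout
    have hbez : (1 : ℤ) = (p ^ k : ℕ) * Nat.gcdA (p ^ k) m + m * Nat.gcdB (p ^ k) m := by
      rw [← Nat.gcd_eq_gcd_ab, hpkm]; rfl
    set u := Nat.gcdA (p ^ k) m with hu
    set v := Nat.gcdB (p ^ k) m with hv
    refine ⟨x ^ ((m : ℤ) * v), x ^ (((p ^ k : ℕ) : ℤ) * u), ?_, ?_, ?_⟩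
    · rw [← zpow_add, add_comm, ← hbez, zpow_one]
    · rw [hH]
      rw [← zpow_natCast, ← zpow_mul]
      have h1 : ((p ^ k : ℕ) : ℤ) * u * (m : ℤ) = (N : ℤ) * u := by
        rw [← hNm]; push_cast; ring
      rw [h1, zpow_mul, zpow_natCast, hN, pow_card_eq_one', one_zpow]
    · intro h hh
      set y := x ^ ((m : ℤ) * v) with hy
      have hyp : y ^ (p ^ k) = 1 := by
        rw [hy, ← zpow_natCast, ← zpow_mul]
        have h1 : ((m : ℤ) * v) * ((p ^ k : ℕ) : ℤ) = (N : ℤ) * v := by
          rw [← hNm]; push_cast; ring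
        rw [h1, zpow_mul, zpow_natCast, hN, pow_card_eq_one', one_zpow]
      have hy' : e.symm (y ^ (p ^ k)) = 1 := by rw [hyp, map_one]
      rw [map_pow] at hy'
      have hh' := (hcoord h).1 hh
      apply e.symm.injective
      rw [map_mul, map_mul]
      funext q P
      change e.symm y q P * e.symm h q P = e.symm h q P * e.symm y q P
      by_cases hq : (q : ℕ) = p
      · rw [hh' q P hq, one_mul, mul_one]
      · rw [hne' q P _ hq (congrFun (congrFun hy' q) P), one_mul, mul_one]

/-- In a finite nilpotent group the commutator subgroup consists of non-generators. -/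
theorem eq_top_of_sup_commutator {H : Type*} [Group H] [Finite H] (hH : Group.IsNilpotent H)
    (K : Subgroup H) (hK : K ⊔ commutator H = ⊤) : K = ⊤ := by
  by_contra hne
  obtain ⟨M, hM, hKM⟩ := (eq_top_or_exists_le_coatom K).resolve_left hne
  have hMn : M.Normal := (Group.isNilpotent_of_finite_tfae (G := H)).out 0 2 rfl rfl |>.1 hH M hM
  have hcomm : commutator H ≤ M := by
    have hnt : Nontrivial (H ⧸ M) := QuotientGroup.nontrivial_iff.2 hM.1
    have hnil : Group.IsNilpotent (H ⧸ M) := inferInstance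
    have hZ : Subgroup.center (H ⧸ M) ≠ ⊥ := Group.IsNilpotent.center_ne_bot _
    have hlt : M < (Subgroup.center (H ⧸ M)).comap (QuotientGroup.mk' M) := by
      refine lt_of_le_of_ne ?_ ?_
      · intro x hx
        rw [Subgroup.mem_comap]
        have : QuotientGroup.mk' M x = 1 := (QuotientGroup.eq_one_iff x).2 hx
        rw [this]
        exact Subgroup.one_mem _
      · intro h
        apply hZ
        rw [eq_bot_iff]
        intro z hz
        obtain ⟨x, rfl⟩ := QuotientGroup.mk'_surjective M z
        have hx : x ∈ (Subgroup.center (H ⧸ M)).comap (QuotientGroup.mk' M) := hz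
        rw [← h] at hx
        rw [Subgroup.mem_bot]
        exact (QuotientGroup.eq_one_iff x).2 hx
    have htop := hM.2 _ hlt
    rw [commutator_def, Subgroup.commutator_le]
    intro a _ b _
    rw [← QuotientGroup.eq_one_iff, commutatorElement_def]
    have ha : QuotientGroup.mk' M a ∈ Subgroup.center (H ⧸ M) := by
      have : a ∈ (Subgroup.center (H ⧸ M)).comap (QuotientGroup.mk' M) := by
        rw [htop]; exact Subgroup.mem_top a
      exact this
    have h1 := Subgroup.mem_center_iff.1 ha (QuotientGroup.mk' M b)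
    change ((a : H ⧸ M) * (b : H ⧸ M) * (a : H ⧸ M)⁻¹ * (b : H ⧸ M)⁻¹) = 1
    have h2 : (b : H ⧸ M) * (a : H ⧸ M) = (a : H ⧸ M) * (b : H ⧸ M) := h1
    rw [← h2]
    group
  apply hM.1
  rw [eq_top_iff, ← hK]
  exact sup_le hKM hcomm

/-- **Coprime action.** An automorphism of `p`-power order of a finite nilpotent `p'`-group `H`
that acts trivially on `H/[H,H]` is trivial. -/
theorem coprime_action {H : Type*} [Group H] [Finite H] (hH : Group.IsNilpotent H) (p : ℕ)
    [hp : Fact p.Prime] (hcop : p.Coprime (Nat.card H)) (θ : MulAut H) (j : ℕ)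
    (hθ : θ ^ (p ^ j) = 1) (htriv : ∀ n : H, θ n * n⁻¹ ∈ commutator H) (n : H) : θ n = n := by
  classical
  have := Fintype.ofFinite H
  let K : Subgroup H :=
    { carrier := {x | θ x = x}
      one_mem' := map_one θ
      mul_mem' := by
        intro x y hx hy
        change θ (x * y) = x * y
        rw [map_mul, show θ x = x from hx, show θ y = y from hy]
      inv_mem' := by
        intro x hx
        change θ x⁻¹ = x⁻¹
        rw [map_inv, show θ x = x from hx] }
  have hK : K = ⊤ := by
    apply eq_top_of_sup_commutator hH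
    rw [eq_top_iff]
    intro n _
    -- the coset of n
    have hinv : ∀ x : H, n⁻¹ * θ x ∈ commutator H ↔ n⁻¹ * x ∈ commutator H := by
      intro x
      have h1 : n⁻¹ * θ x = (n⁻¹ * (θ x * x⁻¹) * n) * (n⁻¹ * x) := by group
      have h2 : n⁻¹ * (θ x * x⁻¹) * n ∈ commutator H :=
        Subgroup.Normal.conj_mem' inferInstance _ (htriv x) n
      rw [h1]
      exact Subgroup.mul_mem_cancel_left _ h2
    let σ : Equiv.Perm {x : H // n⁻¹ * x ∈ commutator H} :=
      Equiv.Perm.subtypePerm θ.toEquiv hinv
    have hσ : σ ^ (p ^ j) = 1 := by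
      have h1 : ∀ (i : ℕ) (x : {x : H // n⁻¹ * x ∈ commutator H}),
          (((σ ^ i) x : {x : H // n⁻¹ * x ∈ commutator H}) : H) = (θ ^ i) (x : H) := by
        intro i
        induction i with
        | zero => intro x; rfl
        | succ i ih =>
          intro x
          rw [pow_succ', pow_succ', Equiv.Perm.mul_apply, MulAut.mul_apply, ← ih x]
          rfl
      apply Equiv.ext
      intro x
      apply Subtype.ext
      rw [h1, hθ]
      rfl
    have hcard : Fintype.card {x : H // n⁻¹ * x ∈ commutator H} = Nat.card (commutator H) := by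
      rw [Fintype.card_eq_nat_card]
      refine Nat.card_congr (Equiv.subtypeEquiv (Equiv.mulLeft n⁻¹) ?_)
      intro x
      rfl
    have hndvd : ¬ p ∣ Fintype.card {x : H // n⁻¹ * x ∈ commutator H} := by
      rw [hcard]
      intro hd
      have : p ∣ Nat.card H := hd.trans (Subgroup.card_subgroup_dvd_card _)
      exact hp.out.one_lt.ne' (Nat.Coprime.eq_one_of_dvd hcop this)
    obtain ⟨x, hx⟩ := Equiv.Perm.exists_fixed_point_of_prime (n := j) hndvd hσ
    have hxK : (x : H) ∈ K := by
      change θ (x : H) = x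
      have := congrArg Subtype.val hx
      exact this
    have h3 : n = (x : H) * (n⁻¹ * (x : H))⁻¹ := by group
    rw [h3]
    exact Subgroup.mul_mem_sup hxK (Subgroup.inv_mem _ x.2)
  have : n ∈ K := by rw [hK]; exact Subgroup.mem_top n
  exact this

/-- Linear characters separate points modulo the commutator subgroup. -/
theorem mem_commutator_of_forall {H : Type*} [Group H] [Finite H] (x : H)
    (h : ∀ μ : H →* ℂˣ, μ x = 1) : x ∈ commutator H := by
  classical
  by_contra hx
  have hx1 : (Abelianization.of x : Abelianization H) ≠ 1 := by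
    intro h1
    apply hx
    rw [← Abelianization.ker_of]
    exact h1
  obtain ⟨φ, hφ⟩ := CommGroup.exists_apply_ne_one_of_hasEnoughRootsOfUnity
    (Abelianization H) ℂ hx1
  exact hφ (h (φ.comp Abelianization.of))

end

end Pool.Agent.helper7.Fit
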