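import Pool.Agent.helper7.Fit.Clifford
import Pool.Agent.helper7.Fit.Core

/-!
Consequences of the Clifford lemma for the number of zeros in a row of the character table.
-/

universe u

namespace Pool.Agent.helper7.Fit

open scoped MonoidAlgebra

attribute [local instance] charAction

lemma bddAbove_zeros (G : Type u) [Group G] [Finite G] :
    BddAbove {k : ℕ | ∃ (V : Type u) (_ : AddCommGroup V) (_ : Module ℂ V)
      (_ : FiniteDimensional ℂ V) (ρ : Representation ℂ G V),
      ρ.IsIrreducible ∧ k = (zeroClasses ρ).ncard} := by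
  refine ⟨Nat.card (ConjClasses G), ?_⟩
  rintro k ⟨V, _, _, _, ρ, _, rfl⟩
  rw [← Set.ncard_univ]
  exact Set.ncard_le_ncard (Set.subset_univ _) (Set.toFinite _)

lemma ncard_zeroClasses_le {G : Type u} [Group G] [Finite G] {V : Type u} [AddCommGroup V]
    [Module ℂ V] [FiniteDimensional ℂ V] (ρ : Representation ℂ G V) (hρ : ρ.IsIrreducible) :
    (zeroClasses ρ).ncard ≤ maxZeros G :=
  le_csSup (bddAbove_zeros G) ⟨V, inferInstance, inferInstance, inferInstance, ρ, hρ, rfl⟩

/-- All but at most `m(G)` classes of `G` meet the stabiliser of a linear character of a normal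
subgroup. -/
theorem missing_stabilizer_le {G : Type u} [Group G] [Finite G] (N : Subgroup G) [N.Normal]
    (lam : N →* ℂˣ) :
    (missing (MulAction.stabilizer G lam : Set G)).ncard ≤ maxZeros G := by
  classical
  have := Fintype.ofFinite N
  let e : MonoidAlgebra ℂ G := ∑ n : N, MonoidAlgebra.single (n : G) (((lam n)⁻¹ : ℂˣ) : ℂ)
  have he : e ≠ 0 := by
    intro h
    have h1 : e.coeff 1 = 0 := by rw [h]; rfl
    simp only [e, MonoidAlgebra.coeff_sum, MonoidAlgebra.coeff_single, Finsupp.coe_finsetSum,
      Finset.sum_apply, Finsupp.single_apply] at h1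
    rw [Finset.sum_eq_single (1 : N)] at h1
    · rw [if_pos (by simp)] at h1
      exact Units.ne_zero _ h1
    · intro n _ hn
      rw [if_neg]
      intro h2
      exact hn (Subtype.ext h2)
    · intro h2
      exact absurd (Finset.mem_univ _) h2
  have hmul : ∀ g : N, MonoidAlgebra.single (g : G) (1 : ℂ) * e = ((lam g : ℂˣ) : ℂ) • e := by
    intro g
    simp only [e]
    rw [Finset.mul_sum, Finset.smul_sum]
    refine Fintype.sum_equiv (Equiv.mulLeft g) _ _ ?_
    intro k
    rw [MonoidAlgebra.single_mul_single, one_mul, MonoidAlgebra.smul_single]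
    simp only [Equiv.coe_mulLeft, Subgroup.coe_mul]
    congr 1
    rw [smul_eq_mul, map_mul, mul_inv, Units.val_mul, ← mul_assoc, ← Units.val_mul,
      mul_inv_cancel, Units.val_one, one_mul]
  obtain ⟨V, i1, i2, i3, ρ, hρ, w, hw, hlam⟩ := exists_irreducible e he
  refine le_trans (Set.ncard_le_ncard ?_ (Set.toFinite _)) (ncard_zeroClasses_le ρ hρ)
  intro c hc x hx
  apply character_eq_zero ρ N hρ lam w hw (fun n => hlam _ _ (hmul n))
  intro g hg
  apply hc (g⁻¹ * x * g)
  · change (g⁻¹ * x * g) • lam = lam
    rw [mul_smul, mul_smul, hg, inv_smul_smul]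
  · rw [← hx]
    rw [ConjClasses.mk_eq_mk_iff_isConj]
    exact isConj_iff.2 ⟨g, by group⟩

lemma missing_quotient_le {G : Type u} [Group G] [Finite G] (L : Subgroup G) [L.Normal]
    (T : Subgroup G) :
    (missing ((T.map (QuotientGroup.mk' L) : Subgroup (G ⧸ L)) : Set (G ⧸ L))).ncard ≤
      (missing (T : Set G)).ncard := by
  have hsub : missing ((T.map (QuotientGroup.mk' L) : Subgroup (G ⧸ L)) : Set (G ⧸ L)) ⊆
      (ConjClasses.map (QuotientGroup.mk' L)) '' (missing (T : Set G)) := by
    intro c hc
    obtain ⟨y, rfl⟩ := ConjClasses.exists_rep c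
    obtain ⟨x, rfl⟩ := QuotientGroup.mk'_surjective L y
    refine ⟨ConjClasses.mk x, ?_, rfl⟩
    intro t ht htx
    apply hc (QuotientGroup.mk' L t) (Subgroup.mem_map_of_mem _ ht)
    have := congrArg (ConjClasses.map (QuotientGroup.mk' L)) htx
    exact this
  exact (Set.ncard_le_ncard hsub (Set.toFinite _)).trans (Set.ncard_image_le (Set.toFinite _))

/-- `m(G/L) ≤ m(G)`. -/
theorem maxZeros_quotient_le {G : Type u} [Group G] [Finite G] (L : Subgroup G) [L.Normal] :
    maxZeros (G ⧸ L) ≤ maxZeros G := by
  apply csSup_le'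
  rintro k ⟨V, _, _, _, ρ, hρ, rfl⟩
  let ρ' : Representation ℂ G V := ρ.comp (QuotientGroup.mk' L)
  have hρ' : ρ'.IsIrreducible := by
    let Φ : Subrepresentation ρ' → Subrepresentation ρ := fun W =>
      { toSubmodule := W.toSubmodule
        apply_mem_toSubmodule := by
          intro g v hv
          obtain ⟨x, rfl⟩ := QuotientGroup.mk'_surjective L g
          exact W.apply_mem_toSubmodule x hv }
    have hnt : (⊥ : Submodule ℂ V) ≠ ⊤ := by
      intro h
      have : (⊥ : Subrepresentation ρ) = ⊤ := Subrepresentation.toSubmodule_injective h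
      exact (hρ.toNontrivial.exists_pair_ne.elim fun a ⟨b, hab⟩ => by
        apply hab
        rcases hρ.eq_bot_or_eq_top a with ha | ha <;> rcases hρ.eq_bot_or_eq_top b with hb | hb <;>
          rw [ha, hb] <;> first | rfl | exact this | exact this.symm)
    refine { exists_pair_ne := ⟨⊥, ⊤, fun h => hnt (congrArg Subrepresentation.toSubmodule h)⟩
             eq_bot_or_eq_top := ?_ }
    intro W
    rcases hρ.eq_bot_or_eq_top (Φ W) with h | h
    · left
      have h1 : (Φ W).toSubmodule = (⊥ : Subrepresentation ρ).toSubmodule := by rw [h]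
      exact Subrepresentation.toSubmodule_injective h1
    · right
      have h1 : (Φ W).toSubmodule = (⊤ : Subrepresentation ρ).toSubmodule := by rw [h]
      exact Subrepresentation.toSubmodule_injective h1
  refine le_trans ?_ (ncard_zeroClasses_le ρ' hρ')
  have hsub : zeroClasses ρ ⊆ (ConjClasses.map (QuotientGroup.mk' L)) '' (zeroClasses ρ') := by
    intro c hc
    obtain ⟨y, rfl⟩ := ConjClasses.exists_rep c
    obtain ⟨x, rfl⟩ := QuotientGroup.mk'_surjective L y
    refine ⟨ConjClasses.mk x, ?_, rfl⟩
    intro t htx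
    have := congrArg (ConjClasses.map (QuotientGroup.mk' L)) htx
    exact hc _ this
  exact (Set.ncard_le_ncard hsub (Set.toFinite _)).trans (Set.ncard_image_le (Set.toFinite _))

end Pool.Agent.helper7.Fit
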