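import Pool.Agent.helper7.Fit.Over
import Pool.Agent.helper7.Fit.Nilp

/-!
Regular orbits of abelian sections on linear characters, and the interface to the core estimate.
-/

universe u

namespace Pool.Agent.helper7.Fit

/-- An abelian `p`-group acting faithfully on an abelian `p'`-group has a regular orbit (version
for a section `A/F`). -/
theorem exists_regular {G V : Type*} [Group G] [Finite G] [CommGroup V]
    [MulDistribMulAction G V] (F A : Subgroup G) (p : ℕ) [hp : Fact p.Prime]
    (hFtriv : ∀ f ∈ F, ∀ v : V, f • v = v)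
    (hAF : ∀ a ∈ A, ∀ b ∈ A, a * b * a⁻¹ * b⁻¹ ∈ F)
    (hfaith : ∀ a ∈ A, (∀ v : V, a • v = v) → a ∈ F)
    (hpow : ∀ a ∈ A, ∃ k : ℕ, a ^ (p ^ k) ∈ F)
    (hV : ∀ v : V, v ^ p = 1 → v = 1) :
    ∃ v : V, ∀ a ∈ A, a • v = v → a ∈ F := by
  classical
  let f : V → ℕ := fun v => {a : G | a ∈ A ∧ a • v = v}.ncard
  obtain ⟨v, hv⟩ : ∃ v : V, ∀ w : V, f v ≤ f w := by
    obtain ⟨v, _, hv⟩ := WellFounded.has_min (measure f).wf Set.univ ⟨1, trivial⟩
    exact ⟨v, fun w => not_lt.1 (hv w trivial)⟩
  refine ⟨v, ?_⟩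
  by_contra hcon
  push Not at hcon
  obtain ⟨b0, hb0A, hb0v, hb0F⟩ := hcon
  -- an element b with b ^ p ∈ F
  obtain ⟨b, hbA, hbv, hbF, hbp⟩ : ∃ b ∈ A, b • v = v ∧ b ∉ F ∧ b ^ p ∈ F := by
    have hex := hpow b0 hb0A
    set k := Nat.find hex with hk
    have hk1 : b0 ^ (p ^ k) ∈ F := Nat.find_spec hex
    have hk0 : k ≠ 0 := by
      intro h0
      rw [h0, pow_zero, pow_one] at hk1
      exact hb0F hk1
    obtain ⟨j, hj⟩ := Nat.exists_eq_succ_of_ne_zero hk0
    have hjF : b0 ^ (p ^ j) ∉ F := by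
      apply Nat.find_min hex
      omega
    refine ⟨b0 ^ (p ^ j), A.pow_mem hb0A _, ?_, hjF, ?_⟩
    · have : b0 ∈ MulAction.stabilizer G v := hb0v
      exact (MulAction.stabilizer G v).pow_mem this _
    · rw [← pow_mul, ← pow_succ]
      rw [hj] at hk1
      exact hk1
  -- norm map
  let Nm : V → V := fun u => ∏ i ∈ Finset.range p, (b ^ i) • u
  have hNmul : ∀ u u' : V, Nm (u * u') = Nm u * Nm u' := by
    intro u u'
    simp only [Nm]
    rw [← Finset.prod_mul_distrib]
    apply Finset.prod_congr rfl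
    intro i _
    rw [smul_mul']
  have hNcomm : ∀ a ∈ A, ∀ u : V, a • Nm u = Nm (a • u) := by
    intro a ha u
    simp only [Nm]
    rw [Finset.smul_prod']
    apply Finset.prod_congr rfl
    intro i _
    have h1 : a * b ^ i = (a * b ^ i * a⁻¹ * (b ^ i)⁻¹) * (b ^ i * a) := by group
    rw [← mul_smul, h1, mul_smul, hFtriv _ (hAF a ha _ (A.pow_mem hbA i)), mul_smul]
  have hNv : Nm v = v ^ p := by
    simp only [Nm]
    have : ∀ i ∈ Finset.range p, (b ^ i) • v = v := by
      intro i _
      have : b ∈ MulAction.stabilizer G v := hbv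
      exact (MulAction.stabilizer G v).pow_mem this i
    rw [Finset.prod_congr rfl this, Finset.prod_const, Finset.card_range]
  obtain ⟨w, hw⟩ : ∃ w : V, b • w ≠ w := by
    by_contra h
    push Not at h
    exact hbF (hfaith b hbA h)
  set u : V := (b • w) / w with hu
  have hNu : Nm u = 1 := by
    simp only [Nm, hu]
    have : ∀ i ∈ Finset.range p, (b ^ i) • ((b • w) / w) = (b ^ (i + 1) • w) / (b ^ i • w) := by
      intro i _
      rw [smul_div', ← mul_smul, ← pow_succ]
    rw [Finset.prod_congr rfl this, Finset.prod_range_div (fun i => b ^ i • w)]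
    rw [hFtriv _ hbp, pow_zero, one_smul, div_self']
  have hbu : b • u ≠ u := by
    intro h
    have h1 : Nm u = u ^ p := by
      simp only [Nm]
      have : ∀ i ∈ Finset.range p, (b ^ i) • u = u := by
        intro i _
        have : b ∈ MulAction.stabilizer G u := h
        exact (MulAction.stabilizer G u).pow_mem this i
      rw [Finset.prod_congr rfl this, Finset.prod_const, Finset.card_range]
    rw [hNu] at h1
    have h2 : u = 1 := hV u h1.symm
    apply hw
    rw [hu] at h2
    exact div_eq_one.1 h2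
  -- the new element
  have hkey : ∀ a ∈ A, a • (v * u) = v * u → a • v = v ∧ a • u = u := by
    intro a ha hau
    have h1 : Nm (v * u) = v ^ p := by rw [hNmul, hNv, hNu, mul_one]
    have h2 : a • (v ^ p) = v ^ p := by
      rw [← h1, hNcomm a ha, hau]
    have h3 : a • v = v := by
      rw [← div_eq_one]
      apply hV
      rw [div_pow, ← smul_pow', h2, div_self']
    refine ⟨h3, ?_⟩
    rw [smul_mul', h3] at hau
    exact mul_left_cancel hau
  have hlt : f (v * u) < f v := by
    apply Set.ncard_lt_ncard _ (Set.toFinite _)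
    rw [Set.ssubset_iff_of_subset]
    · refine ⟨b, ⟨hbA, hbv⟩, ?_⟩
      rintro ⟨_, h⟩
      exact hbu (hkey b hbA h).2
    · rintro a ⟨ha, h⟩
      exact ⟨ha, (hkey a ha h).1⟩
  exact absurd (hv (v * u)) (not_le.2 hlt)

end Pool.Agent.helper7.Fit
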