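import Pool.Agent.helper7.Fit.RingSys

/-!
The abstract form of the ring part.
-/

universe u v

namespace Pool.Agent.helper7.Fit

open scoped commutatorElement Nat
open Module Submodule

/-- The abstract form of the ring part. -/
theorem ring_abs {A U : Type u} {X : Type v} [CommRing A] [Finite A] [AddCommGroup U] [Finite U]
    [Nontrivial U] [Module A U] [Group X] [Finite X] [DistribMulAction X U]
    (σ : X →* RingAut A) (hσ : ∀ (x : X) (a : A) (u : U), x • (a • u) = (σ x a) • (x • u))
    (hA : ∀ a : A, (∀ u : U, a • u = 0) → a = 0)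
    (hfaith : ∀ x : X, (∀ u : U, x • u = u) → x = 1)
    (hirr : ∀ W : AddSubgroup U, (∀ x : X, ∀ w ∈ W, x • w ∈ W) → W = ⊥ ∨ W = ⊤)
    (n0 : ℕ) (hn0 : 1 ≤ n0)
    (hblocks : ∀ (ι : Type u) [Fintype ι], BlockSystem X U ι → Fintype.card ι ≤ n0)
    (B : Subgroup X) (β : X → A) (hβ : ∀ b ∈ B, ∀ u : U, b • u = β b • u)
    (hcent : ∀ x ∈ Subgroup.centralizer (B : Set X), ∀ a, σ x a = a) :
    ∃ (n Q d : ℕ) (X0 : Subgroup X), 1 ≤ n ∧ n ≤ n0 ∧ 2 ≤ Q ∧ 1 ≤ d ∧
      Nat.card U = (Q ^ d) ^ n ∧ X0.Normal ∧ X0.index ≤ n ! ∧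
      (∀ x ∈ X0, ∀ y ∈ X0, ⁅x, y⁆ ∈ Subgroup.centralizer (B : Set X)) ∧
      (∀ R0 : Subgroup X, R0 ≤ X0 →
        Nat.card R0 ≤ Nat.card (R0 ⊓ Subgroup.centralizer (B : Set X) : Subgroup X) *
          (Nat.log 2 Q) ^ n) ∧
      Nat.card B ≤ Q ^ n ∧
      (∀ w ≥ 1, {b : X | b ∈ B ∧ b ^ w = 1}.ncard ≤ w ^ n) ∧
      (∀ E : Subgroup X, B ≤ E → E ≤ Subgroup.centralizer (B : Set X) →
        (∀ e ∈ E, ∀ f ∈ E, ⁅e, f⁆ ∈ B) → (∀ e ∈ E, (∀ f ∈ E, e * f = f * e) → e ∈ B) →
        Nat.card E ≤ Nat.card B * (d ^ 2) ^ n) := by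
  classical
  have hred : IsReduced A := by
    apply reduced_of_irr (X := X) (U := U) (fun x => σ x) _ hA hirr
    intro x a u
    have : σ x (σ x⁻¹ a) = (σ x * σ x⁻¹) a := rfl
    rw [hσ, this, ← map_mul, mul_inv_cancel, map_one]
    rfl
  obtain ⟨hext, e, he1, he0⟩ := exists_idem A
  let S : Sys A U X := ⟨σ, hσ, e, hext, he1, he0⟩
  have hSσ : ∀ x, S.σ x = σ x := fun x => rfl
  have hft : Fintype (MaximalSpectrum A) := Fintype.ofFinite _
  have hAnt : Nontrivial A := by
    obtain ⟨u, hu⟩ := exists_ne (0 : U)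
    refine ⟨⟨0, 1, fun h => hu ?_⟩⟩
    rw [← one_smul A u, ← h, zero_smul]
  have hne : Nonempty (MaximalSpectrum A) := by
    obtain ⟨M, hM⟩ := Ideal.exists_maximal A
    exact ⟨⟨M, hM⟩⟩
  obtain ⟨m0⟩ := hne
  have htrans := S.transitive hA hirr
  have hfinq : ∀ m : MaximalSpectrum A, Finite (A ⧸ m.asIdeal) := fun m =>
    Finite.of_surjective _ (Ideal.Quotient.mk_surjective (I := m.asIdeal))
  have hntq : ∀ m : MaximalSpectrum A, Nontrivial (A ⧸ m.asIdeal) := fun m =>
    Ideal.Quotient.nontrivial_iff.2 m.isMaximal.ne_top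
  set Q := Nat.card (A ⧸ m0.asIdeal) with hQdef
  have hQ : ∀ m : MaximalSpectrum A, Nat.card (A ⧸ m.asIdeal) = Q := by
    intro m
    obtain ⟨x, rfl⟩ := htrans m0 m
    exact S.card_field x m0
  have hQ2 : 2 ≤ Q := by
    have := Finite.one_lt_card (α := A ⧸ m0.asIdeal)
    omega
  obtain ⟨d, hd0⟩ : ∃ d, Nat.card (torsionBySet A U (m0.asIdeal : Set A)) = Q ^ d := by
    have := m0.isMaximal
    let _ : Field (A ⧸ m0.asIdeal) := Ideal.Quotient.field m0.asIdeal
    have := Fintype.ofFinite (A ⧸ m0.asIdeal)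
    have := Fintype.ofFinite (torsionBySet A U (m0.asIdeal : Set A))
    refine ⟨finrank (A ⧸ m0.asIdeal) (torsionBySet A U (m0.asIdeal : Set A)), ?_⟩
    rw [hQdef, Nat.card_eq_fintype_card, Nat.card_eq_fintype_card]
    exact Module.card_eq_pow_finrank
  have hdm : ∀ m : MaximalSpectrum A, Nat.card (torsionBySet A U (m.asIdeal : Set A)) =
      Q ^ d := by
    intro m
    obtain ⟨x, rfl⟩ := htrans m0 m
    rw [S.card_block, hd0]
  have hcardU : Nat.card U = (Q ^ d) ^ Fintype.card (MaximalSpectrum A) := by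
    rw [S.card_eq_prod, Finset.prod_congr rfl (fun m _ => hdm m), Finset.prod_const,
      Finset.card_univ]
  have hd1 : 1 ≤ d := by
    rcases Nat.eq_zero_or_pos d with h | h
    · exfalso
      rw [h, pow_zero, one_pow] at hcardU
      have := Finite.one_lt_card (α := U)
      omega
    · exact h
  have hnpos : 1 ≤ Fintype.card (MaximalSpectrum A) :=
    Fintype.card_pos_iff.2 ⟨m0⟩
  have hblockne : ∀ m : MaximalSpectrum A, ∃ u ∈ torsionBySet A U (m.asIdeal : Set A),
      u ≠ 0 := by
    intro m
    have h1 : 1 < Nat.card (torsionBySet A U (m.asIdeal : Set A)) := by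
      rw [hdm]
      calc 1 < Q := by omega
        _ ≤ Q ^ d := Nat.le_self_pow (by omega) _
    have : Nontrivial (torsionBySet A U (m.asIdeal : Set A)) :=
      Finite.one_lt_card_iff_nontrivial.1 h1
    obtain ⟨u, hu⟩ := exists_ne (0 : torsionBySet A U (m.asIdeal : Set A))
    exact ⟨u, u.2, fun h => hu (Subtype.ext h)⟩
  -- facts on β
  have hβ1 : β 1 = 1 := by
    rw [← sub_eq_zero]
    apply hA
    intro u
    rw [sub_smul, ← hβ 1 B.one_mem, one_smul, one_smul, sub_self]
  have hβmul : ∀ b ∈ B, ∀ c ∈ B, β (b * c) = β b * β c := by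
    intro b hb c hc
    rw [← sub_eq_zero]
    apply hA
    intro u
    rw [sub_smul, ← hβ (b * c) (B.mul_mem hb hc), mul_smul, mul_smul, ← hβ c hc,
      ← hβ b hb, sub_self]
  have hβinj : ∀ b ∈ B, ∀ c ∈ B, β b = β c → b = c := by
    intro b hb c hc h
    have h1 : b⁻¹ * c = 1 := by
      apply hfaith
      intro u
      rw [mul_smul, hβ c hc, ← h, ← hβ b hb, inv_smul_smul]
    rw [inv_mul_eq_one] at h1
    exact h1
  have hcentσ : ∀ x, (∀ a, σ x a = a) → x ∈ Subgroup.centralizer (B : Set X) := by
    intro x hx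
    rw [Subgroup.mem_centralizer_iff]
    intro b hb
    have h1 : (x * b)⁻¹ * (b * x) = 1 := by
      apply hfaith
      intro u
      rw [mul_smul, inv_smul_eq_iff, mul_smul, mul_smul, hβ b hb, hβ b hb, hσ, hx]
    rw [inv_mul_eq_one] at h1
    exact h1.symm
  have hτker : ∀ x : X, S.τ x = 1 → ∀ (m : MaximalSpectrum A) (a : A),
      σ x a ∈ m.asIdeal ↔ a ∈ m.asIdeal := by
    intro x hx m a
    have := S.σ_mem_τ x m a
    rw [hx] at this
    exact this
  -- number of blocks
  have hnn0 : Fintype.card (MaximalSpectrum A) ≤ n0 := by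
    by_cases h2 : Q ^ d = 2
    · have hQ2' : Q = 2 := by
        have : Q ≤ Q ^ d := Nat.le_self_pow (by omega) _
        omega
      refine le_trans ?_ hn0
      rw [Fintype.card_le_one_iff]
      intro m m'
      obtain ⟨x, hx⟩ := htrans m m'
      have hBtriv : ∀ b ∈ B, b = 1 := by
        intro b hb
        apply hβinj b hb 1 B.one_mem
        rw [hβ1]
        apply hext
        intro m
        have h3 : (Ideal.Quotient.mk m.asIdeal) (β b) ≠ 0 := by
          intro h0
          have h4 : (Ideal.Quotient.mk m.asIdeal) (β b * β b⁻¹) = 0 := by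
            rw [map_mul, h0, zero_mul]
          rw [← hβmul b hb b⁻¹ (B.inv_mem hb), mul_inv_cancel, hβ1, map_one] at h4
          exact one_ne_zero h4
        have h5 : Nat.card (A ⧸ m.asIdeal) = 2 := by rw [hQ, hQ2']
        rw [Nat.card_eq_two_iff' (0 : A ⧸ m.asIdeal)] at h5
        obtain ⟨y, _, hy⟩ := h5
        rw [← Ideal.Quotient.eq]
        rw [hy _ h3, map_one, hy 1 one_ne_zero]
      have hx1 : S.τ x = 1 := by
        apply Equiv.ext
        intro m
        apply MaximalSpectrum.ext
        apply Ideal.ext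
        intro a
        rw [S.mem_τ, hSσ, hcent]
        · rfl
        · rw [Subgroup.mem_centralizer_iff]
          intro b hb
          rw [hBtriv b hb, one_mul, mul_one]
      rw [← hx, hx1]
      rfl
    · refine hblocks (MaximalSpectrum A) (S.blockSystem ?_)
      intro m
      have h3 : 2 < Nat.card (torsionBySet A U (m.asIdeal : Set A)) := by
        rw [hdm]
        have : Q ≤ Q ^ d := Nat.le_self_pow (by omega) _
        omega
      have := Fintype.ofFinite (torsionBySet A U (m.asIdeal : Set A))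
      have h4 : 1 < ((Finset.univ : Finset (torsionBySet A U (m.asIdeal : Set A))).erase
          0).card := by
        rw [Finset.card_erase_of_mem (Finset.mem_univ _), Finset.card_univ,
          ← Nat.card_eq_fintype_card]
        omega
      obtain ⟨a, ha, b, hb, hab⟩ := Finset.one_lt_card.1 h4
      refine ⟨a, b, fun h => hab (Subtype.ext h),
        fun h => Finset.ne_of_mem_erase ha (Subtype.ext h),
        fun h => Finset.ne_of_mem_erase hb (Subtype.ext h),
        (S.mem_block m _).1 a.2, (S.mem_block m _).1 b.2⟩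
  refine ⟨Fintype.card (MaximalSpectrum A), Q, d, S.τ.ker, hnpos, hnn0, hQ2, hd1, hcardU,
    inferInstance, ?_, ?_, ?_, ?_, ?_, ?_⟩
  · -- index
    rw [Subgroup.index_ker, ← Fintype.card_perm, ← Nat.card_eq_fintype_card]
    exact Subgroup.card_le_card_group _
  · -- commutators
    intro x hx y hy
    rw [MonoidHom.mem_ker] at hx hy
    apply hcentσ
    have hxy : ∀ a, σ x (σ y a) = σ y (σ x a) := by
      intro a
      apply hext
      intro m
      have := m.isMaximal
      let _ : Field (A ⧸ m.asIdeal) := Ideal.Quotient.field m.asIdeal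
      have hmap : ∀ z : X, S.τ z = 1 → m.asIdeal = m.asIdeal.map (σ z : A →+* A) := by
        intro z hz
        apply Ideal.ext
        intro a
        change a ∈ m.asIdeal ↔ a ∈ Ideal.map (σ z : A ≃+* A) m.asIdeal
        rw [Ideal.mem_map_of_equiv]
        constructor
        · intro h
          refine ⟨σ z⁻¹ a, ?_, S.σ_inv z a⟩
          rw [← hτker z hz]
          have := S.σ_inv z a
          rw [hSσ, hSσ] at this
          rw [this]
          exact h
        · rintro ⟨b, hb, rfl⟩
          exact (hτker z hz m b).2 hb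
      let ρx := Ideal.quotientEquiv m.asIdeal m.asIdeal (σ x : A ≃+* A) (hmap x hx)
      let ρy := Ideal.quotientEquiv m.asIdeal m.asIdeal (σ y : A ≃+* A) (hmap y hy)
      have hc := (ringAut_finite_field (A ⧸ m.asIdeal)).1 ρx ρy (Ideal.Quotient.mk _ a)
      rw [← Ideal.Quotient.eq]
      exact hc
    intro a
    have h1 : σ ⁅x, y⁆ a = σ x (σ y (σ x⁻¹ (σ y⁻¹ a))) := by
      rw [commutatorElement_def, map_mul, map_mul, map_mul]
      rfl
    have h2 := S.σ_inv x (σ y⁻¹ a)
    have h3 := S.σ_inv y a
    rw [hSσ, hSσ] at h2 h3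
    rw [h1, hxy, h2, h3]
  · -- the logarithmic bound
    intro R0 hR0
    have hker : ∀ x : R0, S.τ (x : X) = 1 := fun x => hR0 x.2
    have hmap : ∀ (z : X), S.τ z = 1 → ∀ m : MaximalSpectrum A,
        m.asIdeal = m.asIdeal.map (σ z : A →+* A) := by
      intro z hz m
      apply Ideal.ext
      intro a
      change a ∈ m.asIdeal ↔ a ∈ Ideal.map (σ z : A ≃+* A) m.asIdeal
      rw [Ideal.mem_map_of_equiv]
      constructor
      · intro h
        refine ⟨σ z⁻¹ a, ?_, S.σ_inv z a⟩
        rw [← hτker z hz]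
        have := S.σ_inv z a
        rw [hSσ, hSσ] at this
        rw [this]
        exact h
      · rintro ⟨b, hb, rfl⟩
        exact (hτker z hz m b).2 hb
    let T := ∀ m : MaximalSpectrum A, (A ⧸ m.asIdeal) ≃+* (A ⧸ m.asIdeal)
    have hfinT : ∀ m : MaximalSpectrum A, Finite ((A ⧸ m.asIdeal) ≃+* (A ⧸ m.asIdeal)) ∧
        Nat.card ((A ⧸ m.asIdeal) ≃+* (A ⧸ m.asIdeal)) ≤ Nat.log 2 Q := by
      intro m
      have := m.isMaximal
      let _ : Field (A ⧸ m.asIdeal) := Ideal.Quotient.field m.asIdeal
      have h1 := (ringAut_finite_field (A ⧸ m.asIdeal)).2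
      rw [hQ] at h1
      exact h1
    have hfinTi : ∀ m : MaximalSpectrum A, Finite ((A ⧸ m.asIdeal) ≃+* (A ⧸ m.asIdeal)) :=
      fun m => (hfinT m).1
    have hTfin : Finite T := inferInstance
    have hcardT : Nat.card T ≤ (Nat.log 2 Q) ^ Fintype.card (MaximalSpectrum A) := by
      rw [Nat.card_pi, ← Finset.card_univ]
      apply Finset.prod_le_pow_card
      intro m _
      exact (hfinT m).2
    let f : R0 → T := fun x m => Ideal.quotientEquiv m.asIdeal m.asIdeal (σ (x : X) : A ≃+* A)
      (hmap x (hker x) m)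
    have hf : ∀ (x : R0) m a, f x m (Ideal.Quotient.mk _ a) =
        Ideal.Quotient.mk m.asIdeal (σ (x : X) a) := fun x m a => rfl
    refine le_trans (card_le_of_separates R0 (R0 ⊓ Subgroup.centralizer (B : Set X))
      inf_le_left f ?_) (Nat.mul_le_mul_left _ hcardT)
    intro c c' hcc
    refine ⟨R0.mul_mem (R0.inv_mem c.2) c'.2, ?_⟩
    apply hcentσ
    intro a
    have h1 : σ (c : X) a = σ (c' : X) a := by
      apply hext
      intro m
      rw [← Ideal.Quotient.eq, ← hf, ← hf, hcc]
    have h2 := S.σ_inv' (c : X) a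
    rw [hSσ, hSσ, h1] at h2
    rw [map_mul]
    exact h2
  · -- the order of B
    have h1 : Nat.card B ≤ Nat.card A :=
      Nat.card_le_card_of_injective (fun b : B => β b)
        (fun b c h => Subtype.ext (hβinj b b.2 c c.2 h))
    have h2 : Nat.card A ≤ Nat.card (∀ m : MaximalSpectrum A, A ⧸ m.asIdeal) := by
      apply Nat.card_le_card_of_injective
        (fun a (m : MaximalSpectrum A) => Ideal.Quotient.mk m.asIdeal a)
      intro a b h
      apply hext
      intro m
      rw [← Ideal.Quotient.eq]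
      exact congrFun h m
    rw [Nat.card_pi, Finset.prod_congr rfl (fun m _ => hQ m), Finset.prod_const,
      Finset.card_univ] at h2
    exact h1.trans h2
  · -- torsion of B
    intro w hw
    let F : ∀ m : MaximalSpectrum A, Type u := fun m => {y : A ⧸ m.asIdeal // y ^ w = 1}
    have hFc : ∀ m, Nat.card (F m) ≤ w := by
      intro m
      have := m.isMaximal
      let _ : Field (A ⧸ m.asIdeal) := Ideal.Quotient.field m.asIdeal
      have h1 : ∀ y : A ⧸ m.asIdeal, y ∈ (Polynomial.nthRoots w (1 : A ⧸ m.asIdeal)).toFinset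
          ↔ y ^ w = 1 := by
        intro y
        rw [Multiset.mem_toFinset, Polynomial.mem_nthRoots (by omega)]
      have h2 : Nat.card (F m) = (Polynomial.nthRoots w (1 : A ⧸ m.asIdeal)).toFinset.card :=
        Nat.subtype_card _ h1
      rw [h2]
      exact (Multiset.toFinset_card_le _).trans (Polynomial.card_nthRoots w 1)
    have hβpow : ∀ b ∈ B, ∀ k : ℕ, β (b ^ k) = β b ^ k := by
      intro b hb k
      induction k with
      | zero => rw [pow_zero, pow_zero, hβ1]
      | succ k ih => rw [pow_succ, hβmul _ (B.pow_mem hb k) _ hb, ih, pow_succ]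
    have hFfin : ∀ m, Finite (F m) := fun m =>
      inferInstanceAs (Finite {y : A ⧸ m.asIdeal // y ^ w = 1})
    have hle : {b : X | b ∈ B ∧ b ^ w = 1}.ncard ≤ Nat.card (∀ m, F m) := by
      rw [← Nat.card_coe_set_eq]
      let f : {b : X | b ∈ B ∧ b ^ w = 1} → ∀ m, F m := fun b m =>
        ⟨Ideal.Quotient.mk m.asIdeal (β b), by
          rw [← map_pow, ← hβpow _ b.2.1, b.2.2, hβ1, map_one]⟩
      apply Nat.card_le_card_of_injective f
      intro b c hbc
      apply Subtype.ext
      apply hβinj _ b.2.1 _ c.2.1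
      apply hext
      intro m
      rw [← Ideal.Quotient.eq]
      exact congrArg Subtype.val (congrFun hbc m)
    refine hle.trans ?_
    rw [Nat.card_pi, ← Finset.card_univ]
    apply Finset.prod_le_pow_card
    intro m _
    exact hFc m
  · -- the index bound
    intro E hBE hEC hEcomm hEcent
    have hlin : ∀ (e : E) (a : A) (u : U), e • (a • u) = a • (e • u) := by
      intro e a u
      change (e : X) • (a • u) = a • ((e : X) • u)
      rw [hσ, hcent _ (hEC e.2)]
    have hblk : ∀ (e : E) (m : MaximalSpectrum A) (u : U),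
        u ∈ torsionBySet A U (m.asIdeal : Set A) → e • u ∈ torsionBySet A U
          (m.asIdeal : Set A) := by
      intro e m u hu
      rw [S.mem_block] at hu ⊢
      rw [← hlin, hu]
    let E1 : MaximalSpectrum A → Subgroup E := fun m =>
      { carrier := {x | ∀ f : E, ∀ u ∈ torsionBySet A U (m.asIdeal : Set A),
          f • (x • u) = x • (f • u)}
        one_mem' := by
          intro f u _
          rw [one_smul, one_smul]
        mul_mem' := by
          intro x y hx hy f u hu
          rw [mul_smul, mul_smul, hx f _ (hblk y m u hu), hy f u hu]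
        inv_mem' := by
          intro x hx f u hu
          have h1 := hx f _ (hblk x⁻¹ m u hu)
          rw [smul_inv_smul] at h1
          rw [h1, inv_smul_smul] }
    have hE1 : ∀ m, (E1 m).index ≤ d ^ 2 := by
      intro m
      have := m.isMaximal
      apply block_index hlin m.asIdeal (hblockne m) Q d hQ2 (hQ m) (hdm m)
      · intro e f
        refine ⟨β ((⁅f, e⁆ : E) : X), ?_⟩
        intro u
        have h1 : ((⁅f, e⁆ : E) : X) ∈ B := hEcomm f f.2 e e.2
        exact hβ _ h1 u
      · intro x hx f u hu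
        have h1 := hx f (x • (f • u)) (hblk x m _ (hblk f m u hu))
        have h2 : ⁅f, x⁆ • (x • (f • u)) = f • (x • u) := by
          rw [smul_smul, smul_smul, smul_smul]
          congr 1
          rw [commutatorElement_def]
          group
        rw [← h2, h1]
    have h1 : Nat.card E = Nat.card (⨅ m, E1 m : Subgroup E) * (⨅ m, E1 m).index :=
      (Subgroup.card_mul_index _).symm
    have h2 : (⨅ m, E1 m).index ≤ (d ^ 2) ^ Fintype.card (MaximalSpectrum A) := by
      refine (Subgroup.index_iInf_le _).trans ?_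
      rw [← Finset.card_univ]
      apply Finset.prod_le_pow_card
      intro m _
      exact hE1 m
    have h3 : Nat.card (⨅ m, E1 m : Subgroup E) ≤ Nat.card B := by
      have h4 : ∀ x : E, x ∈ (⨅ m, E1 m : Subgroup E) → (x : X) ∈ B := by
        intro x hx
        rw [Subgroup.mem_iInf] at hx
        apply hEcent x x.2
        intro f hf
        have h5 : ((x : X) * f)⁻¹ * (f * (x : X)) = 1 := by
          apply hfaith
          intro u
          rw [mul_smul, inv_smul_eq_iff]
          have h6 : u = ∑ m, S.e m • u := by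
            rw [← Finset.sum_smul, S.sum_e, one_smul]
          rw [h6, Finset.smul_sum, Finset.smul_sum]
          apply Finset.sum_congr rfl
          intro m _
          have h7 := hx m ⟨f, hf⟩ (S.e m • u) (by
            rw [S.mem_block, smul_smul, S.e_mul_self])
          rw [mul_smul, mul_smul]
          exact h7
        rw [inv_mul_eq_one] at h5
        exact h5
      apply Nat.card_le_card_of_injective
        (fun x : (⨅ m, E1 m : Subgroup E) => (⟨((x : E) : X), h4 x x.2⟩ : B))
      intro x y hxy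
      apply Subtype.ext
      apply Subtype.ext
      exact congrArg (fun b : B => (b : X)) hxy
    rw [h1]
    exact Nat.mul_le_mul h3 h2

end Pool.Agent.helper7.Fit
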