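import Pool.Agent.helper7.Fit.RingAbs

/-!
The ring generated by an abelian normal subgroup.
-/

universe u v

namespace Pool.Agent.helper7.Fit

open scoped commutatorElement Nat
open Module Submodule

/-- The ring part, for the ring generated by an abelian normal subgroup. -/
theorem ring_part {U : Type u} {X : Type v} [AddCommGroup U] [Finite U]
    [Nontrivial U] [Group X] [Finite X] [DistribMulAction X U]
    (hfaith : ∀ x : X, (∀ u : U, x • u = u) → x = 1)
    (hirr : ∀ W : AddSubgroup U, (∀ x : X, ∀ w ∈ W, x • w ∈ W) → W = ⊥ ∨ W = ⊤)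
    (n0 : ℕ) (hn0 : 1 ≤ n0)
    (hblocks : ∀ (ι : Type u) [Fintype ι], BlockSystem X U ι → Fintype.card ι ≤ n0)
    (B : Subgroup X) [hBn : B.Normal] (hBab : ∀ x ∈ B, ∀ y ∈ B, x * y = y * x) :
    ∃ (n Q d : ℕ) (X0 : Subgroup X), 1 ≤ n ∧ n ≤ n0 ∧ 2 ≤ Q ∧ 1 ≤ d ∧
      Nat.card U = (Q ^ d) ^ n ∧ X0.Normal ∧ X0.index ≤ n ! ∧
      (∀ x ∈ X0, ∀ y ∈ X0, ⁅x, y⁆ ∈ Subgroup.centralizer (B : Set X)) ∧
      (∀ R0 : Subgroup X, R0 ≤ X0 →
        Nat.card R0 ≤ Nat.card (R0 ⊓ Subgroup.centralizer (B : Set X) : Subgroup X) *
          (Nat.log 2 Q) ^ n) ∧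
      Nat.card B ≤ Q ^ n ∧
      (∀ w ≥ 1, {b : X | b ∈ B ∧ b ^ w = 1}.ncard ≤ w ^ n) ∧
      (∀ E : Subgroup X, B ≤ E → E ≤ Subgroup.centralizer (B : Set X) →
        (∀ e ∈ E, ∀ f ∈ E, ⁅e, f⁆ ∈ B) → (∀ e ∈ E, (∀ f ∈ E, e * f = f * e) → e ∈ B) →
        Nat.card E ≤ Nat.card B * (d ^ 2) ^ n) := by
  classical
  let T : X →* AddMonoid.End U := DistribMulAction.toAddMonoidEnd X U
  have hT : ∀ (x : X) (u : U), T x u = x • u := fun x u => rfl
  have hTinv : ∀ x : X, T x * T x⁻¹ = 1 := by
    intro x
    rw [← map_mul, mul_inv_cancel, map_one]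
  have hTinv' : ∀ x : X, T x⁻¹ * T x = 1 := by
    intro x
    rw [← map_mul, inv_mul_cancel, map_one]
  let s : Set (AddMonoid.End U) := T '' (B : Set X)
  have hs : ∀ f ∈ s, ∀ g ∈ s, f * g = g * f := by
    rintro _ ⟨b, hb, rfl⟩ _ ⟨c, hc, rfl⟩
    rw [← map_mul, ← map_mul, hBab b hb c hc]
  let A := Subring.closure s
  have hAcomm : ∀ a b : A, a * b = b * a := by
    have := Subring.isMulCommutative_closure hs
    intro a b
    exact mul_comm' a b
  let _ : CommRing A := { (inferInstance : Ring A) with mul_comm := hAcomm }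
  have hfinE : Finite (AddMonoid.End U) := DFunLike.finite (AddMonoid.End U)
  have hfinA : Finite A := inferInstance
  let _ : Module A U := Subsemiring.module A.toSubsemiring
  have hAs : ∀ (a : A) (u : U), a • u = (a : AddMonoid.End U) u := fun a u => rfl
  -- conjugation
  let conj : X → AddMonoid.End U →+* AddMonoid.End U := fun x =>
    { toFun := fun f => T x * f * T x⁻¹
      map_one' := by rw [mul_one, hTinv]
      map_mul' := by
        intro f g
        calc T x * (f * g) * T x⁻¹ = T x * f * 1 * g * T x⁻¹ := by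
              simp only [mul_assoc, one_mul]
          _ = _ := by rw [← hTinv' x]; simp only [mul_assoc]
      map_zero' := by rw [mul_zero, zero_mul]
      map_add' := by
        intro f g
        rw [mul_add, add_mul] }
  have hconj : ∀ x f, conj x f = T x * f * T x⁻¹ := fun x f => rfl
  have hconjA : ∀ x, ∀ f ∈ A, conj x f ∈ A := by
    intro x f hf
    have h1 : A ≤ A.comap (conj x) := by
      apply Subring.closure_le.2
      rintro _ ⟨b, hb, rfl⟩
      apply Subring.subset_closure
      refine ⟨x * b * x⁻¹, hBn.conj_mem b hb x, ?_⟩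
      rw [map_mul, map_mul]
      rfl
    exact h1 hf
  have hconjmul : ∀ x y f, conj (x * y) f = conj x (conj y f) := by
    intro x y f
    rw [hconj, hconj, hconj, map_mul, mul_inv_rev, map_mul]
    simp only [mul_assoc]
  have hconjone : ∀ f, conj 1 f = f := by
    intro f
    rw [hconj, inv_one, map_one, one_mul, mul_one]
  let σ : X →* RingAut A :=
    { toFun := fun x =>
        { toFun := fun a => ⟨conj x a, hconjA x a a.2⟩
          invFun := fun a => ⟨conj x⁻¹ a, hconjA x⁻¹ a a.2⟩
          left_inv := by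
            intro a
            apply Subtype.ext
            change conj x⁻¹ (conj x (a : AddMonoid.End U)) = a
            rw [← hconjmul, inv_mul_cancel, hconjone]
          right_inv := by
            intro a
            apply Subtype.ext
            change conj x (conj x⁻¹ (a : AddMonoid.End U)) = a
            rw [← hconjmul, mul_inv_cancel, hconjone]
          map_mul' := by
            intro a b
            apply Subtype.ext
            exact map_mul (conj x) (a : AddMonoid.End U) b
          map_add' := by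
            intro a b
            apply Subtype.ext
            exact map_add (conj x) (a : AddMonoid.End U) b }
      map_one' := by
        apply RingEquiv.ext
        intro a
        apply Subtype.ext
        exact hconjone a
      map_mul' := by
        intro x y
        apply RingEquiv.ext
        intro a
        apply Subtype.ext
        exact hconjmul x y a }
  have hσ : ∀ x (a : A), ((σ x a : A) : AddMonoid.End U) = T x * a * T x⁻¹ := fun x a => rfl
  have hβmem : ∀ b ∈ B, T b ∈ A := fun b hb => Subring.subset_closure ⟨b, hb, rfl⟩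
  let β : X → A := fun b => if h : b ∈ B then ⟨T b, hβmem b h⟩ else 0
  have hβ : ∀ b (h : b ∈ B), β b = ⟨T b, hβmem b h⟩ := by
    intro b h
    simp only [β, dif_pos h]
  apply ring_abs (A := A) (U := U) (X := X) σ _ _ hfaith hirr n0 hn0 hblocks B β _ _
  · intro x a u
    rw [hAs, hAs, hσ]
    change x • (a : AddMonoid.End U) u = x • (a : AddMonoid.End U) (x⁻¹ • (x • u))
    rw [inv_smul_smul]
  · intro a ha
    apply Subtype.ext
    apply AddMonoidHom.ext
    intro u
    exact ha u
  · intro b hb u
    rw [hβ b hb]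
    rfl
  · intro x hx a
    apply Subtype.ext
    rw [hσ]
    have h1 : A ≤ Subring.centralizer {T x} := by
      apply Subring.closure_le.2
      rintro _ ⟨b, hb, rfl⟩
      rw [SetLike.mem_coe, Subring.mem_centralizer_iff]
      rintro _ rfl
      rw [← map_mul, ← map_mul, (Subgroup.mem_centralizer_iff.1 hx b hb)]
    have h2 := (Subring.mem_centralizer_iff.1 (h1 a.2)) (T x) rfl
    rw [h2, mul_assoc, hTinv, mul_one]

end Pool.Agent.helper7.Fit
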