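import Pool.Agent.helper7.Fit.Block
import Pool.Agent.helper7.Fit.DSer

/-!
Ring theoretic part: an irreducible linear group `X` with a normal abelian subgroup `B`.
-/

universe u v

namespace Pool.Agent.helper7.Fit

open scoped commutatorElement
open Module Submodule

/-- A family of projections onto blocks that are permuted by `X` and have more than two
elements. -/
structure BlockSystem (X : Type v) (U : Type u) [Group X] [AddCommGroup U]
    [DistribMulAction X U] (ι : Type u) [Fintype ι] where
  /-- the projections -/
  π : ι → U →+ U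
  /-- the permutation action -/
  τ : X → Equiv.Perm ι
  sum_eq : ∀ u, ∑ i, π i u = u
  ortho : ∀ i j u, i ≠ j → π i (π j u) = 0
  smul_eq : ∀ x i u, x • π i u = π (τ x i) (x • u)
  large : ∀ i, ∃ a b, a ≠ b ∧ a ≠ 0 ∧ b ≠ 0 ∧ π i a = a ∧ π i b = b

/-- Reducedness of the ring acting. -/
theorem reduced_of_irr {A U : Type u} {X : Type v} [CommRing A] [Finite A] [AddCommGroup U]
    [Finite U] [Nontrivial U] [Module A U] [Group X] [DistribMulAction X U]
    (σ : X → RingAut A) (hσ' : ∀ (x : X) (a : A) (u : U), a • (x • u) = x • ((σ x⁻¹ a) • u))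
    (hA : ∀ a : A, (∀ u : U, a • u = 0) → a = 0)
    (hirr : ∀ W : AddSubgroup U, (∀ x : X, ∀ w ∈ W, x • w ∈ W) → W = ⊥ ∨ W = ⊤) :
    IsReduced A := by
  classical
  constructor
  intro a ha
  let W : AddSubgroup U :=
    { carrier := {u | ∀ a : A, IsNilpotent a → a • u = 0}
      zero_mem' := fun a _ => smul_zero a
      add_mem' := by
        intro u v hu hv a ha
        rw [smul_add, hu a ha, hv a ha, add_zero]
      neg_mem' := by
        intro u hu a ha
        rw [smul_neg, hu a ha, neg_zero] }
  have hW : W = ⊤ := by
    rcases hirr W (by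
      intro x w hw a ha
      rw [hσ', hw _ (ha.map (σ x⁻¹)), smul_zero]) with h | h
    · exfalso
      -- a simple submodule
      obtain ⟨S, hS⟩ : ∃ S : Submodule A U, IsAtom S := by
        obtain ⟨S, hS, _⟩ := (eq_bot_or_exists_atom_le (⊤ : Submodule A U)).resolve_left
          top_ne_bot
        exact ⟨S, hS⟩
      have hSW : ∀ s ∈ S, s ∈ W := by
        intro s hs a ha
        by_contra hne
        let T : Submodule A U := S.map (LinearMap.lsmul A U a)
        have hTS : T ≤ S := by
          rintro _ ⟨t, ht, rfl⟩
          exact S.smul_mem a ht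
        have hT : T = S := by
          rcases hS.le_iff.1 hTS with h1 | h1
          · exfalso
            apply hne
            have : a • s ∈ T := ⟨s, hs, rfl⟩
            rw [h1] at this
            exact (Submodule.mem_bot A).1 this
          · exact h1
        have hpow : ∀ k : ℕ, ∀ s ∈ S, ∃ t ∈ S, s = a ^ k • t := by
          intro k
          induction k with
          | zero => intro s hs; exact ⟨s, hs, by simp⟩
          | succ k ih =>
            intro s hs
            obtain ⟨t, ht, rfl⟩ := ih s hs
            have ht' : t ∈ T := by rw [hT]; exact ht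
            obtain ⟨t', ht', rfl⟩ := ht'
            refine ⟨t', ht', ?_⟩
            rw [pow_succ, mul_smul]
            rfl
        obtain ⟨k, hk⟩ := ha
        obtain ⟨t, _, ht⟩ := hpow k s hs
        apply hne
        rw [ht, hk, zero_smul, smul_zero]
      obtain ⟨s, hs, hs0⟩ := S.ne_bot_iff.1 hS.1
      have := hSW s hs
      rw [h] at this
      exact hs0 ((AddSubgroup.mem_bot).1 this)
    · exact h
  apply hA
  intro u
  have : u ∈ W := by rw [hW]; exact AddSubgroup.mem_top u
  exact this a ha

/-- The idempotents of a finite reduced ring. -/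
theorem exists_idem (A : Type u) [CommRing A] [Finite A] [IsReduced A] :
    (∀ a b : A, (∀ m : MaximalSpectrum A, a - b ∈ m.asIdeal) → a = b) ∧
    ∃ e : MaximalSpectrum A → A, (∀ m, e m - 1 ∈ (m : MaximalSpectrum A).asIdeal) ∧
      (∀ m m' : MaximalSpectrum A, m' ≠ m → e m ∈ m'.asIdeal) := by
  classical
  have hartin : IsArtinianRing A := inferInstance
  have : Fintype (MaximalSpectrum A) := Fintype.ofFinite _
  let ev := IsArtinianRing.equivPi A
  have hev : ∀ (a : A) (m : MaximalSpectrum A), ev a m = Ideal.Quotient.mk m.asIdeal a :=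
    fun a m => rfl
  refine ⟨?_, fun m => ev.symm (Pi.single m 1), ?_, ?_⟩
  · intro a b h
    apply ev.injective
    funext m
    rw [hev, hev, Ideal.Quotient.eq]
    exact h m
  · intro m
    rw [← Ideal.Quotient.eq, ← hev]
    simp only [AlgEquiv.apply_symm_apply, Pi.single_eq_same, map_one]
  · intro m m' h
    rw [← Ideal.Quotient.eq_zero_iff_mem, ← hev]
    simp only [AlgEquiv.apply_symm_apply]
    rw [Pi.single_eq_of_ne h]

end Pool.Agent.helper7.Fit
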