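import Pool.Agent.helper7.Fit.RingPart

/-!
The action on the maximal spectrum.
-/

universe u v

namespace Pool.Agent.helper7.Fit

open scoped commutatorElement
open Module Submodule

/-- A ring with idempotents for its maximal ideals and a group acting semilinearly. -/
structure Sys (A U : Type u) (X : Type v) [CommRing A] [AddCommGroup U] [Module A U]
    [Group X] [DistribMulAction X U] where
  /-- the action on the ring -/
  σ : X →* RingAut A
  hσ : ∀ (x : X) (a : A) (u : U), x • (a • u) = (σ x a) • (x • u)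
  /-- the idempotents -/
  e : MaximalSpectrum A → A
  hext : ∀ a b : A, (∀ m : MaximalSpectrum A, a - b ∈ m.asIdeal) → a = b
  he1 : ∀ m, e m - 1 ∈ (m : MaximalSpectrum A).asIdeal
  he0 : ∀ m m' : MaximalSpectrum A, m' ≠ m → e m ∈ m'.asIdeal

namespace Sys

variable {A U : Type u} {X : Type v} [CommRing A] [AddCommGroup U] [Module A U]
  [Group X] [DistribMulAction X U] (S : Sys A U X)

include S

lemma σ_inv (x : X) (a : A) : S.σ x (S.σ x⁻¹ a) = a := by
  have : S.σ x (S.σ x⁻¹ a) = (S.σ x * S.σ x⁻¹) a := rfl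
  rw [this, ← map_mul, mul_inv_cancel, map_one]
  rfl

lemma σ_inv' (x : X) (a : A) : S.σ x⁻¹ (S.σ x a) = a := by
  have := S.σ_inv x⁻¹ a
  rwa [inv_inv] at this

lemma σ_mul (x y : X) (a : A) : S.σ (x * y) a = S.σ x (S.σ y a) := by
  rw [map_mul]
  rfl

lemma smul_smul' (x : X) (a : A) (u : U) : a • (x • u) = x • ((S.σ x⁻¹ a) • u) := by
  rw [S.hσ, S.σ_inv]

omit [AddCommGroup U] [Module A U] [Group X] [DistribMulAction X U] S in
lemma one_notMem (m : MaximalSpectrum A) : (1 : A) ∉ m.asIdeal := by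
  intro h
  exact m.isMaximal.ne_top ((Ideal.eq_top_iff_one _).2 h)

lemma e_notMem (m : MaximalSpectrum A) : S.e m ∉ m.asIdeal := by
  intro h
  apply one_notMem m
  have := m.asIdeal.sub_mem h (S.he1 m)
  simpa using this

lemma e_mul_self (m : MaximalSpectrum A) : S.e m * S.e m = S.e m := by
  apply S.hext
  intro m'
  have h1 : S.e m * S.e m - S.e m = S.e m * (S.e m - 1) := by ring
  rw [h1]
  by_cases h : m' = m
  · subst h
    exact m'.asIdeal.mul_mem_left _ (S.he1 m')
  · exact m'.asIdeal.mul_mem_right _ (S.he0 m m' h)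

lemma e_mul_ne {m m' : MaximalSpectrum A} (h : m ≠ m') : S.e m * S.e m' = 0 := by
  apply S.hext
  intro m''
  rw [sub_zero]
  by_cases h1 : m'' = m
  · subst h1
    exact m''.asIdeal.mul_mem_left _ (S.he0 m' m'' h)
  · exact m''.asIdeal.mul_mem_right _ (S.he0 m m'' h1)

lemma sum_e [Fintype (MaximalSpectrum A)] : ∑ m, S.e m = 1 := by
  classical
  apply S.hext
  intro m
  have h1 : ∑ m', S.e m' - 1 = (S.e m - 1) + ∑ m' ∈ Finset.univ.erase m, S.e m' := by
    rw [← Finset.add_sum_erase Finset.univ _ (Finset.mem_univ m)]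
    ring
  rw [h1]
  apply m.asIdeal.add_mem (S.he1 m)
  apply Ideal.sum_mem
  intro m' hm'
  exact S.he0 m' m (Finset.ne_of_mem_erase hm').symm

/-- The permutation action on the maximal ideals. -/
noncomputable def τ0 (x : X) (m : MaximalSpectrum A) : MaximalSpectrum A :=
  ⟨m.asIdeal.comap (S.σ x⁻¹ : A ≃+* A), by
    have := m.isMaximal
    exact Ideal.comap_isMaximal_of_surjective _ (S.σ x⁻¹ : A ≃+* A).surjective⟩

lemma mem_τ0 (x : X) (m : MaximalSpectrum A) (a : A) :
    a ∈ (S.τ0 x m).asIdeal ↔ S.σ x⁻¹ a ∈ m.asIdeal := Iff.rfl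

lemma σ_mem_τ0 (x : X) (m : MaximalSpectrum A) (a : A) :
    S.σ x a ∈ (S.τ0 x m).asIdeal ↔ a ∈ m.asIdeal := by
  rw [mem_τ0, σ_inv']

/-- The permutation action on the maximal ideals. -/
noncomputable def τ : X →* Equiv.Perm (MaximalSpectrum A) :=
  have h1 : ∀ x y m, S.τ0 (x * y) m = S.τ0 x (S.τ0 y m) := by
    intro x y m
    apply MaximalSpectrum.ext
    apply Ideal.ext
    intro a
    rw [mem_τ0, mem_τ0, mem_τ0, mul_inv_rev, σ_mul]
  have h2 : ∀ m, S.τ0 1 m = m := by
    intro m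
    apply MaximalSpectrum.ext
    apply Ideal.ext
    intro a
    rw [mem_τ0, inv_one, map_one]
    rfl
  { toFun := fun x => ⟨S.τ0 x, S.τ0 x⁻¹, fun m => by rw [← h1, inv_mul_cancel, h2],
      fun m => by rw [← h1, mul_inv_cancel, h2]⟩
    map_one' := Equiv.ext h2
    map_mul' := fun x y => Equiv.ext (h1 x y) }

lemma mem_τ (x : X) (m : MaximalSpectrum A) (a : A) :
    a ∈ (S.τ x m).asIdeal ↔ S.σ x⁻¹ a ∈ m.asIdeal := Iff.rfl

lemma σ_mem_τ (x : X) (m : MaximalSpectrum A) (a : A) :
    S.σ x a ∈ (S.τ x m).asIdeal ↔ a ∈ m.asIdeal := by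
  rw [mem_τ, σ_inv']

lemma τ_inv (x : X) (m : MaximalSpectrum A) : S.τ x (S.τ x⁻¹ m) = m := by
  rw [map_inv]
  exact Equiv.apply_symm_apply _ _

lemma σ_e (x : X) (m : MaximalSpectrum A) : S.σ x (S.e m) = S.e (S.τ x m) := by
  apply S.hext
  intro m'
  by_cases h : m' = S.τ x m
  · subst h
    have h1 : S.σ x (S.e m) - S.e (S.τ x m) =
        S.σ x (S.e m - 1) - (S.e (S.τ x m) - 1) := by
      rw [map_sub, map_one]
      ring
    rw [h1]
    exact Ideal.sub_mem _ ((S.σ_mem_τ x m _).2 (S.he1 m)) (S.he1 _)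
  · apply Ideal.sub_mem _ _ (S.he0 _ _ h)
    rw [← S.τ_inv x m', S.σ_mem_τ]
    apply S.he0
    rintro rfl
    exact h (S.τ_inv x m').symm

lemma mem_block (m : MaximalSpectrum A) (u : U) :
    u ∈ torsionBySet A U (m.asIdeal : Set A) ↔ S.e m • u = u := by
  rw [mem_torsionBySet_iff]
  constructor
  · intro h
    have h1 := h ⟨_, S.he1 m⟩
    have h2 : (S.e m - 1) • u = 0 := h1
    rw [sub_smul, one_smul, sub_eq_zero] at h2
    exact h2
  · intro h a
    have h1 : ((a : A) * S.e m) = 0 := by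
      apply S.hext
      intro m'
      rw [sub_zero]
      by_cases h' : m' = m
      · subst h'
        exact m'.asIdeal.mul_mem_right _ a.2
      · exact m'.asIdeal.mul_mem_left _ (S.he0 m m' h')
    change (a : A) • u = 0
    rw [← h, smul_smul, h1, zero_smul]

lemma smul_mem_block (x : X) (m : MaximalSpectrum A) (u : U) :
    x • u ∈ torsionBySet A U ((S.τ x m).asIdeal : Set A) ↔
      u ∈ torsionBySet A U (m.asIdeal : Set A) := by
  rw [S.mem_block, S.mem_block, ← S.σ_e, ← S.hσ]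
  exact (MulAction.injective x).eq_iff

lemma card_block (x : X) (m : MaximalSpectrum A) :
    Nat.card (torsionBySet A U ((S.τ x m).asIdeal : Set A)) =
      Nat.card (torsionBySet A U (m.asIdeal : Set A)) := by
  symm
  apply Nat.card_congr
  refine ⟨fun u => ⟨x • (u : U), (S.smul_mem_block x m u).2 u.2⟩,
    fun u => ⟨x⁻¹ • (u : U), ?_⟩, ?_, ?_⟩
  · rw [← S.smul_mem_block x, smul_inv_smul]
    exact u.2
  · intro u
    apply Subtype.ext
    exact inv_smul_smul x (u : U)
  · intro u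
    apply Subtype.ext
    exact smul_inv_smul x (u : U)

lemma card_field (x : X) (m : MaximalSpectrum A) :
    Nat.card (A ⧸ (S.τ x m).asIdeal) = Nat.card (A ⧸ m.asIdeal) := by
  symm
  apply Nat.card_congr
  refine (Ideal.quotientEquiv m.asIdeal (S.τ x m).asIdeal (S.σ x : A ≃+* A) ?_).toEquiv
  apply Ideal.ext
  intro a
  change a ∈ (S.τ x m).asIdeal ↔ a ∈ Ideal.map (S.σ x : A ≃+* A) m.asIdeal
  rw [Ideal.mem_map_of_equiv, mem_τ]
  constructor
  · intro h
    exact ⟨_, h, S.σ_inv x a⟩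
  · rintro ⟨b, hb, rfl⟩
    have : S.σ x⁻¹ ((S.σ x : A ≃+* A) b) = b := S.σ_inv' x b
    rw [this]
    exact hb

/-- The block system. -/
noncomputable def blockSystem [Fintype (MaximalSpectrum A)]
    (hl : ∀ m : MaximalSpectrum A, ∃ a b : U, a ≠ b ∧ a ≠ 0 ∧ b ≠ 0 ∧ S.e m • a = a ∧
      S.e m • b = b) : BlockSystem X U (MaximalSpectrum A) where
  π := fun m => DistribSMul.toAddMonoidHom U (S.e m)
  τ := S.τ
  sum_eq := by
    intro u
    have h1 : ∀ m, DistribSMul.toAddMonoidHom U (S.e m) u = S.e m • u := fun m => rfl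
    simp only [h1]
    rw [← Finset.sum_smul, S.sum_e, one_smul]
  ortho := by
    intro m m' u h
    change S.e m • (S.e m' • u) = 0
    rw [smul_smul, S.e_mul_ne h, zero_smul]
  smul_eq := by
    intro x m u
    change x • (S.e m • u) = S.e (S.τ x m) • (x • u)
    rw [S.hσ, S.σ_e]
  large := hl

lemma transitive [Nontrivial U] (hA : ∀ a : A, (∀ u : U, a • u = 0) → a = 0)
    (hirr : ∀ W : AddSubgroup U, (∀ x : X, ∀ w ∈ W, x • w ∈ W) → W = ⊥ ∨ W = ⊤)
    (m m' : MaximalSpectrum A) : ∃ x, S.τ x m = m' := by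
  classical
  have he_ne : ∀ m, S.e m ≠ 0 := by
    intro m h
    apply S.e_notMem m
    rw [h]
    exact m.asIdeal.zero_mem
  let W : AddSubgroup U :=
    { carrier := {u | ∀ m' : MaximalSpectrum A, (¬ ∃ x, S.τ x m = m') → S.e m' • u = 0}
      zero_mem' := fun a _ => smul_zero _
      add_mem' := by
        intro u v hu hv a ha
        rw [smul_add, hu a ha, hv a ha, add_zero]
      neg_mem' := by
        intro u hu a ha
        rw [smul_neg, hu a ha, neg_zero] }
  rcases hirr W (by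
    intro x w hw m' hm'
    rw [S.smul_smul', S.σ_e, hw, smul_zero]
    rintro ⟨y, hy⟩
    apply hm'
    refine ⟨x * y, ?_⟩
    rw [map_mul, Equiv.Perm.mul_apply, hy, S.τ_inv]) with h | h
  · exfalso
    have h1 : ∃ u : U, S.e m • u ≠ 0 := by
      by_contra hcon
      push Not at hcon
      exact he_ne m (hA _ hcon)
    obtain ⟨u, hu⟩ := h1
    apply hu
    have h2 : S.e m • u ∈ W := by
      intro m' hm'
      rw [smul_smul, S.e_mul_ne, zero_smul]
      rintro rfl
      exact hm' ⟨1, by rw [map_one]; rfl⟩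
    rw [h] at h2
    exact AddSubgroup.mem_bot.1 h2
  · by_contra hcon
    apply he_ne m'
    apply hA
    intro u
    have h2 : u ∈ W := by rw [h]; exact AddSubgroup.mem_top u
    exact h2 m' hcon

lemma card_eq_prod [Fintype (MaximalSpectrum A)] :
    Nat.card U = ∏ m : MaximalSpectrum A, Nat.card (torsionBySet A U (m.asIdeal : Set A)) := by
  classical
  rw [← Nat.card_pi]
  apply Nat.card_congr
  have hsm : ∀ (m : MaximalSpectrum A) (u : U), S.e m • u ∈
      torsionBySet A U (m.asIdeal : Set A) := by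
    intro m u
    rw [S.mem_block, smul_smul, S.e_mul_self]
  refine ⟨fun u m => ⟨S.e m • u, hsm m u⟩, fun f => ∑ m, (f m : U), ?_, ?_⟩
  · intro u
    change ∑ m, S.e m • u = u
    rw [← Finset.sum_smul, S.sum_e, one_smul]
  · intro f
    funext m
    apply Subtype.ext
    change S.e m • ∑ m', (f m' : U) = f m
    rw [Finset.smul_sum, Finset.sum_eq_single m]
    · exact (S.mem_block m _).1 (f m).2
    · intro m' _ hm'
      rw [← (S.mem_block m' _).1 (f m').2, smul_smul, S.e_mul_ne hm'.symm, zero_smul]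
    · intro h
      exact absurd (Finset.mem_univ m) h

end Sys

end Pool.Agent.helper7.Fit
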