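import Pool.Agent.helper7.Fit.LocalThm
import Pool.Agent.helper7.Fit.Interface2
import Pool.Agent.helper7.Fit.Main

/-!
Assembly: the index of the Fitting subgroup is bounded in terms of `m(G)` and the index of a
solvable normal subgroup.
-/

universe u

namespace Pool.Agent.helper7.Fit

open scoped commutatorElement

/-- A group of class at most two is nilpotent. -/
lemma nilpotent_of_class2 (H : Type*) [Group H] (h : ∀ a b c : H, ⁅a, b⁆ * c = c * ⁅a, b⁆) :
    Group.IsNilpotent H := by
  rw [Subgroup.nilpotent_iff_lowerCentralSeries]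
  refine ⟨2, ?_⟩
  rw [Subgroup.lowerCentralSeries_succ, Subgroup.lowerCentralSeries_succ,
    Subgroup.lowerCentralSeries_zero, Subgroup.commutator_eq_bot_iff_le_centralizer,
    Subgroup.commutator_le]
  intro a _ b _
  rw [Subgroup.mem_centralizer_iff]
  intro c _
  exact (h a b c).symm

/-- A normal subgroup of a solvable normal subgroup whose `p'`-elements centralise the normal
`p`-subgroups, for all `p`, lies in the second Fitting subgroup. -/
theorem le_fitting_two {Γ : Type u} [Group Γ] [Finite Γ] (D : Subgroup Γ) [hDn : D.Normal]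
    [hDs : Group.IsSolvable D]
    (h : ∀ (p : ℕ) [Fact p.Prime] (P : Subgroup Γ), P.Normal → IsPGroup p P →
      ∀ g ∈ D, p.Coprime (orderOf g) → ∀ x ∈ P, g * x = x * g) :
    D ≤ fittingSeries Γ 2 := by
  classical
  set F := fitting Γ with hF
  have hsyl : ∀ p : (Nat.card F).primeFactors, ∃ P : Subgroup Γ, P.Normal ∧ IsPGroup p P ∧
      Nat.card P = (p : ℕ) ^ (Nat.card F).factorization p := by
    intro p
    have : Fact (p : ℕ).Prime := ⟨Nat.prime_of_mem_primeFactors p.2⟩
    obtain ⟨P, h1, h2, h3, _⟩ := exists_sylow_fitting Γ p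
    exact ⟨P, h1, h2, h3⟩
  choose P hPn hPp hPc using hsyl
  have hPF : ∀ p, P p ≤ F := by
    intro p
    have : Fact (p : ℕ).Prime := ⟨Nat.prime_of_mem_primeFactors p.2⟩
    exact le_fitting _ (hPn p) (hPp p).isNilpotent
  -- elements centralising all `P p` centralise `F`
  have hcentF : ∀ x : Γ, (∀ p, ∀ y ∈ P p, x * y = y * x) → ∀ y ∈ F, x * y = y * x := by
    intro x hx
    let K : Subgroup Γ := F ⊓ Subgroup.centralizer {x}
    have hKF : K ≤ F := inf_le_left
    have hPK : ∀ p, P p ≤ K := by
      intro p y hy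
      refine ⟨hPF p hy, Subgroup.mem_centralizer_iff.2 ?_⟩
      rintro _ rfl
      exact hx p y hy
    have hF0 : Nat.card F ≠ 0 := Nat.card_pos.ne'
    have hdvd : Nat.card F ∣ Nat.card K := by
      rw [← Nat.factorization_prime_le_iff_dvd hF0 Nat.card_pos.ne']
      intro p hp
      by_cases hpF : p ∈ (Nat.card F).primeFactors
      · have h1 : p ^ (Nat.card F).factorization p ∣ Nat.card K := by
          have h2 := Subgroup.card_dvd_of_le (hPK ⟨p, hpF⟩)
          rw [hPc] at h2
          exact h2
        exact (hp.pow_dvd_iff_le_factorization Nat.card_pos.ne').1 h1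
      · have : (Nat.card F).factorization p = 0 := by
          rw [← Finsupp.notMem_support_iff, Nat.support_factorization]
          exact hpF
        omega
    have hKeq : K = F := by
      apply Subgroup.eq_of_le_of_card_ge hKF
      exact Nat.le_of_dvd Nat.card_pos hdvd
    intro y hy
    rw [← hKeq] at hy
    exact (Subgroup.mem_centralizer_iff.1 hy.2) x rfl
  -- the centraliser
  let C : Subgroup Γ := D ⊓ Subgroup.centralizer (F : Set Γ)
  have hCn : C.Normal := inferInstance
  have hCs : Group.IsSolvable C :=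
    Group.isSolvable_of_isSolvable_injective (f := Subgroup.inclusion (inf_le_left : C ≤ D))
      (Subgroup.inclusion_injective _)
  have hCF : C ≤ F := by
    apply le_of_solvable
    intro Y hY hYC hYF
    apply le_fitting _ hY
    apply nilpotent_of_class2
    intro a b c
    apply Subtype.ext
    change ((⁅a, b⁆ : Y) : Γ) * c = c * ((⁅a, b⁆ : Y) : Γ)
    have h1 : ((⁅a, b⁆ : Y) : Γ) ∈ F := hYF (Subgroup.commutator_mem_commutator a.2 b.2)
    exact (Subgroup.mem_centralizer_iff.1 (hYC c.2).2) _ h1
  -- the map to the product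
  let NN : (Nat.card F).primeFactors → Subgroup D := fun p =>
    (Subgroup.centralizer (P p : Set Γ)).subgroupOf D
  have hNNn : ∀ p, (NN p).Normal := by
    intro p
    have := hPn p
    infer_instance
  have hNNp : ∀ p, Group.IsNilpotent (D ⧸ NN p) := by
    intro p
    have hpp : Fact (p : ℕ).Prime := ⟨Nat.prime_of_mem_primeFactors p.2⟩
    have hpg : IsPGroup p (D ⧸ NN p) := by
      intro q
      obtain ⟨g, rfl⟩ := QuotientGroup.mk_surjective q
      refine ⟨(orderOf g).factorization p, ?_⟩
      rw [← QuotientGroup.mk_pow, QuotientGroup.eq_one_iff, Subgroup.mem_subgroupOf,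
        Subgroup.mem_centralizer_iff]
      intro x hx
      have h1 : (p : ℕ).Coprime (orderOf ((g ^ (p : ℕ) ^ (orderOf g).factorization p : D) : Γ)) := by
        rw [Subgroup.orderOf_coe, orderOf_pow_of_dvd (pow_ne_zero _ hpp.out.ne_zero)
          (Nat.ordProj_dvd (orderOf g) p)]
        exact Nat.coprime_ordCompl hpp.out (orderOf_pos g).ne'
      exact (h p (P p) (hPn p) (hPp p) _ (g ^ (p : ℕ) ^ (orderOf g).factorization p : D).2 h1
        x hx).symm
    exact hpg.isNilpotent
  let φ : D →* (∀ p, D ⧸ NN p) :=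
    { toFun := fun x p => QuotientGroup.mk x
      map_one' := rfl
      map_mul' := fun x y => rfl }
  have hnilrange : Group.IsNilpotent φ.range := inferInstance
  have hker : ∀ x : D, x ∈ φ.ker → (x : Γ) ∈ F := by
    intro x hx
    apply hCF
    refine ⟨x.2, Subgroup.mem_centralizer_iff.2 ?_⟩
    intro y hy
    apply (hcentF x _ y hy).symm
    intro p z hz
    rw [MonoidHom.mem_ker] at hx
    have h1 : (QuotientGroup.mk x : D ⧸ NN p) = 1 := congrFun hx p
    rw [QuotientGroup.eq_one_iff, Subgroup.mem_subgroupOf, Subgroup.mem_centralizer_iff] at h1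
    exact (h1 z hz).symm
  have hnilq : Group.IsNilpotent (D ⧸ φ.ker) :=
    Group.nilpotent_of_mulEquiv (QuotientGroup.quotientKerEquivRange φ).symm
  let ψ : D →* D.map (QuotientGroup.mk' F) := (QuotientGroup.mk' F).subgroupMap D
  have hψ : Function.Surjective ψ := (QuotientGroup.mk' F).subgroupMap_surjective D
  have hψker : φ.ker ≤ ψ.ker := by
    intro x hx
    rw [MonoidHom.mem_ker]
    apply Subtype.ext
    exact (QuotientGroup.eq_one_iff _).2 (hker x hx)
  have hnilmap : Group.IsNilpotent (D.map (QuotientGroup.mk' F)) := by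
    apply Group.nilpotent_of_surjective (QuotientGroup.lift φ.ker ψ hψker)
    intro y
    obtain ⟨x, hx⟩ := hψ y
    exact ⟨QuotientGroup.mk x, hx⟩
  have hle : D.map (QuotientGroup.mk' F) ≤ fitting (Γ ⧸ F) :=
    le_fitting _ (Subgroup.Normal.map hDn _ (QuotientGroup.mk'_surjective F)) hnilmap
  rw [fittingSeries_succ', fittingSeries_one, ← Subgroup.map_le_iff_le_comap]
  exact hle

/-- Climbing the Fitting series with an abelian-by-… argument. -/
theorem le_fittingSeries_add {G : Type u} [Group G] [Finite G] (R : Subgroup G) [R.Normal]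
    (ℓ : ℕ) : ∀ k : ℕ, dser R ℓ ≤ fittingSeries G k → R ≤ fittingSeries G (k + ℓ) := by
  induction ℓ with
  | zero =>
    intro k hk
    exact hk
  | succ ℓ ih =>
    intro k hk
    have h1 : dser R ℓ ≤ fittingSeries G (k + 1) := by
      rw [fittingSeries_succ, ← Subgroup.map_le_iff_le_comap]
      apply le_fitting _ (Subgroup.Normal.map (dser_normal R ℓ) _
        (QuotientGroup.mk'_surjective _))
      apply nilpotent_of_class2
      intro a b c
      have h2 : ⁅a, b⁆ = 1 := by
        obtain ⟨_, x, hx, rfl⟩ := a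
        obtain ⟨_, y, hy, rfl⟩ := b
        apply Subtype.ext
        change ⁅QuotientGroup.mk' (fittingSeries G k) x,
          QuotientGroup.mk' (fittingSeries G k) y⁆ = 1
        rw [← map_commutatorElement]
        rw [dser_succ] at hk
        exact (QuotientGroup.eq_one_iff _).2 (hk (Subgroup.commutator_mem_commutator hx hy))
      rw [h2, one_mul, mul_one]
    have h3 := ih (k + 1) h1
    rw [show k + (ℓ + 1) = k + 1 + ℓ by ring]
    exact h3

/-- **Main theorem, bound form.** -/
theorem exists_bound_solvable (m s : ℕ) : ∃ C : ℕ, ∀ (G : Type u) [Group G] [Finite G]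
    (R : Subgroup G) [R.Normal] [Group.IsSolvable R], maxZeros G ≤ m → R.index ≤ s →
    (fitting G).index ≤ C := by
  obtain ⟨ℓ, hℓ⟩ := local_thm.{u} m s
  obtain ⟨C, hC⟩ := exists_bound.{u} (3 + ℓ) m s
  refine ⟨C, ?_⟩
  intro G _ _ R hRn hRs hm hs
  apply hC G hm
  have hRmn : (R.map (QuotientGroup.mk' (fitting G))).Normal :=
    Subgroup.Normal.map hRn _ (QuotientGroup.mk'_surjective _)
  have hRms : Group.IsSolvable (R.map (QuotientGroup.mk' (fitting G))) :=
    Group.isSolvable_of_surjective ((QuotientGroup.mk' (fitting G)).subgroupMap_surjective R)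
  have hRmi : (R.map (QuotientGroup.mk' (fitting G))).index ≤ s := by
    refine le_trans ?_ hs
    apply Nat.le_of_dvd
    · exact Nat.pos_of_ne_zero Subgroup.index_ne_zero_of_finite
    · exact Subgroup.index_map_dvd R (QuotientGroup.mk'_surjective _)
  have hDn : (dser (R.map (QuotientGroup.mk' (fitting G))) ℓ).Normal := dser_normal _ ℓ
  have hDs : Group.IsSolvable (dser (R.map (QuotientGroup.mk' (fitting G))) ℓ) :=
    Group.isSolvable_of_isSolvable_injective (f := Subgroup.inclusion (dser_le _ ℓ))
      (Subgroup.inclusion_injective _)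
  have h1 : dser (R.map (QuotientGroup.mk' (fitting G))) ℓ ≤
      fittingSeries (G ⧸ fitting G) 2 := by
    apply le_fitting_two
    intro p hp P hPn hP
    apply hℓ (G ⧸ fitting G) _ hRmi p P hP
    · intro A hAP hab
      obtain ⟨T, hT1, hT2⟩ := interface p P hP A hAP hab
      exact ⟨T, hT1, hT2.trans hm⟩
    · intro hp2 M hMn hMP hM2
      obtain ⟨T, hT1, hT2⟩ := interface_class2 p hp2 M (hP.to_le hMP) hM2
      exact ⟨T, hT1, hT2.trans hm⟩
  have h2 : dser R ℓ ≤ fittingSeries G 3 := by
    rw [fittingSeries_succ', ← Subgroup.map_le_iff_le_comap, map_dser]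
    exact h1
  exact (Subgroup.index_antitone (le_fittingSeries_add R ℓ 3 h2)).trans hs

/-- **Main theorem.** There is a function `f` with `|G : F(G)| ≤ f(m(G), |G : R|)` for every
finite group `G` and every solvable normal subgroup `R` of `G`. -/
theorem exists_function_solvable : ∃ f : ℕ → ℕ → ℕ, ∀ (G : Type u) [Group G] [Finite G]
    (R : Subgroup G), R.Normal → Group.IsSolvable R →
    (fitting G).index ≤ f (maxZeros G) R.index := by
  choose f hf using exists_bound_solvable.{u}
  exact ⟨f, fun G _ _ R hR hRs => hf _ _ G R le_rfl le_rfl⟩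

end Pool.Agent.helper7.Fit
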